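import Pool.Agent.Y377.IR.Seq
import Pool.Agent.TH143.HE.Aff
import Pool.Agent.Y377.AO.Conn2

/-!
Affine varieties: points given by iterated recurrences and images of the punctured line.
-/

set_option autoImplicit false

namespace Pool.Agent.Y377.IR

open Set Filter MvPolynomial Pool.Agent.Y377.EL Pool.Agent.Y377.IL
open scoped LinearAlgebra.Projectivization NumberField
open Pool.Agent.TH143.EL (Rep InV inV_iff rep_rep rep_smul rep_eq HolMap rep_iff)
open Pool.Agent.TH143.HE (homog homog_homog eval_homog)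
open Pool.Agent.H159R3.Exp (Laur)
open Pool.Agent.TH600.LE (ExpPrim)

section complex

variable {n : ℕ}

/-- the point of the projective space -/
noncomputable def pt (x : Fin n → ℂ) : Fin (n + 1) → ℂ := Fin.cons 1 x

theorem pt_ne (x : Fin n → ℂ) : pt x ≠ 0 := by
  intro h0
  have h1 : pt x 0 = 0 := congrFun h0 0
  exact one_ne_zero h1

/-- the projective point -/
noncomputable def ppt (x : Fin n → ℂ) : ℙ ℂ (Fin (n + 1) → ℂ) :=
  Projectivization.mk ℂ (pt x) (pt_ne x)

theorem rep_ppt (x : Fin n → ℂ) : Rep (ppt x) (pt x) := ⟨pt_ne x, rfl⟩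

theorem ppt_inj : Function.Injective (ppt : (Fin n → ℂ) → ℙ ℂ (Fin (n + 1) → ℂ)) := by
  intro x y h
  have h1 : Projectivization.mk ℂ (pt x) (pt_ne x) = Projectivization.mk ℂ (pt y) (pt_ne y) := h
  rw [Projectivization.mk_eq_mk_iff'] at h1
  obtain ⟨c, hc⟩ := h1
  have h2 : c * 1 = 1 := congrFun hc 0
  rw [mul_one] at h2
  rw [h2, one_smul] at hc
  funext j
  exact (congrFun hc j.succ).symm

theorem exists_scale (x : Fin n → ℂ) : ∃ c : ℂ, c ≠ 0 ∧ (ppt x).rep = fun j => c * pt x j := by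
  obtain ⟨a, ha⟩ := Projectivization.exists_smul_eq_mk_rep ℂ _ (pt_ne x)
  exact ⟨a, a.ne_zero, by
    change (Projectivization.mk ℂ (pt x) (pt_ne x)).rep = _
    rw [← ha]
    rfl⟩

theorem off_ppt (x : Fin n → ℂ) : eval (ppt x).rep (X 0 : MvPolynomial (Fin (n + 1)) ℂ) ≠ 0 := by
  obtain ⟨c, hc, h⟩ := exists_scale x
  rw [eval_X, h]
  exact mul_ne_zero hc one_ne_zero

theorem reg_ppt (x : Fin n → ℂ) {α : Fin (n + 1) →₀ ℕ} (hα : ∑ j, α j = 1) :
    (∏ j, (ppt x).rep j ^ α j) / eval (ppt x).rep (X 0 : MvPolynomial (Fin (n + 1)) ℂ) =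
      ∏ j, pt x j ^ α j := by
  obtain ⟨c, hc, h⟩ := exists_scale x
  rw [eval_X, h]
  simp only [mul_pow, Finset.prod_mul_distrib]
  rw [Finset.prod_pow_eq_pow_sum, hα, pow_one]
  change c * _ / (c * 1) = _
  rw [mul_one, mul_div_cancel_left₀ _ hc]

theorem eval_pt (x : Fin n → ℂ) (G : MvPolynomial (Fin n) ℂ) :
    eval (pt x) (homog G) = eval x G := by
  have h0 : pt x 0 ≠ 0 := one_ne_zero
  rw [eval_homog G (pt x) h0]
  have h1 : pt x 0 = 1 := rfl
  have h2 : (fun i => pt x (Fin.succ i) / pt x 0) = x := by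
    funext i
    rw [h1, div_one]
    rfl
  rw [h2, h1, one_pow, one_mul]

/-- the homogeneous equations -/
noncomputable def hid (A : Set (MvPolynomial (Fin n) ℂ)) : Ideal (MvPolynomial (Fin (n + 1)) ℂ) :=
  Ideal.span {F | ∃ G ∈ A, F = homog G}

theorem inV_hid {A : Set (MvPolynomial (Fin n) ℂ)} {x : Fin n → ℂ}
    (h : ∀ G ∈ A, eval x G = 0) : InV (hid A) (ppt x) := by
  rw [inV_iff (rep_ppt x)]
  intro F hF _
  have h1 : hid A ≤ RingHom.ker (eval (pt x)) := by
    unfold hid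
    rw [Ideal.span_le]
    rintro _ ⟨G, hG, rfl⟩
    change eval (pt x) (homog G) = 0
    rw [eval_pt]
    exact h G hG
  exact h1 hF

/-- All nonconstant Laurent curves in the algebraic set of `A` lie in the algebraic set of `A'`. -/
def LaurIn (A A' : Set (MvPolynomial (Fin n) ℂ)) : Prop :=
  ∀ v : ℂ → Fin n → ℂ, (∀ j, Laur fun t => v t j) → (∀ F ∈ A, ∀ t, t ≠ 0 → eval (v t) F = 0) →
    (∃ t s, t ≠ 0 ∧ s ≠ 0 ∧ v t ≠ v s) → ∀ G ∈ A', ∀ t, t ≠ 0 → eval (v t) G = 0

theorem mono_of_roots {p : Polynomial ℂ} (h : ∀ t, t ≠ 0 → p.eval t ≠ 0) :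
    ∃ (c : ℂ) (k : ℕ), c ≠ 0 ∧ p = Polynomial.C c * Polynomial.X ^ k := by
  have hp : p ≠ 0 := by
    rintro rfl
    exact h 1 one_ne_zero Polynomial.eval_zero
  obtain ⟨q, hq, hnd⟩ := Polynomial.exists_eq_pow_rootMultiplicity_mul_and_not_dvd p hp 0
  have hdeg : q.degree = 0 := by
    by_contra hne
    obtain ⟨r, hr⟩ := IsAlgClosed.exists_root q hne
    have h1 : r = 0 := by
      by_contra hr0
      apply h r hr0
      rw [hq, Polynomial.eval_mul, hr.eq_zero, mul_zero]
    rw [h1] at hr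
    exact hnd (Polynomial.dvd_iff_isRoot.2 hr)
  obtain ⟨c, hc, hqc⟩ : ∃ c : ℂ, c ≠ 0 ∧ q = Polynomial.C c := by
    have h1 := Polynomial.eq_C_of_degree_eq_zero hdeg
    refine ⟨q.coeff 0, fun h0 => ?_, h1⟩
    rw [h0, Polynomial.C_0] at h1
    rw [h1, mul_zero] at hq
    exact hp hq
  refine ⟨c, p.rootMultiplicity 0, hc, ?_⟩
  conv_lhs => rw [hq]
  rw [hqc, Polynomial.C_0, sub_zero, mul_comm]

/-- curves of the punctured line in the projective closure -/
theorem gm_van {A A' : Set (MvPolynomial (Fin n) ℂ)} (h : LaurIn A A')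
    {G : MvPolynomial (Fin n) ℂ} (hG : G ∈ A') {p : Fin (n + 1) → Polynomial ℂ}
    (hp : GmCurve (hid A) (X 0) p) {t : ℂ} (ht : t ≠ 0) :
    eval (fun j => (p j).eval t) (homog G) = 0 := by
  obtain ⟨hp1, hp2, t1, u1, j, k, ht1, hu1, hjk⟩ := hp
  have h0 : ∀ t, t ≠ 0 → (p 0).eval t ≠ 0 := by
    intro t ht
    have := hp1 t ht
    rwa [eval_X] at this
  obtain ⟨c, m, hc, hm⟩ := mono_of_roots h0
  let v : ℂ → Fin n → ℂ := fun t j => (p j.succ).eval t / (p 0).eval t
  have hv : ∀ j, Laur fun t => v t j := by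
    intro j
    refine ⟨m, Polynomial.C c⁻¹ * p j.succ, fun t ht => ?_⟩
    change (p j.succ).eval t / (p 0).eval t * t ^ m = _
    have h2 : (p 0).eval t = c * t ^ m := by
      rw [hm, Polynomial.eval_mul, Polynomial.eval_C, Polynomial.eval_pow, Polynomial.eval_X]
    rw [h2, Polynomial.eval_mul, Polynomial.eval_C]
    have h3 : t ^ m ≠ 0 := pow_ne_zero _ ht
    field_simp
  have hvA : ∀ F ∈ A, ∀ t, t ≠ 0 → eval (v t) F = 0 := by
    intro F hF t ht
    have h2 := hp2 t ht (homog F) (Ideal.subset_span ⟨F, hF, rfl⟩) ⟨_, homog_homog F⟩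
    rw [eval_homog F _ (h0 t ht)] at h2
    exact (mul_eq_zero.1 h2).resolve_left (pow_ne_zero _ (h0 t ht))
  have hvn : ∃ t s, t ≠ 0 ∧ s ≠ 0 ∧ v t ≠ v s := by
    refine ⟨t1, u1, ht1, hu1, fun h2 => hjk ?_⟩
    have h3 : ∀ i : Fin (n + 1), (p i).eval t1 * (p 0).eval u1 =
        (p i).eval u1 * (p 0).eval t1 := by
      intro i
      refine Fin.cases ?_ (fun i => ?_) i
      · ring
      · have h4 : (p i.succ).eval t1 / (p 0).eval t1 = (p i.succ).eval u1 / (p 0).eval u1 :=
          congrFun h2 i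
        rwa [div_eq_div_iff (h0 t1 ht1) (h0 u1 hu1)] at h4
    have h5 := h0 t1 ht1
    have h6 := h0 u1 hu1
    apply mul_right_cancel₀ (mul_ne_zero h5 h6)
    calc (p j).eval t1 * (p k).eval u1 * ((p 0).eval t1 * (p 0).eval u1) =
        ((p j).eval t1 * (p 0).eval u1) * ((p k).eval u1 * (p 0).eval t1) := by ring
      _ = ((p j).eval u1 * (p 0).eval t1) * ((p k).eval t1 * (p 0).eval u1) := by
          rw [h3 j, h3 k]
      _ = _ := by ring
  rw [eval_homog G _ (h0 t ht), h v hv hvA hvn G hG t ht, mul_zero]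

/-- **Families of points of affine varieties.** -/
theorem aff_family {A A' : Set (MvPolynomial (Fin n) ℂ)} (h : LaurIn A A') {H : Type} [Group H]
    {R : Subalgebra ℂ (H → ℂ)} (hR : FTow R) {x : H → Fin n → ℂ}
    (hx : ∀ j, (fun h => x h j) ∈ R) (hV : ∀ h, ∀ F ∈ A, eval (x h) F = 0) :
    (Set.range x \ {y | ∀ G ∈ A', eval y G = 0}).Finite := by
  let P : H → ℙ ℂ (Fin (n + 1) → ℂ) := fun h => ppt (x h)
  have hptR : ∀ j, (fun h => pt (x h) j) ∈ R := by
    intro j
    refine Fin.cases ?_ (fun j => ?_) j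
    · exact R.one_mem
    · exact hx j
  have hIt : IteratedOff (X 0) 1 P := by
    refine ⟨R, hR, fun α hα => ?_⟩
    have h1 : regP (X 0) α P = ∏ j, (fun h => pt (x h) j) ^ α j := by
      funext h
      unfold regP
      rw [reg_ppt (x h) hα, Finset.prod_apply]
      rfl
    rw [h1]
    exact Subalgebra.prod_mem _ fun j _ => Subalgebra.pow_mem _ (hptR j) _
  have hfin := finite_out_gm (I := hid A) one_pos (isHomogeneous_X ℂ (0 : Fin (n + 1)))
    (P := P) (fun h => off_ppt (x h)) hIt fun h => inV_hid (hV h)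
  refine Set.Finite.of_injOn (f := ppt) ?_ (ppt_inj.injOn) hfin
  rintro _ ⟨⟨g, rfl⟩, hg⟩
  refine ⟨⟨g, rfl⟩, fun hcl => hg fun G hG => ?_⟩
  have h1 := hcl (homog G) ⟨_, homog_homog G⟩ (fun y hy => ?_)
  · rwa [form_at (rep_ppt (x g)) ⟨_, homog_homog G⟩, eval_pt] at h1
  · obtain ⟨p, hp, t, ht, hrep⟩ := hy
    rw [form_at hrep ⟨_, homog_homog G⟩]
    exact gm_van h hG hp ht

theorem iterLin_prod {B : Subalgebra ℂ (ℂ → ℂ)} {h : Fin (n + 1) → ℂ → ℂ}
    (hh : ∀ j, IterLin B (h j)) (α : Fin (n + 1) →₀ ℕ) : IterLin B fun z => ∏ j, h j z ^ α j := by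
  classical
  have hpow : ∀ (f : ℂ → ℂ), IterLin B f → ∀ k : ℕ, IterLin B fun z => f z ^ k := by
    intro f hf k
    induction k with
    | zero =>
      simp only [pow_zero]
      exact IterLin.const B 1
    | succ k ih =>
      simp only [pow_succ]
      exact ih.mul hf
  have key : ∀ s : Finset (Fin (n + 1)), IterLin B fun z => ∏ j ∈ s, h j z ^ α j := by
    intro s
    induction s using Finset.induction_on with
    | empty =>
      simp only [Finset.prod_empty]
      exact IterLin.const B 1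
    | insert a s ha ih =>
      simp only [Finset.prod_insert ha]
      exact (hpow _ (hh a) _).mul ih
  exact key Finset.univ

/-- **Entire curves in affine varieties.** -/
theorem aff_curve {A A' : Set (MvPolynomial (Fin n) ℂ)} (h : LaurIn A A')
    {f : ℂ → Fin n → ℂ} (hd : Differentiable ℂ f) (hl : ∀ j, IterLin ⊥ fun z => f z j)
    (hV : ∀ z, ∀ F ∈ A, eval (f z) F = 0) (hnc : ∃ z w, f z ≠ f w) :
    ∀ z, ∀ G ∈ A', eval (f z) G = 0 := by
  let P : ℂ → ℙ ℂ (Fin (n + 1) → ℂ) := fun z => ppt (f z)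
  have hdj : ∀ j, Differentiable ℂ fun z => f z j := differentiable_pi.1 hd
  have hptd : ∀ j, Differentiable ℂ fun z => pt (f z) j := by
    intro j
    refine Fin.cases ?_ (fun j => ?_) j
    · exact differentiable_const 1
    · exact hdj j
  have hptl : ∀ j, IterLin ⊥ fun z => pt (f z) j := by
    intro j
    refine Fin.cases ?_ (fun j => ?_) j
    · exact IterLin.const ⊥ 1
    · exact hl j
  have hf : HolMap P := fun a => ⟨fun j z => pt (f z) j, fun j => (hptd j).analyticAt a,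
    Eventually.of_forall fun z => rep_ppt (f z)⟩
  have hreg : ∀ α : Fin (n + 1) →₀ ℕ, ∑ j, α j = 1 → IterLin ⊥ (regf (X 0) α P) := by
    intro α hα
    have h1 : regf (X 0) α P = fun z => ∏ j, pt (f z) j ^ α j := by
      funext z
      unfold regf
      exact reg_ppt (f z) hα
    rw [h1]
    exact iterLin_prod hptl α
  have hB : DB (⊥ : Subalgebra ℂ (ℂ → ℂ)) := db_of_trOne trOne_bot
  rcases log_cover (I := hid A) one_pos (isHomogeneous_X ℂ (0 : Fin (n + 1))) hB hf
    (fun z => inV_hid (hV z)) (fun z => off_ppt (f z)) hreg with h1 | h1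
  · exfalso
    obtain ⟨z, w, hzw⟩ := hnc
    exact hzw (ppt_inj (alg_const hf h1 z w))
  · intro z G hG
    have h2 := h1 (homog G) ⟨_, homog_homog G⟩ (fun p hp t ht => gm_van h hG hp ht) z
    rwa [form_at (rep_ppt (f z)) ⟨_, homog_homog G⟩, eval_pt] at h2

end complex

section number

variable {K : Type} [Field K] {ι κ : Type} {n : ℕ}

open Pool.Agent.W235.RM Pool.Agent.Y377.AO Pool.Agent.H159R3.Exp

/-- All nonconstant entire curves in `V` whose coordinates are given by iterated linear differential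
equations over the constants lie in `V'`. -/
def IterCurvesIn (σ : K →+* ℂ) (F : ι → MvPolynomial (Fin n) (𝓞 K))
    (G : κ → MvPolynomial (Fin n) (𝓞 K)) : Prop :=
  ∀ f : ℂ → Fin n → ℂ, Differentiable ℂ f → (∀ j, IterLin ⊥ fun z => f z j) →
    (∀ z i, eval₂ (σ.comp (algebraMap (𝓞 K) K)) (f z) (F i) = 0) → (∃ z w, f z ≠ f w) →
    ∀ z l, eval₂ (σ.comp (algebraMap (𝓞 K) K)) (f z) (G l) = 0

/-- the common zeros of `F` with coordinates in `L` -/
def Zeros (F : ι → MvPolynomial (Fin n) (𝓞 K)) (L : Type)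
    [Field L] [Algebra K L] : Set (Fin n → L) :=
  {x | ∀ i, eval₂ ((algebraMap K L).comp (algebraMap (𝓞 K) K)) x (F i) = 0}

/-- For all fields `L ⊇ K` in `ℂ`, all groups and all families of points of `V(L)` given by iterated
recurrences, only finitely many of the points are outside `V'`. -/
def IteratedFiniteA (F : ι → MvPolynomial (Fin n) (𝓞 K)) (G : κ → MvPolynomial (Fin n) (𝓞 K)) :
    Prop :=
  ∀ (L : Type) [Field L] [Algebra K L] (τ : L →+* ℂ) (H : Type) [Group H]
    (R : Subalgebra ℂ (H → ℂ)) (x : H → Fin n → L), FTow R → (∀ j, (fun h => τ (x h j)) ∈ R) →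
      (∀ h, x h ∈ Zeros F L) → (Set.range x \ Zeros G L).Finite

/-- For all number fields `L ⊇ K` and all sequences (indexed by the integers) of points of `V(L)`
with coordinates given by iterated recurrences, only finitely many of the points are outside `V'`. -/
def SequenceFiniteA (F : ι → MvPolynomial (Fin n) (𝓞 K)) (G : κ → MvPolynomial (Fin n) (𝓞 K)) :
    Prop :=
  ∀ (L : Type) [Field L] [NumberField L] [Algebra K L] (τ : L →+* ℂ) (x : ℤ → Fin n → L),
    (∀ j, IterRec fun m => τ (x m j)) → (∀ m, x m ∈ Zeros F L) →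
      (Set.range x \ Zeros G L).Finite

/-- the equations over the complex numbers -/
noncomputable def cEq (σ : K →+* ℂ) (F : ι → MvPolynomial (Fin n) (𝓞 K)) :
    Set (MvPolynomial (Fin n) ℂ) :=
  Set.range fun i => MvPolynomial.map (σ.comp (algebraMap (𝓞 K) K)) (F i)

theorem laurIn_of_gm {σ : K →+* ℂ} {F : ι → MvPolynomial (Fin n) (𝓞 K)}
    {G : κ → MvPolynomial (Fin n) (𝓞 K)} (h : GmCurvesIn σ F G) :
    LaurIn (cEq σ F) (cEq σ G) := by
  rintro v hv hA hn _ ⟨l, rfl⟩ t ht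
  rw [eval_map]
  refine h v hv (fun i t ht => ?_) hn l t ht
  have := hA _ ⟨i, rfl⟩ t ht
  rwa [eval_map] at this

theorem iterCurvesIn_of_gm {σ : K →+* ℂ} {F : ι → MvPolynomial (Fin n) (𝓞 K)}
    {G : κ → MvPolynomial (Fin n) (𝓞 K)} (h : GmCurvesIn σ F G) : IterCurvesIn σ F G := by
  intro f hd hl hF hnc z l
  have h1 := aff_curve (laurIn_of_gm h) hd hl (fun z F' hF' => by
    obtain ⟨i, rfl⟩ := hF'
    rw [eval_map]
    exact hF z i) hnc z _ ⟨l, rfl⟩
  rwa [eval_map] at h1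

theorem iteratedFinite_of_gm {F : ι → MvPolynomial (Fin n) (𝓞 K)}
    {G : κ → MvPolynomial (Fin n) (𝓞 K)} (h : ∀ σ : K →+* ℂ, GmCurvesIn σ F G) :
    IteratedFiniteA F G := by
  intro L _ _ τ H _ R x hR hx hF
  have hz : ∀ {ι : Type} (F : ι → MvPolynomial (Fin n) (𝓞 K)) (y : Fin n → L) (i : ι),
      eval (fun j => τ (y j)) (MvPolynomial.map
        ((τ.comp (algebraMap K L)).comp (algebraMap (𝓞 K) K)) (F i)) =
      τ (eval₂ ((algebraMap K L).comp (algebraMap (𝓞 K) K)) y (F i)) := by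
    intro ι F y i
    rw [eval_map, RingHom.comp_assoc]
    exact (eval₂_comp_left τ _ y (F i)).symm
  have h1 := aff_family (laurIn_of_gm (h (τ.comp (algebraMap K L)))) hR
    (x := fun h j => τ (x h j)) hx (fun g F' hF' => by
      obtain ⟨i, rfl⟩ := hF'
      change eval (fun j => τ (x g j)) (MvPolynomial.map
        ((τ.comp (algebraMap K L)).comp (algebraMap (𝓞 K) K)) (F i)) = 0
      rw [hz, hF g i, map_zero])
  refine Set.Finite.of_injOn (f := fun (y : Fin n → L) j => τ (y j)) ?_ ?_ h1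
  · rintro _ ⟨⟨g, rfl⟩, hg⟩
    refine ⟨⟨g, rfl⟩, fun hcl => hg fun l => ?_⟩
    have h2 := hcl _ ⟨l, rfl⟩
    change eval (fun j => τ (x g j)) (MvPolynomial.map
        ((τ.comp (algebraMap K L)).comp (algebraMap (𝓞 K) K)) (G l)) = 0 at h2
    rw [hz] at h2
    exact (map_eq_zero τ).1 h2
  · intro y _ y' _ hyy
    funext j
    exact τ.injective (congrFun hyy j)

theorem sequenceFiniteA_of_iterated {F : ι → MvPolynomial (Fin n) (𝓞 K)}
    {G : κ → MvPolynomial (Fin n) (𝓞 K)} (h : IteratedFiniteA F G) : SequenceFiniteA F G := by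
  intro L _ _ _ τ x hx hF
  obtain ⟨R, -, h2, h3⟩ := common (F := fun (j : Fin n) (m : Multiplicative ℤ) =>
    τ (x m.toAdd j)) (fun j => (hx j).tow) ⊥ FTow.base
  have h4 := h L τ (Multiplicative ℤ) R (fun m => x m.toAdd) h2 h3 fun m => hF m.toAdd
  have h5 : Set.range x = Set.range fun m : Multiplicative ℤ => x m.toAdd := by
    ext y
    constructor
    · rintro ⟨m, rfl⟩
      exact ⟨Multiplicative.ofAdd m, rfl⟩
    · rintro ⟨m, rfl⟩
      exact ⟨m.toAdd, rfl⟩
  rw [h5]
  exact h4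

/-- coordinates of orbits of cyclic groups -/
theorem iterRec_orbit {L : Type} [Field L] (τ : L →+* ℂ) {r : ℕ}
    (ρ : Multiplicative ℤ →* Matrix.GeneralLinearGroup (Fin r) L) (M : Matrix (Fin n) (Fin r) L)
    (v : Fin r → L) (j : Fin n) :
    IterRec fun m => τ (orbA M ρ v (Multiplicative.ofAdd m) j) := by
  let A : Matrix.GeneralLinearGroup (Fin r) L := ρ (Multiplicative.ofAdd 1)
  have h1 : ∀ k, IterRec fun m : ℤ => τ (((ρ (Multiplicative.ofAdd m) :
      Matrix (Fin r) (Fin r) L).mulVec v) k) := by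
    intro k
    refine IterRec.solution (fun i j _ => τ (A.1 i j)) (fun i j _ => τ ((A⁻¹).1 i j))
      (fun k (m : ℤ) => τ (((ρ (Multiplicative.ofAdd m) :
        Matrix (Fin r) (Fin r) L).mulVec v) k)) (fun i j => IterRec.const _)
      (fun i j => IterRec.const _) (fun m i j => ?_) (fun m i => ?_) k
    · have h2 : (A.1 * (A⁻¹).1) i j = (1 : Matrix (Fin r) (Fin r) L) i j := by
        rw [← Units.val_mul, mul_inv_cancel, Units.val_one]
      rw [Matrix.mul_apply, Matrix.one_apply] at h2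
      have h3 := congrArg τ h2
      rw [map_sum] at h3
      have h4 : (∑ k, τ (A.1 i k) * τ ((A⁻¹).1 k j)) = ∑ k, τ (A.1 i k * (A⁻¹).1 k j) :=
        Finset.sum_congr rfl fun k _ => (map_mul τ _ _).symm
      rw [h4, h3]
      split_ifs
      · exact map_one τ
      · exact map_zero τ
    · have h2 : ρ (Multiplicative.ofAdd (m + 1)) = A * ρ (Multiplicative.ofAdd m) := by
        rw [← map_mul, ← ofAdd_add, add_comm]
      have h3 : ((ρ (Multiplicative.ofAdd (m + 1)) : Matrix (Fin r) (Fin r) L).mulVec v) i =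
          ∑ k, A.1 i k * ((ρ (Multiplicative.ofAdd m) : Matrix (Fin r) (Fin r) L).mulVec v) k := by
        rw [h2, Units.val_mul, ← Matrix.mulVec_mulVec]
        rfl
      rw [h3, map_sum]
      exact Finset.sum_congr rfl fun k _ => map_mul τ _ _
  have h2 : (fun m : ℤ => τ (orbA M ρ v (Multiplicative.ofAdd m) j)) = fun m : ℤ =>
      ∑ k, τ (M j k) * τ (((ρ (Multiplicative.ofAdd m) :
        Matrix (Fin r) (Fin r) L).mulVec v) k) := by
    funext m
    have h3 : orbA M ρ v (Multiplicative.ofAdd m) j = ∑ k, M j k *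
      ((ρ (Multiplicative.ofAdd m) : Matrix (Fin r) (Fin r) L).mulVec v) k := rfl
    rw [h3, map_sum]
    exact Finset.sum_congr rfl fun k _ => map_mul τ _ _
  rw [h2]
  classical
  have key : ∀ s : Finset (Fin r), IterRec fun m : ℤ => ∑ k ∈ s, τ (M j k) *
      τ (((ρ (Multiplicative.ofAdd m) : Matrix (Fin r) (Fin r) L).mulVec v) k) := by
    intro s
    induction s using Finset.induction_on with
    | empty =>
      simp only [Finset.sum_empty]
      exact IterRec.const 0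
    | insert a s ha ih =>
      simp only [Finset.sum_insert ha]
      exact ((IterRec.const _).mul (h1 a)).add ih
  exact key Finset.univ

theorem not_hasLaurent_of_sequence {F : ι → MvPolynomial (Fin n) (𝓞 K)}
    {G : κ → MvPolynomial (Fin n) (𝓞 K)} (h : SequenceFiniteA F G) : ¬ HasLaurent F G := by
  intro hL
  obtain ⟨r, L, iF, iN, iA, ρ, M, v, h2, h3⟩ := conv_hasLaurent F G hL
  let τ : L →+* ℂ := (IsAlgClosed.lift : L →ₐ[ℚ] ℂ)
  apply h3
  have h4 := h L τ (fun m => orbA M ρ v (Multiplicative.ofAdd m)) (iterRec_orbit τ ρ M v)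
    (fun m i => by
      have h5 := h2 (Multiplicative.ofAdd m) _ ⟨i, rfl⟩
      rwa [aeval_mapS] at h5)
  refine h4.subset ?_
  rintro x ⟨⟨g, rfl⟩, _, ⟨l, rfl⟩, hne⟩
  refine ⟨⟨g.toAdd, rfl⟩, fun h0 => hne ?_⟩
  rw [aeval_mapS]
  exact h0 l

theorem iterLin_laur {φ : ℂ → ℂ} (h : Laur φ) : IterLin ⊥ fun z => φ (Complex.exp z) := by
  obtain ⟨M, Q, hQ⟩ := h
  have h1 : (fun z => φ (Complex.exp z)) = fun z => Q.eval (Complex.exp z) *
      (Complex.exp ((-1) * z)) ^ M := by
    funext z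
    rw [← hQ _ (Complex.exp_ne_zero z), neg_one_mul, Complex.exp_neg, mul_assoc, ← mul_pow,
      mul_inv_cancel₀ (Complex.exp_ne_zero z), one_pow, mul_one]
  rw [h1]
  have h2 : TH600.LE.ExpPrim fun z => Q.eval (Complex.exp z) :=
    (TH600.LE.ExpPrim.exp TH600.LE.ExpPrim.id).poly Q
  have h3 : TH600.LE.ExpPrim fun z : ℂ => (Complex.exp ((-1) * z)) ^ M :=
    (TH600.LE.ExpPrim.exp ((TH600.LE.ExpPrim.const (-1)).mul TH600.LE.ExpPrim.id)).pow M
  exact (expPrim_iter (h2.mul h3)).1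

theorem gm_of_iterCurvesIn {σ : K →+* ℂ} {F : ι → MvPolynomial (Fin n) (𝓞 K)}
    {G : κ → MvPolynomial (Fin n) (𝓞 K)} (h : IterCurvesIn σ F G) : GmCurvesIn σ F G := by
  intro v hv hF ⟨t, s, ht, hs, hne⟩ l u hu
  have h1 := h (fun z => v (Complex.exp z)) (differentiable_pi.2 fun j =>
    (Laur.expPoly (hv j)).1) (fun j => iterLin_laur (hv j))
    (fun z i => hF i _ (Complex.exp_ne_zero z)) ⟨Complex.log t, Complex.log s, by
      rw [Complex.exp_log ht, Complex.exp_log hs]
      exact hne⟩ (Complex.log u) l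
  rwa [Complex.exp_log hu] at h1

end number

end Pool.Agent.Y377.IR
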