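import Pool.Agent.Y377.IR.Fun
import Pool.Agent.Y377.IL.AllB
import Pool.Agent.TH600.LE.Sp

/-!
Points given by iterated recurrences: the images of the closure.
-/

set_option autoImplicit false

namespace Pool.Agent.Y377.IR

open Set MvPolynomial Pool.Agent.Y377.EL Pool.Agent.Y377.IL
open scoped LinearAlgebra.Projectivization
open Pool.Agent.TH143.GT (Covered FunField Pluricanonical)
open Pool.Agent.W602.GT (IsForm coords exists_embedding GeneralType)
open Pool.Agent.TH143.EL (Rep InV inV_iff rep_rep rep_smul rep_eq)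

variable {N : ℕ}

/-- **Images of the closure, abstract version.** -/
theorem abs_cov {K' : Type} [Field K'] [Algebra ℂ K'] {F R : Subalgebra ℂ K'}
    (hM : ∀ t : Finset K', (∀ x ∈ t, x ∈ frac R) → (∃ x ∈ t, ¬ IsAlgebraic F x) → RatFam R t)
    {x : Fin (N + 1) → K'} (hx : ∀ j, x j ∈ R) {l : Fin (N + 1)} (hl : x l ≠ 0)
    {K : Type} [Field K] [Algebra ℂ K] {y : Fin (N + 1) → K}
    (hgen : coords ℂ y = ⊤)
    (hrel : ∀ G : MvPolynomial (Fin (N + 1)) ℂ, IsForm G →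
      (W602.GT.val y G = 0 ↔ aeval x G = 0)) :
    y l ≠ 0 ∧ ∃ ψ : K →ₐ[ℂ] K', (∀ j, ψ (y j / y l) = x j / x l) ∧
      ∀ E : IntermediateField ℂ K, E.FG → (∀ e ∈ E, IsAlgebraic F (ψ e)) ∨ Covered E := by
  classical
  have hyl : y l ≠ 0 := by
    intro h0
    apply hl
    have h1 : W602.GT.val y (X l : MvPolynomial (Fin (N + 1)) ℂ) = 0 := by
      unfold W602.GT.val
      rw [aeval_X, h0]
    rw [hrel _ ⟨1, isHomogeneous_X _ _⟩, aeval_X] at h1
    exact h1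
  obtain ⟨ψ, hψ⟩ := exists_embedding (k := ℂ) (y := y) (y' := x) (i0 := l)
    hyl hl hgen (fun G hG => by
      rw [hrel G hG]
      rfl)
  refine ⟨hyl, ψ, hψ, fun E hE => ?_⟩
  have hfr : ∀ a : K, ψ a ∈ frac R := by
    intro a
    have h1 : a ∈ (frac R).comap ψ := by
      have h2 : coords ℂ y ≤ (frac R).comap ψ := by
        unfold coords
        rw [IntermediateField.adjoin_le_iff]
        rintro _ ⟨i, j, hj, rfl⟩
        have h3 : y i / y j = (y i / y l) / (y j / y l) := by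
          rw [div_div_div_cancel_right₀ hyl]
        change ψ (y i / y j) ∈ frac R
        rw [h3, map_div₀, hψ, hψ]
        have h4 : ∀ j, x j / x l ∈ frac R := fun j =>
          (frac R).div_mem (le_frac R (hx j)) (le_frac R (hx l))
        exact (frac R).div_mem (h4 i) (h4 j)
      exact h2 (by rw [hgen]; exact IntermediateField.mem_top)
    exact h1
  obtain ⟨t0, ht0⟩ := hE
  by_cases hall : ∀ a ∈ t0, IsAlgebraic F (ψ a)
  · left
    have h2 : E ≤ (algI F).comap ψ := by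
      rw [← ht0, IntermediateField.adjoin_le_iff]
      intro a ha
      exact hall a ha
    intro e he
    exact h2 he
  · right
    push Not at hall
    obtain ⟨a0, ha0, hna⟩ := hall
    obtain ⟨S0, M, i1, i2, φ, -, h2, -, ⟨x, hx, hxc⟩, -⟩ : RatFam R (t0.image ψ) := by
      refine hM _ (fun a ha => ?_) ⟨ψ a0, Finset.mem_image_of_mem _ ha0, hna⟩
      obtain ⟨b, -, rfl⟩ := Finset.mem_image.1 ha
      exact hfr b
    have h3 : E ≤ (frac S0).comap ψ := by
      rw [← ht0, IntermediateField.adjoin_le_iff]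
      intro a ha
      exact h2 _ (Finset.mem_image_of_mem _ ha)
    let θ : E →ₐ[ℂ] frac S0 := (ψ.comp E.val).codRestrict (frac S0).toSubalgebra
      fun e => h3 e.2
    obtain ⟨a, ha, hax⟩ := Finset.mem_image.1 hx
    have haE : a ∈ E := by
      rw [← ht0]
      exact IntermediateField.subset_adjoin _ _ ha
    refine ⟨M, i1, i2, φ.comp θ, ⟨a, haE⟩, fun c hc => hxc c ?_⟩
    have h4 : θ ⟨a, haE⟩ = x := Subtype.ext hax
    rw [← h4]
    exact hc

/-- images of positive dimension over the constants -/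
theorem abs_images {K' : Type} [Field K'] [Algebra ℂ K'] {R : Subalgebra ℂ K'}
    (hM : ∀ t : Finset K', (∀ x ∈ t, x ∈ frac R) →
      (∃ x ∈ t, ¬ IsAlgebraic (⊥ : Subalgebra ℂ K') x) → RatFam R t)
    {x : Fin (N + 1) → K'} (hx : ∀ j, x j ∈ R) {l : Fin (N + 1)} (hl : x l ≠ 0)
    {p : Ideal (MvPolynomial (Fin (N + 1)) ℂ)} {Q : MvPolynomial (Fin (N + 1)) ℂ}
    {K : Type} [Field K] [Algebra ℂ K] {w : ℕ} {y : Fin (N + 1) → K} (hy : FunField p Q K w y)
    (hrel : ∀ G : MvPolynomial (Fin (N + 1)) ℂ, IsForm G →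
      (W602.GT.val y G = 0 ↔ aeval x G = 0))
    (E : IntermediateField ℂ K) {v : ℕ} (hv : Algebra.trdeg ℂ E = v) (hv0 : 0 < v) :
    Covered E ∧ ∀ n : ℕ, 0 < n → ∀ ω : (Fin v → Derivation ℂ E E) → E,
      Pluricanonical v n ω → ω = 0 := by
  obtain ⟨-, ψ, -, hE⟩ := abs_cov hM hx hl hy.sub.gen hrel
  have hfg : E.FG := Pool.Agent.Y333.IL.t_FGS K (fg_of_coords hy.sub.gen) E
  rcases hE E hfg with h1 | h1
  · exfalso
    have h2 : Algebra.IsAlgebraic ℂ E := ⟨fun e => by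
      obtain ⟨c, hc⟩ := const_of_alg (h1 e e.2)
      have h3 : e = algebraMap ℂ E c := by
        apply Subtype.ext
        apply ψ.injective
        exact hc.trans (ψ.commutes c).symm
      rw [h3]
      exact isAlgebraic_algebraMap c⟩
    have h4 : Algebra.trdeg ℂ E = 0 := trdeg_eq_zero
    rw [hv] at h4
    have h5 : v = 0 := by exact_mod_cast h4
    omega
  · refine ⟨h1, fun n hn ω hω => ?_⟩
    obtain ⟨m, p', y', hy'⟩ := exists_funField (fg_top_of_fg hfg) hv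
    exact Pool.Agent.Y288.IL.t_PL m p' E v y' hy' hv0 h1 n hn ω hω

section points

variable {H : Type} [Group H]

/-- The points `P h`, `h` in the group `H`, have homogeneous coordinates in the ring of a tower. -/
def IteratedOn (P : H → ℙ ℂ (Fin (N + 1) → ℂ)) : Prop :=
  ∃ (R : Subalgebra ℂ (H → ℂ)) (f : Fin (N + 1) → H → ℂ), FTow R ∧ (∀ j, f j ∈ R) ∧
    ∀ h, Rep (P h) fun j => f j h

theorem eval_fun (f : Fin (N + 1) → H → ℂ) (G : MvPolynomial (Fin (N + 1)) ℂ) (h : H) :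
    (aeval f G : H → ℂ) h = eval (fun j => f j h) G := by
  have h1 := MvPolynomial.comp_aeval_apply (f := f) (Pi.evalAlgHom ℂ (fun _ : H => ℂ) h) G
  have h2 : (Pi.evalAlgHom ℂ (fun _ : H => ℂ) h) (aeval f G) = (aeval f G : H → ℂ) h := rfl
  rw [← h2, h1, MvPolynomial.aeval_eq_eval]
  rfl

theorem val_res {R : Subalgebra ℂ (H → ℂ)} {Nn : Subgroup H} {a : H} {K : Type} [Field K]
    [Algebra ℂ K] {Γ : Subgroup (K ≃ₐ[ℂ] K)} {ρ : R →ₐ[ℂ] K} (hρ : Res R Nn a K Γ ρ)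
    {f : Fin (N + 1) → H → ℂ} (hf : ∀ j, f j ∈ R) (G : MvPolynomial (Fin (N + 1)) ℂ) :
    aeval (fun j => ρ ⟨f j, hf j⟩) G = 0 ↔
      ∀ g ∈ Nn, eval (fun j => f j (g * a)) G = 0 := by
  have h1 : aeval (fun j => ρ ⟨f j, hf j⟩) G = ρ (aeval (fun j => (⟨f j, hf j⟩ : R)) G) :=
    (MvPolynomial.comp_aeval_apply (f := fun j => (⟨f j, hf j⟩ : R)) ρ G).symm
  rw [h1, hρ.ker]
  have h2 : ((aeval (fun j => (⟨f j, hf j⟩ : R)) G : R) : H → ℂ) = aeval f G :=
    MvPolynomial.comp_aeval_apply (f := fun j => (⟨f j, hf j⟩ : R)) R.val G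
  rw [h2]
  refine forall_congr' fun g => forall_congr' fun _ => ?_
  rw [eval_fun]

/-- forms at points -/
theorem form_at {x : ℙ ℂ (Fin (N + 1) → ℂ)} {v : Fin (N + 1) → ℂ} (hx : Rep x v)
    {G : MvPolynomial (Fin (N + 1)) ℂ} (hG : ∃ d, G.IsHomogeneous d) :
    eval x.rep G = 0 ↔ eval v G = 0 := Pool.Agent.TH600.LE.rep_form hx hG

/-- the alternative on a coset: constant, or a family -/
theorem coset_alt (Hy : Hyp) (Gy : GHyp) {R : Subalgebra ℂ (H → ℂ)} {Nn : Subgroup H} {a : H}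
    {K : Type} [Field K] [Algebra ℂ K] {Γ : Subgroup (K ≃ₐ[ℂ] K)} {ρ : R →ₐ[ℂ] K}
    (hρ : Res R Nn a K Γ ρ) (t : Finset K) (ht : ∀ x ∈ t, x ∈ frac ρ.range)
    (hne : ∃ x ∈ t, ¬ IsAlgebraic (⊥ : Subalgebra ℂ K) x) : RatFam ρ.range t :=
  hρ.tow.main Hy Gy hρ.fg hρ.cst ρ.range le_rfl (hρ.tow.good Hy.noe).1 (fgmod_self _) t ht hne

/-- points with constant ratios -/
theorem const_on {R : Subalgebra ℂ (H → ℂ)} {Nn : Subgroup H} {a : H} {K : Type} [Field K]
    [Algebra ℂ K] {Γ : Subgroup (K ≃ₐ[ℂ] K)} {ρ : R →ₐ[ℂ] K} (hρ : Res R Nn a K Γ ρ)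
    {f : Fin (N + 1) → H → ℂ} (hf : ∀ j, f j ∈ R) {l : Fin (N + 1)} (hl : ρ ⟨f l, hf l⟩ ≠ 0)
    (hall : ∀ j, IsAlgebraic (⊥ : Subalgebra ℂ K) (ρ ⟨f j, hf j⟩ / ρ ⟨f l, hf l⟩)) :
    ∃ c : Fin (N + 1) → ℂ, ∀ g ∈ Nn, ∀ j, f j (g * a) = f l (g * a) * c j := by
  choose c hc using fun j => const_of_alg (hall j)
  refine ⟨c, fun g hg j => ?_⟩
  have h1 : ρ (⟨f j, hf j⟩ - c j • ⟨f l, hf l⟩) = 0 := by
    rw [map_sub, map_smul, Algebra.smul_def, ← hc j, div_mul_cancel₀ _ hl, sub_self]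
  have h2 := (hρ.ker _).1 h1 g hg
  have h3 : f j (g * a) - c j * f l (g * a) = 0 := h2
  rw [mul_comm]
  exact sub_eq_zero.1 h3

/-- **The alternative for points of projective algebraic sets.** -/
theorem coset_rat (Hy : Hyp) (Gy : GHyp) (hRC : S_RC) {R : Subalgebra ℂ (H → ℂ)}
    {Nn : Subgroup H} {a : H} {K : Type} [Field K] [Algebra ℂ K] {Γ : Subgroup (K ≃ₐ[ℂ] K)}
    {ρ : R →ₐ[ℂ] K} (hρ : Res R Nn a K Γ ρ) {f : Fin (N + 1) → H → ℂ} (hf : ∀ j, f j ∈ R)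
    {P : H → ℙ ℂ (Fin (N + 1) → ℂ)} (hP : ∀ h, Rep (P h) fun j => f j h)
    {I : Ideal (MvPolynomial (Fin (N + 1)) ℂ)} (hI : ∀ g ∈ Nn, InV I (P (g * a))) :
    (∀ g ∈ Nn, P (g * a) = P a) ∨ ∀ G' : MvPolynomial (Fin (N + 1)) ℂ,
      (∃ d, G'.IsHomogeneous d) →
      (∀ p : Fin (N + 1) → Polynomial ℂ,
        (∀ G ∈ I, (∃ d, G.IsHomogeneous d) → aeval p G = 0) →
        (∃ j k, Polynomial.derivative (p j) * p k ≠ p j * Polynomial.derivative (p k)) →
          aeval p G' = 0) → ∀ g ∈ Nn, eval (P (g * a)).rep G' = 0 := by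
  classical
  obtain ⟨l, hl0⟩ := Function.ne_iff.1 (hP a).1
  have hl0' : f l a ≠ 0 := hl0
  have hl : ρ ⟨f l, hf l⟩ ≠ 0 := by
    intro h0
    have h1 := (hρ.ker _).1 h0 1 Nn.one_mem
    rw [one_mul] at h1
    exact hl0' h1
  by_cases hall : ∀ j, IsAlgebraic (⊥ : Subalgebra ℂ K) (ρ ⟨f j, hf j⟩ / ρ ⟨f l, hf l⟩)
  · left
    obtain ⟨c, hc⟩ := const_on hρ hf hl hall
    have key : ∀ g ∈ Nn, Rep (P (g * a)) c := by
      intro g hg
      have h1 := hP (g * a)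
      have h2 : (fun j => f j (g * a)) = fun j => f l (g * a) * c j := funext fun j => hc g hg j
      rw [h2] at h1
      have h3 : f l (g * a) ≠ 0 := by
        intro h0
        apply h1.1
        funext j
        rw [h0, zero_mul]
        rfl
      exact (rep_smul h3).1 h1
    intro g hg
    have h1 := key 1 Nn.one_mem
    rw [one_mul] at h1
    exact rep_eq (key g hg) h1
  · right
    push Not at hall
    obtain ⟨j0, hj0⟩ := hall
    intro G' hG' hcur g hg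
    have hRF : RatFam ρ.range (Finset.univ.image fun j => ρ ⟨f j, hf j⟩ / ρ ⟨f l, hf l⟩) := by
      refine coset_alt Hy Gy hρ _ (fun b hb => ?_) ⟨_,
        Finset.mem_image.2 ⟨j0, Finset.mem_univ j0, rfl⟩, hj0⟩
      obtain ⟨j, -, rfl⟩ := Finset.mem_image.1 hb
      exact (frac _).div_mem (le_frac _ ⟨_, rfl⟩) (le_frac _ ⟨_, rfl⟩)
    have h1 : aeval (fun j => ρ ⟨f j, hf j⟩) G' = 0 := by
      refine hRF.rc hRC hG' hcur hl
        (fun j => Finset.mem_image.2 ⟨j, Finset.mem_univ j, rfl⟩) (fun b hb => by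
          obtain ⟨j, -, rfl⟩ := Finset.mem_image.1 hb
          exact ⟨j, rfl⟩) fun G hG hGh => ?_
      rw [val_res hρ hf]
      intro g hg
      exact (inV_iff (hP _)).1 (hI g hg) G hG hGh
    rw [form_at (hP _) hG']
    exact (val_res hρ hf G').1 h1 g hg

end points

end Pool.Agent.Y377.IR
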