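import Pool.Agent.Y377.IR.Fin
import Pool.Agent.Y312.IR.FA
import Pool.Agent.Y657.IR.FB
import Pool.Agent.Y921.IR.Fr
import Pool.Agent.Y987.IR.Der
import Pool.Agent.Y523.IR.SP
import Pool.Agent.Y737.IR.Min
import Pool.Agent.Y495.IR.Com
import Pool.Agent.Y68.IR.Lift
import Pool.Agent.Y401.IR.Sim
import Pool.Agent.Y529.IR.KA
import Pool.Agent.Y529.IR.KB
import Pool.Agent.Y529.IR.KC

/-!
Points given by iterated recurrences: unconditional statements. The files of the parts are due to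
helpers 312, 657, 921, 987, 523, 737, 495, 68, 401 and 529.
-/

set_option autoImplicit false

namespace Pool.Agent.Y377.IR

open Set MvPolynomial Pool.Agent.Y377.EL Pool.Agent.Y377.IL
open scoped LinearAlgebra.Projectivization
open Pool.Agent.TH143.GT (Covered FunField Pluricanonical)
open Pool.Agent.W602.GT (IsForm coords GeneralType LogGeneralType)
open Pool.Agent.W603.GR (OffQ)
open Pool.Agent.TH143.EL (Rep InV inV_iff rep_rep rep_smul rep_eq)

theorem ghyp : GHyp where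
  fa := Pool.Agent.Y312.IR.t_FA
  fb := Pool.Agent.Y657.IR.t_FB
  fr := Pool.Agent.Y921.IR.t_FR
  der := Pool.Agent.Y987.IR.t_DER
  sp := Pool.Agent.Y523.IR.t_SP
  com := Pool.Agent.Y495.IR.t_COM

theorem fhyp : FHyp where
  lift := Pool.Agent.Y68.IR.t_LIFT
  sim := Pool.Agent.Y401.IR.t_SIM
  min := Pool.Agent.Y737.IR.t_MIN
  ka := Pool.Agent.Y529.IR.t_KA
  kb := Pool.Agent.Y529.IR.B.t_KB
  kc := Pool.Agent.Y529.IR.t_KC

variable {N : ℕ} {H : Type} [Group H] {P : H → ℙ ℂ (Fin (N + 1) → ℂ)}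
  {p I : Ideal (MvPolynomial (Fin (N + 1)) ℂ)} {Q : MvPolynomial (Fin (N + 1)) ℂ} {d : ℕ}

theorem cosets (hP : IteratedOn P) :
    ∃ Nn : Subgroup H, Nn.Normal ∧ Nn.FiniteIndex ∧ ∀ a, CosetAlternative Nn P a :=
  iterated_cosets hyp ghyp fhyp Pool.Agent.Y737.IL.t_RC hP

theorem cosets_off (hd : 0 < d) (hQ : Q.IsHomogeneous d) (hX : ∀ h, eval (P h).rep Q ≠ 0)
    (hP : IteratedOff Q d P) :
    ∃ Nn : Subgroup H, Nn.Normal ∧ Nn.FiniteIndex ∧ ∀ a, CosetAlternativeOff Q Nn P a :=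
  iterated_cosets_off hyp ghyp fhyp Pool.Agent.Y988.IL.t_LOGP Pool.Agent.Y814.IL.t_PF
    Pool.Agent.Y356.IL.t_RCQ hd hQ hX hP

/-- finitely many values outside the closure of the rational curves -/
theorem finite_out_rat (hP : IteratedOn P) (hI : ∀ h, InV I (P h)) :
    (Set.range P \ ZClosure (RationalPoints I)).Finite := by
  obtain ⟨Nn, hn, hfi, h⟩ := cosets hP
  refine finite_out hn hfi fun a => ?_
  rcases h a with h1 | h1
  · exact Or.inl h1
  · exact Or.inr (h1 I fun g _ => hI (g * a))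

/-- finitely many values outside the closure of the images of the punctured line -/
theorem finite_out_gm (hd : 0 < d) (hQ : Q.IsHomogeneous d) (hX : ∀ h, eval (P h).rep Q ≠ 0)
    (hP : IteratedOff Q d P) (hI : ∀ h, InV I (P h)) :
    (Set.range P \ ZClosure (GmPoints I Q)).Finite := by
  obtain ⟨Nn, hn, hfi, h⟩ := cosets_off hd hQ hX hP
  refine finite_out hn hfi fun a => ?_
  rcases h a with h1 | h1
  · exact Or.inl h1
  · exact Or.inr (h1 I fun g _ => hI (g * a))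

theorem dense_not_gt {K : Type} [Field K] [Algebra ℂ K] {w : ℕ} {y : Fin (N + 1) → K}
    (hy : FunField p 1 K w y) (hP : IteratedOn P) (hX : ∀ h, InV p (P h))
    (hd : ∀ G : MvPolynomial (Fin (N + 1)) ℂ, IsForm G → (∀ h, eval (P h).rep G = 0) → G ∈ p)
    (E : IntermediateField ℂ K) {v : ℕ} (hv : Algebra.trdeg ℂ E = v) (hv0 : 0 < v) :
    (Covered E ∧ ∀ n : ℕ, 0 < n → ∀ ω : (Fin v → Derivation ℂ E E) → E,
      Pluricanonical v n ω → ω = 0) ∧ ¬ GeneralType ℂ E v := by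
  have h1 := dense_images hyp ghyp fhyp hy hP hX hd E hv hv0
  exact ⟨h1, not_gt h1.2⟩

theorem dense_not_log (hd : 0 < d) (hQ : Q.IsHomogeneous d)
    {K : Type} [Field K] [Algebra ℂ K] {w : ℕ} {y : Fin (N + 1) → K} (hy : FunField p Q K w y)
    (hw : 0 < w) (hX : ∀ h, eval (P h).rep Q ≠ 0)
    (hP : IteratedOff Q d P) (hV : ∀ h, InV p (P h))
    (hden : ∀ G : MvPolynomial (Fin (N + 1)) ℂ, IsForm G → (∀ h, eval (P h).rep G = 0) → G ∈ p) :
    ¬ LogGeneralType ℂ K w (OffQ Q d y) :=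
  dense_log hyp ghyp fhyp Pool.Agent.Y988.IL.t_LOGP Pool.Agent.Y814.IL.t_PF
    Pool.Agent.Y405.IL.t_LGT hd hQ hy hw hX hP hV hden

end Pool.Agent.Y377.IR
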