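import Pool.Agent.Y377.IR.Basic
import Pool.Agent.Y377.IL.All

/-!
The induction over towers of fundamental matrices, group version.
-/

set_option autoImplicit false

namespace Pool.Agent.Y377.IR

open Pool.Agent.Y377.EL Pool.Agent.Y377.IL

variable {K : Type} [Field K] [Algebra ℂ K] {Γ : Subgroup (K ≃ₐ[ℂ] K)}

/-- towers of fundamental matrices over the constants -/
inductive GTow (Γ : Subgroup (K ≃ₐ[ℂ] K)) : Subalgebra ℂ K → Prop
  | base : GTow Γ ⊥
  | step {R : Subalgebra ℂ K} {n : ℕ} {X Y : Matrix (Fin n) (Fin n) K} :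
      GTow Γ R → FundG Γ R X Y → GSimple Γ (mat R X Y) → GTow Γ (mat R X Y)

/-- the inverse matrices -/
theorem FundG.left {R : Subalgebra ℂ K} {n : ℕ} {X Y : Matrix (Fin n) (Fin n) K}
    (h : FundG Γ R X Y) : Y * X = 1 := mul_eq_one_comm.1 h.inv

theorem FundG.eqX {R : Subalgebra ℂ K} {n : ℕ} {X Y : Matrix (Fin n) (Fin n) K}
    (h : FundG Γ R X Y) {γ : K ≃ₐ[ℂ] K} (hγ : γ ∈ Γ) :
    ∃ M : Matrix (Fin n) (Fin n) K, (∀ i j, M i j ∈ R) ∧ X.map γ = M * X := by
  refine ⟨X.map γ * Y, fun i j => ?_, ?_⟩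
  · rw [Matrix.mul_apply]
    exact h.coc γ hγ i j
  · rw [Matrix.mul_assoc, h.left, Matrix.mul_one]

theorem map_one' {n : ℕ} (γ : K ≃ₐ[ℂ] K) : (1 : Matrix (Fin n) (Fin n) K).map γ = 1 :=
  Matrix.map_one _ (map_zero γ) (map_one γ)

theorem map_mul' {n : ℕ} (γ : K ≃ₐ[ℂ] K) (A B : Matrix (Fin n) (Fin n) K) :
    (A * B).map γ = A.map γ * B.map γ := by
  ext i j
  simp only [Matrix.map_apply, Matrix.mul_apply, map_sum, map_mul]

theorem FundG.eqY {R : Subalgebra ℂ K} (hR : StabG Γ R) {n : ℕ}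
    {X Y : Matrix (Fin n) (Fin n) K} (h : FundG Γ R X Y) {γ : K ≃ₐ[ℂ] K} (hγ : γ ∈ Γ) :
    ∃ M : Matrix (Fin n) (Fin n) K, (∀ i j, M i j ∈ R) ∧ Y.map γ = Y * M := by
  obtain ⟨M, hM, hX⟩ := h.eqX (Γ.inv_mem hγ)
  refine ⟨M.map γ, fun i j => hR γ hγ _ (hM i j), ?_⟩
  have h1 : X = M.map γ * X.map γ := by
    rw [← map_mul', ← hX]
    ext i j
    simp only [Matrix.map_apply]
    exact (γ.apply_symm_apply (X i j)).symm
  have h2 : X.map γ * Y.map γ = 1 := by
    rw [← map_mul', h.inv, map_one']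
  calc Y.map γ = (Y * X) * Y.map γ := by rw [h.left, Matrix.one_mul]
    _ = Y * (M.map γ * X.map γ) * Y.map γ := by rw [← h1]
    _ = Y * M.map γ * (X.map γ * Y.map γ) := by simp only [Matrix.mul_assoc]
    _ = Y * M.map γ := by rw [h2, Matrix.mul_one]

theorem mat_mem_mul {R : Subalgebra ℂ K} {n : ℕ} {X Y A B : Matrix (Fin n) (Fin n) K}
    (hA : ∀ i j, A i j ∈ mat R X Y) (hB : ∀ i j, B i j ∈ mat R X Y) (i j : Fin n) :
    (A * B) i j ∈ mat R X Y := by
  rw [Matrix.mul_apply]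
  exact Subalgebra.sum_mem _ fun k _ => Subalgebra.mul_mem _ (hA i k) (hB k j)

theorem stabG_mat {R : Subalgebra ℂ K} (hR : StabG Γ R) {n : ℕ}
    {X Y : Matrix (Fin n) (Fin n) K} (h : FundG Γ R X Y) : StabG Γ (mat R X Y) := by
  intro γ hγ x hx
  have h1 : mat R X Y ≤ (mat R X Y).comap (γ : K →ₐ[ℂ] K) := by
    refine sup_le (fun r hr => le_mat R X Y (hR γ hγ r hr)) (Algebra.adjoin_le ?_)
    rintro y ⟨i, j, rfl | rfl⟩
    · obtain ⟨M, hM, hX⟩ := h.eqX hγ
      have h2 : γ (X i j) = (M * X) i j := by rw [← hX, Matrix.map_apply]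
      change γ (X i j) ∈ mat R X Y
      rw [h2]
      exact mat_mem_mul (fun i j => le_mat R X Y (hM i j)) (mem_mat_left R X Y) i j
    · obtain ⟨M, hM, hY⟩ := h.eqY hR hγ
      have h2 : γ (Y i j) = (Y * M) i j := by rw [← hY, Matrix.map_apply]
      change γ (Y i j) ∈ mat R X Y
      rw [h2]
      exact mat_mem_mul (mem_mat_right R X Y) (fun i j => le_mat R X Y (hM i j)) i j
  exact h1 hx

/-- the data without derivation -/
theorem FundG.toFund {R : Subalgebra ℂ K} {n : ℕ} {X Y : Matrix (Fin n) (Fin n) K}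
    (h : FundG Γ R X Y) : Fund (0 : Derivation ℂ K K) R X Y 0 where
  inv := h.inv
  mem := fun i j => by
    rw [Matrix.zero_apply]
    exact R.zero_mem
  eq := fun i j => by
    simp only [Derivation.coe_zero, Pi.zero_apply, Matrix.zero_apply, zero_mul,
      Finset.sum_const_zero]

theorem noeth_mat (hNOE : S_NOE) {R : Subalgebra ℂ K} {n : ℕ}
    {X Y : Matrix (Fin n) (Fin n) K} (h : FundG Γ R X Y) (hn : IsNoetherianRing R) :
    IsNoetherianRing (mat R X Y) := (hNOE K 0 R n X Y 0 h.toFund).1 hn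

/-- the derivations commute with the group -/
theorem comm_mat (hNOE : S_NOE) {R : Subalgebra ℂ K} (hR : StabG Γ R) {n : ℕ}
    {X Y : Matrix (Fin n) (Fin n) K} (h : FundG Γ R X Y) {δ : Derivation ℂ K K}
    (hδ : ∀ r ∈ R, δ r = 0) {ξ : Matrix (Fin n) (Fin n) ℂ}
    (hξ : ∀ i j, δ (X i j) = ∑ k, X i k * algebraMap ℂ K (ξ k j)) :
    ∀ γ ∈ Γ, ∀ b ∈ mat R X Y, γ (δ b) = δ (γ b) := by
  intro γ hγ
  obtain ⟨-, -, -, h4⟩ := hNOE K 0 R n X Y 0 h.toFund
  obtain ⟨hY, -, -⟩ := h4 δ hδ ξ hξ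
  let S : Subalgebra ℂ K :=
    { carrier := {b | γ (δ b) = δ (γ b)}
      mul_mem' := by
        intro a b ha hb
        change γ (δ (a * b)) = δ (γ (a * b))
        have ha' : γ (δ a) = δ (γ a) := ha
        have hb' : γ (δ b) = δ (γ b) := hb
        rw [δ.leibniz, map_add, smul_eq_mul, smul_eq_mul, map_mul, map_mul, map_mul, δ.leibniz,
          smul_eq_mul, smul_eq_mul, ha', hb']
      add_mem' := by
        intro a b ha hb
        change γ (δ (a + b)) = δ (γ (a + b))
        have ha' : γ (δ a) = δ (γ a) := ha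
        have hb' : γ (δ b) = δ (γ b) := hb
        rw [map_add, map_add, map_add, map_add, ha', hb']
      algebraMap_mem' := by
        intro c
        change γ (δ (algebraMap ℂ K c)) = δ (γ (algebraMap ℂ K c))
        rw [γ.commutes, δ.map_algebraMap, map_zero] }
  have h5 : mat R X Y ≤ S := by
    refine sup_le (fun r hr => ?_) (Algebra.adjoin_le ?_)
    · change γ (δ r) = δ (γ r)
      rw [hδ r hr, map_zero, hδ _ (hR γ hγ r hr)]
    · rintro y ⟨i, j, rfl | rfl⟩
      · obtain ⟨M, hM, hX⟩ := h.eqX hγ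
        have hX' : ∀ i j, γ (X i j) = ∑ k, M i k * X k j := by
          intro i j
          have h6 : γ (X i j) = (X.map γ) i j := rfl
          rw [h6, hX, Matrix.mul_apply]
        have e1 : ∀ l, δ (M i l * X l j) = ∑ k, M i l * (X l k * algebraMap ℂ K (ξ k j)) := by
          intro l
          rw [δ.leibniz, hδ _ (hM i l), hξ, smul_zero, add_zero, smul_eq_mul, Finset.mul_sum]
        change γ (δ (X i j)) = δ (γ (X i j))
        rw [hξ, map_sum, hX', map_sum]
        simp only [map_mul, AlgEquiv.commutes, hX', e1, Finset.sum_mul]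
        rw [Finset.sum_comm]
        refine Finset.sum_congr rfl fun k _ => Finset.sum_congr rfl fun l _ => ?_
        ring
      · obtain ⟨M, hM, hYm⟩ := h.eqY hR hγ
        have hY' : ∀ i j, γ (Y i j) = ∑ k, Y i k * M k j := by
          intro i j
          have h6 : γ (Y i j) = (Y.map γ) i j := rfl
          rw [h6, hYm, Matrix.mul_apply]
        have e1 : ∀ k, δ (Y i k * M k j) = -∑ l, algebraMap ℂ K (ξ i l) * (Y l k * M k j) := by
          intro k
          rw [δ.leibniz, hδ _ (hM k j), hY, smul_zero, zero_add, smul_eq_mul, mul_neg,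
            Finset.mul_sum]
          congr 1
          refine Finset.sum_congr rfl fun l _ => ?_
          ring
        change γ (δ (Y i j)) = δ (γ (Y i j))
        rw [hY, map_neg, map_sum, hY', map_sum]
        simp only [map_mul, AlgEquiv.commutes, hY', e1, Finset.mul_sum, Finset.sum_neg_distrib]
        rw [Finset.sum_comm]
  exact fun b hb => h5 hb

theorem GTow.good (hNOE : S_NOE) {R : Subalgebra ℂ K} (h : GTow Γ R) :
    StabG Γ R ∧ GSimple Γ R ∧ IsNoetherianRing R := by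
  induction h with
  | base => exact ⟨stabG_bot, gSimple_bot, noeth_bot⟩
  | @step R n X Y _ hF hs ih => exact ⟨stabG_mat ih.1 hF, hs, noeth_mat hNOE hF ih.2.2⟩

/-- the statements of the group version -/
structure GHyp : Prop where
  fa : G_FA
  fb : G_FB
  fr : G_FR
  der : G_DER
  sp : G_SP
  com : G_COM

/-- **The induction over the tower.** -/
theorem GTow.main (H : Hyp) (G : GHyp) (hK : (⊤ : IntermediateField ℂ K).FG)
    (hC : CstG Γ) {R : Subalgebra ℂ K} (h : GTow Γ R) :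
    ∀ S : Subalgebra ℂ K, R ≤ S → StabG Γ S → FGmod R S →
      ∀ t : Finset K, (∀ x ∈ t, x ∈ frac S) → (∃ x ∈ t, ¬ IsAlgebraic (⊥ : Subalgebra ℂ K) x) →
        RatFam S t := by
  classical
  induction h with
  | base =>
    intro S hRS hS hfg t ht ⟨x, hx, hxc⟩
    exact absurd (frac_alg (fun y hy => (fgmod_alg hRS hfg hy).isAlgebraic) (ht x hx)) hxc
  | @step R n X Y hR hF hs ih =>
    intro S hRS hS hfg t ht hne
    obtain ⟨hRst, hRsim, hRnoe⟩ := hR.good H.noe
    obtain ⟨hRst', hRsim', hRnoe'⟩ := (GTow.step hR hF hs).good H.noe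
    have hSint : ∀ x ∈ S, IsIntegral (mat R X Y) x := fun x hx => fgmod_alg hRS hfg hx
    have hSsim : GSimple Γ S := hRsim'.alg hRS hRst' fun x hx => (hSint x hx).isAlgebraic
    by_cases hall : ∀ x ∈ t, IsAlgebraic R x
    · -- everything is algebraic over the previous ring
      have hle : R ≤ S ⊓ algC R := le_inf ((le_mat R X Y).trans hRS) fun x hx => alg_of_mem hx
      have hst : StabG Γ (S ⊓ algC R) := by
        intro γ hγ x hx
        refine ⟨hS γ hγ x hx.1, ?_⟩
        obtain ⟨P, hP0, hP⟩ := (hx.2 : IsAlgebraic R x)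
        -- apply the automorphism to the equation
        have hγR : ∀ r : R, γ (r : K) ∈ R := fun r => hRst γ hγ r r.2
        let φ : R →+* R :=
          { toFun := fun r => ⟨γ (r : K), hγR r⟩
            map_one' := Subtype.ext (map_one γ)
            map_mul' := fun a b => Subtype.ext (map_mul γ (a : K) b)
            map_zero' := Subtype.ext (map_zero γ)
            map_add' := fun a b => Subtype.ext (map_add γ (a : K) b) }
        have hφ : Function.Injective φ := fun a b hab =>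
          Subtype.ext (γ.injective (congrArg Subtype.val hab))
        refine ⟨P.map φ, (Polynomial.map_ne_zero_iff hφ).2 hP0, ?_⟩
        rw [Polynomial.aeval_def, Polynomial.eval₂_map]
        have h6 : (algebraMap R K).comp φ = (γ : K →+* K).comp (algebraMap R K) := by
          ext r
          rfl
        rw [h6]
        refine (Polynomial.hom_eval₂ P (algebraMap R K) (γ : K →+* K) x).symm.trans ?_
        rw [← Polynomial.aeval_def, hP]
        exact map_zero _
      have hfg1 : FGmod R (S ⊓ algC R) :=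
        G.fb K Γ R (mat R X Y) S (le_mat R X Y) hRS hRst hRst' hS hRsim' hRnoe
          (G.fa K Γ R hRst hRsim hRnoe n X Y hF) hfg
      have ht1 : ∀ x ∈ t, x ∈ frac (S ⊓ algC R) := by
        intro x hx
        obtain ⟨r, hr, hr0, hrx⟩ := G.fr K hK Γ R S ((le_mat R X Y).trans hRS) hRst hS hSsim x
          (ht x hx) (hall x hx)
        exact ⟨r, hle hr, hr0, hrx, (alg_of_mem hr).mul (hall x hx)⟩
      obtain ⟨S0, M0, i1, i2, φ, h1, h2, h3, h4, h5⟩ := ih _ hle hst hfg1 t ht1 hne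
      exact ⟨S0, M0, i1, i2, φ, h1.trans inf_le_left, h2, fun x hx hxS =>
        h3 x hx ⟨hxS, hall x hx⟩, h4, h5⟩
    · push Not at hall
      obtain ⟨x, hx, hxt⟩ := hall
      have hxa : IsAlgebraic (mat R X Y) x :=
        frac_alg (fun y hy => (hSint y hy).isAlgebraic) (ht x hx)
      obtain ⟨δ, ξ, hδ1, hδ2, hδ3⟩ := G.der K Γ hC R hRst n X Y hF x hxa hxt
      obtain ⟨-, -, -, hN4⟩ := H.noe K 0 R n X Y 0 hF.toFund
      obtain ⟨hY, hst, -⟩ := hN4 δ hδ1 ξ hδ3
      have hge := H.ge K δ R n X Y ξ hδ1 hδ3 hY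
      obtain ⟨δ', hst', hcom', hx', hor⟩ := G.sp K Γ δ (mat R X Y) hRst' hst
        (comm_mat H.noe hRst hF hδ1 hδ3) hge x hxa hδ2
      obtain ⟨hstS, -⟩ := G.com K Γ δ' (mat R X Y) S hRS hRst' hS hSsim hfg hst' hcom'
      rcases hor with hnil | hss
      · obtain ⟨M0, i1, i2, φ, h1, h2⟩ := H.cn K δ' S
          (H.apn K δ' (mat R X Y) S hRS hfg hst' hstS hnil)
        refine ⟨S, M0, i1, i2, φ, le_rfl, ht, fun y _ hy => hy, ⟨⟨x, ht x hx⟩, hx, fun c hc =>
          hx' (h1 ⟨x, ht x hx⟩ c hc)⟩, fun y hy => ?_⟩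
        obtain ⟨p, hp⟩ := h2 y hy
        exact ⟨p, 0, by rw [pow_zero, mul_one, hp]⟩
      · obtain ⟨S0, M0, i1, i2, φ, h1, h2, h3, h4, h5⟩ := H.ce K δ' S
          (H.ape K δ' (mat R X Y) S hRS hfg hst' hstS hss) t ht
        exact ⟨S0, M0, i1, i2, φ, h1, h2, h3, ⟨⟨x, h2 x hx⟩, hx, fun c hc =>
          hx' (h4 ⟨x, h2 x hx⟩ c hc)⟩, h5⟩

end Pool.Agent.Y377.IR
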