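import Pool.Agent.Y377.IR.Stm

/-!
Rings without proper nonzero ideals which are invariant under a group of automorphisms.
-/

set_option autoImplicit false

namespace Pool.Agent.Y377.IR

open Pool.Agent.Y377.EL Pool.Agent.Y377.IL

variable {K : Type} [Field K] [Algebra ℂ K] {Γ : Subgroup (K ≃ₐ[ℂ] K)}

/-- the inverse automorphisms -/
theorem StabG.symm {R : Subalgebra ℂ K} (h : StabG Γ R) {γ : K ≃ₐ[ℂ] K} (hγ : γ ∈ Γ) {x : K}
    (hx : x ∈ R) : γ.symm x ∈ R := h _ (Γ.inv_mem hγ) x hx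

theorem apply_symm (γ : K ≃ₐ[ℂ] K) (x : K) : γ (γ.symm x) = x := γ.apply_symm_apply x

theorem stabG_frac {R : Subalgebra ℂ K} (h : StabG Γ R) {γ : K ≃ₐ[ℂ] K} (hγ : γ ∈ Γ) {x : K}
    (hx : x ∈ frac R) : γ x ∈ frac R := by
  obtain ⟨r, hr, hr0, hx⟩ := hx
  refine ⟨γ r, h γ hγ r hr, fun h0 => hr0 ((map_eq_zero_iff γ γ.injective).1 h0), ?_⟩
  rw [← map_mul]
  exact h γ hγ _ hx

theorem stabG_loc {R S : Subalgebra ℂ K} (hRS : R ≤ S) (hR : StabG Γ R)
    (hS : StabG Γ S) : StabG Γ (loc R S hRS) := by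
  rintro γ hγ x ⟨r, hr, hr0, hx⟩
  refine ⟨γ r, hR γ hγ r hr, fun h0 => hr0 ((map_eq_zero_iff γ γ.injective).1 h0), ?_⟩
  rw [← map_mul]
  exact hS γ hγ _ hx

/-- **finitely generated invariant modules over a simple ring** -/
theorem GSimple.le {R : Subalgebra ℂ K} (h : GSimple Γ R)
    {N N' : Submodule R K} (hN : ∀ γ ∈ Γ, ∀ x ∈ N, γ x ∈ N)
    (hN' : ∀ γ ∈ Γ, ∀ x ∈ N', γ x ∈ N') (hfg : N.FG)
    (ht : ∀ x ∈ N, ∃ r ∈ R, r ≠ 0 ∧ r * x ∈ N') (hR : StabG Γ R) : N ≤ N' := by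
  classical
  let I : Submodule R K :=
    { carrier := {r | r ∈ R ∧ ∀ x ∈ N, r * x ∈ N'}
      add_mem' := by
        rintro a b ⟨ha, ha'⟩ ⟨hb, hb'⟩
        refine ⟨R.add_mem ha hb, fun x hx => ?_⟩
        rw [add_mul]
        exact N'.add_mem (ha' x hx) (hb' x hx)
      zero_mem' := ⟨R.zero_mem, fun x _ => by
        rw [zero_mul]
        exact N'.zero_mem⟩
      smul_mem' := by
        rintro c a ⟨ha, ha'⟩
        refine ⟨R.mul_mem c.2 ha, fun x hx => ?_⟩
        have h1 := N'.smul_mem c (ha' x hx)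
        rw [Algebra.smul_def] at h1 ⊢
        rw [mul_assoc]
        exact h1 }
  have h1 : (1 : K) ∈ I := by
    apply h I (fun x hx => hx.1)
    · rintro γ hγ r ⟨hr, hr'⟩
      refine ⟨hR γ hγ r hr, fun x hx => ?_⟩
      have h2 : γ r * x = γ (r * γ.symm x) := by
        rw [map_mul, γ.apply_symm_apply]
      rw [h2]
      exact hN' γ hγ _ (hr' _ (hN _ (Γ.inv_mem hγ) x hx))
    · obtain ⟨T, hT⟩ := hfg
      have h2 : ∀ x ∈ T, ∃ r ∈ R, r ≠ 0 ∧ r * x ∈ N' := fun x hx =>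
        ht x (hT ▸ Submodule.subset_span hx)
      choose! ρ hρ1 hρ2 hρ3 using h2
      refine ⟨∏ x ∈ T, ρ x, ⟨R.prod_mem hρ1, ?_⟩, Finset.prod_ne_zero_iff.2 hρ2⟩
      intro x hx
      rw [← hT] at hx
      refine Submodule.span_induction (p := fun x _ => (∏ x ∈ T, ρ x) * x ∈ N') ?_ ?_ ?_ ?_ hx
      · intro y hy
        rw [← Finset.prod_erase_mul T ρ hy, mul_assoc]
        have h3 : ∏ x ∈ T.erase y, ρ x ∈ R :=
          R.prod_mem fun z hz => hρ1 z (Finset.mem_of_mem_erase hz)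
        have h4 := N'.smul_mem (⟨_, h3⟩ : R) (hρ3 y hy)
        rw [Algebra.smul_def] at h4
        exact h4
      · rw [mul_zero]
        exact N'.zero_mem
      · intro y z _ _ hy hz
        rw [mul_add]
        exact N'.add_mem hy hz
      · intro c y _ hy
        have h3 := N'.smul_mem c hy
        rw [Algebra.smul_def] at h3 ⊢
        rw [mul_left_comm]
        exact h3
  intro x hx
  have h2 := h1.2 x hx
  rwa [one_mul] at h2

/-- localizations of simple rings -/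
theorem GSimple.loc {R S : Subalgebra ℂ K} (hRS : R ≤ S)
    (h : GSimple Γ S) (hst : StabG Γ S) : GSimple Γ (loc R S hRS) := by
  intro I hI hD ⟨x, hx, hx0⟩
  let J : Submodule S K :=
    { carrier := {y | y ∈ S ∧ y ∈ I}
      add_mem' := fun ha hb => ⟨S.add_mem ha.1 hb.1, I.add_mem ha.2 hb.2⟩
      zero_mem' := ⟨S.zero_mem, I.zero_mem⟩
      smul_mem' := by
        rintro c a ⟨ha, ha'⟩
        refine ⟨S.mul_mem c.2 ha, ?_⟩
        exact I.smul_mem (⟨c, le_loc hRS c.2⟩ : IL.loc R S hRS) ha' }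
  obtain ⟨r, hr, hr0, hrx⟩ := hI x hx
  exact (h J (fun y hy => hy.1) (fun γ hγ y hy => ⟨hst γ hγ y hy.1, hD γ hγ y hy.2⟩)
    ⟨r * x, ⟨hrx, I.smul_mem (⟨r, le_loc hRS (hRS hr)⟩ : IL.loc R S hRS) hx⟩,
      mul_ne_zero hr0 hx0⟩).2

/-- algebraic extensions of simple rings -/
theorem GSimple.alg {R S : Subalgebra ℂ K} (hRS : R ≤ S)
    (h : GSimple Γ R) (hR : StabG Γ R) (hS : ∀ x ∈ S, IsAlgebraic R x) : GSimple Γ S := by
  intro I hI hD ⟨x, hx, hx0⟩
  obtain ⟨c, hc, hc0, P, hP⟩ := exists_base (hS x (hI x hx)) hx0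
  let J : Submodule R K :=
    { carrier := {y | y ∈ R ∧ y ∈ I}
      add_mem' := fun ha hb => ⟨R.add_mem ha.1 hb.1, I.add_mem ha.2 hb.2⟩
      zero_mem' := ⟨R.zero_mem, I.zero_mem⟩
      smul_mem' := by
        rintro c a ⟨ha, ha'⟩
        refine ⟨R.mul_mem c.2 ha, ?_⟩
        exact I.smul_mem (⟨c, hRS c.2⟩ : S) ha' }
  refine (h J (fun y hy => hy.1) (fun γ hγ y hy => ⟨hR γ hγ y hy.1, hD γ hγ y hy.2⟩)
    ⟨c, ⟨hc, ?_⟩, hc0⟩).2
  have h1 : Polynomial.aeval x P ∈ S := by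
    rw [Polynomial.aeval_eq_sum_range]
    refine S.sum_mem fun i _ => ?_
    rw [Algebra.smul_def]
    exact S.mul_mem (hRS (P.coeff i).2) (S.pow_mem (hI x hx) i)
  rw [hP, mul_comm]
  exact I.smul_mem (⟨_, h1⟩ : S) hx

theorem gSimple_bot : GSimple Γ (⊥ : Subalgebra ℂ K) := by
  intro I hI _ ⟨x, hx, hx0⟩
  obtain ⟨c, hc⟩ := Algebra.mem_bot.1 (hI x hx)
  have hinv : x⁻¹ ∈ (⊥ : Subalgebra ℂ K) := by
    rw [← hc, ← map_inv₀]
    exact Subalgebra.algebraMap_mem _ _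
  have h1 := I.smul_mem (⟨x⁻¹, hinv⟩ : (⊥ : Subalgebra ℂ K)) hx
  rw [Algebra.smul_def] at h1
  have h2 : x⁻¹ * x ∈ I := h1
  rwa [inv_mul_cancel₀ hx0] at h2

theorem stabG_bot : StabG Γ (⊥ : Subalgebra ℂ K) := by
  intro γ _ x hx
  obtain ⟨c, rfl⟩ := Algebra.mem_bot.1 hx
  rw [γ.commutes]
  exact Subalgebra.algebraMap_mem _ _

/-- **Elements of the fraction field with a finitely generated invariant module.** -/
theorem GSimple.mem_of_fg {R : Subalgebra ℂ K} (h : GSimple Γ R)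
    (hR : StabG Γ R) {N : Submodule R K} (hN : ∀ γ ∈ Γ, ∀ x ∈ N, γ x ∈ N) (hfg : N.FG)
    (ht : ∀ x ∈ N, x ∈ frac R) {x : K} (hx : x ∈ N) : x ∈ R := by
  let N' : Submodule R K :=
    { carrier := {y | y ∈ R}
      add_mem' := fun ha hb => R.add_mem ha hb
      zero_mem' := R.zero_mem
      smul_mem' := fun c a ha => R.mul_mem c.2 ha }
  exact h.le (N' := N') hN (fun γ hγ y hy => hR γ hγ y hy) hfg (fun y hy => ht y hy) hR hx

/-- subspaces stable under the group are spanned by constant vectors -/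
theorem descentG (hC : CstG Γ)
    {ι : Type} (V : Submodule K (ι → K)) (hfin : ∀ f ∈ V, (Function.support f).Finite)
    (hV : ∀ γ ∈ Γ, ∀ f ∈ V, (fun i => γ (f i)) ∈ V) (f : ι → K) (hf : f ∈ V) :
    f ∈ Submodule.span K {g | g ∈ V ∧ ∀ i, ∃ c : ℂ, g i = algebraMap ℂ K c} := by
  set V0 := Submodule.span K {g | g ∈ V ∧ ∀ i, ∃ c : ℂ, g i = algebraMap ℂ K c} with hV0
  suffices h : ∀ n : ℕ, ∀ f ∈ V, (Function.support f).ncard = n → f ∈ V0 from h _ f hf rfl
  intro n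
  induction n using Nat.strong_induction_on with
  | _ n ih =>
    intro f hf hn
    by_cases hf0 : f = 0
    · rw [hf0]
      exact V0.zero_mem
    obtain ⟨i, hi⟩ := Function.ne_iff.1 hf0
    have hi0 : f i ≠ 0 := hi
    have hlt : ∀ (g : ι → K), g ∈ V → Function.support g ⊆ Function.support f →
        (∃ j, f j ≠ 0 ∧ g j = 0) → g ∈ V0 := by
      rintro g hg hgs ⟨j, hj1, hj2⟩
      apply ih (Function.support g).ncard _ g hg rfl
      rw [← hn]
      apply Set.ncard_lt_ncard _ (hfin f hf)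
      refine ⟨hgs, fun h => ?_⟩
      exact (h (show j ∈ Function.support f from hj1)) hj2
    set f1 : ι → K := (f i)⁻¹ • f with hf1
    have hf1V : f1 ∈ V := V.smul_mem _ hf
    have hf1i : f1 i = 1 := by
      rw [hf1, Pi.smul_apply, smul_eq_mul, inv_mul_cancel₀ hi0]
    have hback : f1 ∈ V0 → f ∈ V0 := by
      intro h
      have h1 := V0.smul_mem (f i) h
      rwa [hf1, smul_smul, mul_inv_cancel₀ hi0, one_smul] at h1
    have hsup1 : ∀ j, f j = 0 → f1 j = 0 := by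
      intro j hj
      rw [hf1, Pi.smul_apply, hj, smul_zero]
    have hg : ∀ γ ∈ Γ, (fun j => γ (f1 j) - f1 j) ∈ V0 := by
      intro γ hγ
      apply hlt _ (V.sub_mem (hV γ hγ _ hf1V) hf1V)
      · intro j hj hj0
        apply hj
        change γ (f1 j) - f1 j = 0
        rw [hsup1 j hj0, map_zero, sub_zero]
      · exact ⟨i, hi0, by
          change γ (f1 i) - f1 i = 0
          rw [hf1i, map_one, sub_self]⟩
    by_cases hall : ∀ γ ∈ Γ, ∀ j, γ (f1 j) = f1 j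
    · exact hback (Submodule.subset_span ⟨hf1V, fun j => hC _ fun γ hγ => hall γ hγ j⟩)
    push Not at hall
    obtain ⟨γ, hγ, j, hj⟩ := hall
    have hj0 : f1 j ≠ 0 := by
      intro h
      apply hj
      rw [h, map_zero]
    have hfj : f j ≠ 0 := fun h => hj0 (hsup1 j h)
    set c : K := (f1 j)⁻¹ with hc
    have hDc : γ c - c ≠ 0 := by
      intro h0
      apply hj
      rw [sub_eq_zero, hc, map_inv₀, inv_inj] at h0
      exact h0
    set f2 : ι → K := c • f1 with hf2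
    have hf2V : f2 ∈ V := V.smul_mem _ hf1V
    have hg2 : (fun l => γ (f2 l) - f2 l) ∈ V0 := by
      apply hlt _ (V.sub_mem (hV γ hγ _ hf2V) hf2V)
      · intro l hl hl0
        apply hl
        change γ (f2 l) - f2 l = 0
        rw [hf2, Pi.smul_apply, hsup1 l hl0, smul_zero, map_zero, sub_zero]
      · exact ⟨j, hfj, by
          change γ (f2 j) - f2 j = 0
          rw [hf2, Pi.smul_apply, smul_eq_mul, hc, inv_mul_cancel₀ hj0, map_one, sub_self]⟩
    have h3 : (γ c - c) • f1 = (fun l => γ (f2 l) - f2 l) - γ c • (fun l => γ (f1 l) - f1 l) := by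
      funext l
      simp only [hf2, Pi.smul_apply, Pi.sub_apply, smul_eq_mul, map_mul]
      ring
    have h4 : (γ c - c) • f1 ∈ V0 := by
      rw [h3]
      exact V0.sub_mem hg2 (V0.smul_mem _ (hg γ hγ))
    have h5 := V0.smul_mem (γ c - c)⁻¹ h4
    rw [smul_smul, inv_mul_cancel₀ hDc, one_smul] at h5
    exact hback h5

end Pool.Agent.Y377.IR
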