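import Pool.Agent.Y377.IR.Log

/-!
Points given by iterated recurrences: the theorems.
-/

set_option autoImplicit false

namespace Pool.Agent.Y377.IR

open Set MvPolynomial Pool.Agent.Y377.EL Pool.Agent.Y377.IL
open scoped LinearAlgebra.Projectivization
open Pool.Agent.TH143.GT (Covered FunField Pluricanonical)
open Pool.Agent.W602.GT (IsForm coords GeneralType LogGeneralType)
open Pool.Agent.W603.GR (OffQ)
open Pool.Agent.TH143.EL (Rep InV inV_iff rep_rep rep_smul rep_eq)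

variable {N : ℕ}

/-- the Zariski closure of a set of points of the projective space -/
def ZClosure (S : Set (ℙ ℂ (Fin (N + 1) → ℂ))) : Set (ℙ ℂ (Fin (N + 1) → ℂ)) :=
  {p | ∀ G : MvPolynomial (Fin (N + 1)) ℂ, (∃ d, G.IsHomogeneous d) →
    (∀ x ∈ S, eval x.rep G = 0) → eval p.rep G = 0}

/-- polynomial parametrisations of nonconstant rational curves in the algebraic set of `I` -/
def RationalCurve (I : Ideal (MvPolynomial (Fin (N + 1)) ℂ)) (p : Fin (N + 1) → Polynomial ℂ) :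
    Prop :=
  (∀ t y, Rep y (fun j => (p j).eval t) → InV I y) ∧
    ∃ j k u v, (p j).eval u * (p k).eval v ≠ (p k).eval u * (p j).eval v

/-- the points of the rational curves -/
def RationalPoints (I : Ideal (MvPolynomial (Fin (N + 1)) ℂ)) : Set (ℙ ℂ (Fin (N + 1) → ℂ)) :=
  {x | ∃ p : Fin (N + 1) → Polynomial ℂ, RationalCurve I p ∧ ∃ t, Rep x fun j => (p j).eval t}

/-- the points of the images of the punctured line -/
def GmPoints (I : Ideal (MvPolynomial (Fin (N + 1)) ℂ)) (Q : MvPolynomial (Fin (N + 1)) ℂ) :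
    Set (ℙ ℂ (Fin (N + 1) → ℂ)) :=
  {x | ∃ p : Fin (N + 1) → Polynomial ℂ, GmCurve I Q p ∧
    ∃ t, t ≠ 0 ∧ Rep x fun j => (p j).eval t}

theorem zclosure_empty : ZClosure (∅ : Set (ℙ ℂ (Fin (N + 1) → ℂ))) = ∅ := by
  ext x
  simp only [mem_empty_iff_false, iff_false]
  intro h
  have h1 := h 1 ⟨0, isHomogeneous_one _ _⟩ (fun x hx => absurd hx (notMem_empty x))
  rw [map_one] at h1
  exact one_ne_zero h1

theorem eval_cur (p : Fin (N + 1) → Polynomial ℂ) (G : MvPolynomial (Fin (N + 1)) ℂ) (u : ℂ) :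
    (aeval p G : Polynomial ℂ).eval u = eval (fun j => (p j).eval u) G := by
  have e1 := MvPolynomial.comp_aeval_apply (f := p) (Polynomial.aeval u) G
  rw [Polynomial.coe_aeval_eq_eval] at e1
  rw [e1, MvPolynomial.aeval_eq_eval]

theorem vanish_cur {I : Ideal (MvPolynomial (Fin (N + 1)) ℂ)}
    {G' : MvPolynomial (Fin (N + 1)) ℂ} (hG' : ∃ d, G'.IsHomogeneous d)
    (h : ∀ x ∈ RationalPoints I, eval x.rep G' = 0) (p : Fin (N + 1) → Polynomial ℂ)
    (h1 : ∀ G ∈ I, (∃ d, G.IsHomogeneous d) → aeval p G = 0)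
    (h2 : ∃ j k, Polynomial.derivative (p j) * p k ≠ p j * Polynomial.derivative (p k)) :
    aeval p G' = 0 := by
  obtain ⟨j0, k0, u1, v1, hne⟩ := nonconst_of_wr h2
  have hpj : ∃ j, p j ≠ 0 := by
    by_contra h0
    push Not at h0
    rw [h0 j0, h0 k0] at hne
    simp at hne
  obtain ⟨j1, hj1⟩ := hpj
  have hcur : RationalCurve I p := ⟨fun t y hy => (inV_iff hy).2 fun G hG hGh => by
    rw [← eval_cur, h1 G hG hGh, Polynomial.eval_zero], j0, k0, u1, v1, hne⟩
  have h3 : aeval p G' * p j1 = 0 := by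
    apply Polynomial.funext
    intro t
    rw [Polynomial.eval_mul, Polynomial.eval_zero]
    by_cases ht : (p j1).eval t = 0
    · rw [ht, mul_zero]
    · have hv : (fun j => (p j).eval t) ≠ 0 := fun h0 => ht (congrFun h0 j1)
      have hx : Rep (Projectivization.mk ℂ _ hv) fun j => (p j).eval t := ⟨hv, rfl⟩
      have h4 := h _ ⟨p, hcur, t, hx⟩
      rw [form_at hx hG'] at h4
      rw [eval_cur, h4, zero_mul]
  exact (mul_eq_zero.1 h3).resolve_right hj1

section points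

variable {H : Type} [Group H]

/-- The values of the family `P` on the coset `Nn * a` are all equal, or every projective algebraic
set `V(I)` which contains these values contains them in the closure of its rational curves. -/
def CosetAlternative (Nn : Subgroup H) (P : H → ℙ ℂ (Fin (N + 1) → ℂ)) (a : H) : Prop :=
  (∀ g ∈ Nn, P (g * a) = P a) ∨ ∀ I : Ideal (MvPolynomial (Fin (N + 1)) ℂ),
    (∀ g ∈ Nn, InV I (P (g * a))) → ∀ g ∈ Nn, P (g * a) ∈ ZClosure (RationalPoints I)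

/-- **Families of points given by iterated recurrences.** -/
theorem iterated_cosets (Hy : Hyp) (Gy : GHyp) (F : FHyp) (hRC : S_RC)
    {P : H → ℙ ℂ (Fin (N + 1) → ℂ)} (hP : IteratedOn P) :
    ∃ Nn : Subgroup H, Nn.Normal ∧ Nn.FiniteIndex ∧ ∀ a, CosetAlternative Nn P a := by
  obtain ⟨R, f, hR, hf, hPf⟩ := hP
  obtain ⟨Nn, hn, hfi, hres⟩ := exists_res F hR
  refine ⟨Nn, hn, hfi, fun a => ?_⟩
  obtain ⟨K, i1, i2, Γ, ρ, hρ⟩ := hres a
  by_cases hc : ∀ g ∈ Nn, P (g * a) = P a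
  · exact Or.inl hc
  · right
    intro I hI g hg G hG h0
    rcases coset_rat Hy Gy hRC hρ hf hPf hI with h1 | h1
    · exact absurd h1 hc
    · exact h1 G hG (fun p e1 e2 => vanish_cur hG h0 p e1 e2) g hg

/-- values outside a set -/
theorem finite_out {Nn : Subgroup H} (hn : Nn.Normal) (hfi : Nn.FiniteIndex)
    {P : H → ℙ ℂ (Fin (N + 1) → ℂ)} {S : Set (ℙ ℂ (Fin (N + 1) → ℂ))}
    (h : ∀ a, (∀ g ∈ Nn, P (g * a) = P a) ∨ ∀ g ∈ Nn, P (g * a) ∈ S) :
    (Set.range P \ S).Finite := by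
  have hq : Finite (H ⧸ Nn) := inferInstance
  have h1 : Set.range P \ S ⊆ Set.range fun q : H ⧸ Nn => P q.out := by
    rintro x ⟨⟨b, rfl⟩, hx⟩
    refine ⟨(b : H ⧸ Nn), ?_⟩
    have h2 : ((QuotientGroup.mk b : H ⧸ Nn).out)⁻¹ * b ∈ Nn := by
      rw [← QuotientGroup.eq]
      exact QuotientGroup.out_eq' _
    have h3 : b * ((QuotientGroup.mk b : H ⧸ Nn).out)⁻¹ ∈ Nn := hn.mem_comm h2
    have h4 : b = (b * ((QuotientGroup.mk b : H ⧸ Nn).out)⁻¹) *
        (QuotientGroup.mk b : H ⧸ Nn).out := by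
      rw [mul_assoc, inv_mul_cancel, mul_one]
    rcases h (QuotientGroup.mk b : H ⧸ Nn).out with h5 | h5
    · change P (QuotientGroup.mk b : H ⧸ Nn).out = P b
      conv_rhs => rw [h4]
      exact (h5 _ h3).symm
    · exfalso
      apply hx
      rw [h4]
      exact h5 _ h3
  exact (Set.finite_range _).subset h1

/-- some coset is dense -/
theorem dense_coset {Nn : Subgroup H} (hn : Nn.Normal) (hfi : Nn.FiniteIndex)
    {p : Ideal (MvPolynomial (Fin (N + 1)) ℂ)} {Q : MvPolynomial (Fin (N + 1)) ℂ}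
    {K : Type} [Field K] [Algebra ℂ K] {w : ℕ} {y : Fin (N + 1) → K} (hy : FunField p Q K w y)
    {P : H → ℙ ℂ (Fin (N + 1) → ℂ)}
    (hd : ∀ G : MvPolynomial (Fin (N + 1)) ℂ, IsForm G → (∀ h, eval (P h).rep G = 0) → G ∈ p) :
    ∃ a, ∀ G : MvPolynomial (Fin (N + 1)) ℂ, IsForm G →
      (∀ g ∈ Nn, eval (P (g * a)).rep G = 0) → G ∈ p := by
  classical
  by_contra hcon
  push Not at hcon
  choose G hG hG0 hGp using hcon
  have hq : Finite (H ⧸ Nn) := inferInstance
  have : Fintype (H ⧸ Nn) := Fintype.ofFinite _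
  have h1 : IsForm (∏ q : H ⧸ Nn, G q.out) := by
    choose e he using hG
    exact ⟨_, IsHomogeneous.prod Finset.univ (fun q : H ⧸ Nn => G q.out) (fun q => e q.out)
      fun q _ => he q.out⟩
  have h2 : ∀ h, eval (P h).rep (∏ q : H ⧸ Nn, G q.out) = 0 := by
    intro b
    rw [map_prod]
    apply Finset.prod_eq_zero (Finset.mem_univ (QuotientGroup.mk b : H ⧸ Nn))
    have h2 : ((QuotientGroup.mk b : H ⧸ Nn).out)⁻¹ * b ∈ Nn := by
      rw [← QuotientGroup.eq]
      exact QuotientGroup.out_eq' _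
    have h3 : b * ((QuotientGroup.mk b : H ⧸ Nn).out)⁻¹ ∈ Nn := hn.mem_comm h2
    have h4 := hG0 (QuotientGroup.mk b : H ⧸ Nn).out _ h3
    rwa [inv_mul_cancel_right] at h4
  have h3 : W602.GT.val y (∏ q : H ⧸ Nn, G q.out) = 0 := hy.sub.mem _ (hd _ h1 h2)
  unfold W602.GT.val at h3
  rw [map_prod, Finset.prod_eq_zero_iff] at h3
  obtain ⟨q, -, h4⟩ := h3
  exact hGp q.out (hy.mem _ (hG _) h4)

/-- **Images of varieties with dense families of points given by iterated recurrences.** -/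
theorem dense_images (Hy : Hyp) (Gy : GHyp) (F : FHyp)
    {p : Ideal (MvPolynomial (Fin (N + 1)) ℂ)} {Q : MvPolynomial (Fin (N + 1)) ℂ}
    {K : Type} [Field K] [Algebra ℂ K] {w : ℕ} {y : Fin (N + 1) → K} (hy : FunField p Q K w y)
    {P : H → ℙ ℂ (Fin (N + 1) → ℂ)} (hP : IteratedOn P) (hX : ∀ h, InV p (P h))
    (hd : ∀ G : MvPolynomial (Fin (N + 1)) ℂ, IsForm G → (∀ h, eval (P h).rep G = 0) → G ∈ p)
    (E : IntermediateField ℂ K) {v : ℕ} (hv : Algebra.trdeg ℂ E = v) (hv0 : 0 < v) :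
    Covered E ∧ ∀ n : ℕ, 0 < n → ∀ ω : (Fin v → Derivation ℂ E E) → E,
      Pluricanonical v n ω → ω = 0 := by
  obtain ⟨R, f, hR, hf, hPf⟩ := hP
  obtain ⟨Nn, hn, hfi, hres⟩ := exists_res F hR
  obtain ⟨a, ha⟩ := dense_coset hn hfi hy hd
  obtain ⟨K', i1, i2, Γ, ρ, hρ⟩ := hres a
  obtain ⟨l, hl0⟩ := Function.ne_iff.1 (hPf a).1
  have hl0' : f l a ≠ 0 := hl0
  have hl : ρ ⟨f l, hf l⟩ ≠ 0 := by
    intro h0
    have h1 := (hρ.ker _).1 h0 1 Nn.one_mem
    rw [one_mul] at h1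
    exact hl0' h1
  refine abs_images (R := ρ.range) (fun t ht hne => coset_alt Hy Gy hρ t ht hne)
    (x := fun j => ρ ⟨f j, hf j⟩) (fun j => ⟨_, rfl⟩) hl hy (fun G hG => ?_) E hv hv0
  rw [val_res hρ hf]
  have h1 : (∀ g ∈ Nn, eval (fun j => f j (g * a)) G = 0) ↔
      ∀ g ∈ Nn, eval (P (g * a)).rep G = 0 :=
    forall_congr' fun g => forall_congr' fun _ => (form_at (hPf _) hG).symm
  rw [h1]
  constructor
  · intro h0 g _
    exact hX (g * a) G (hy.mem G hG h0) hG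
  · intro h0
    exact hy.sub.mem G (ha G hG h0)

/-- The values of the family `P` on the coset `Nn * a` are all equal, or every algebraic set `V(I)`
which contains these values contains them in the closure of the images of the punctured line in the
complement of `Q = 0` in `V(I)`. -/
def CosetAlternativeOff (Q : MvPolynomial (Fin (N + 1)) ℂ) (Nn : Subgroup H)
    (P : H → ℙ ℂ (Fin (N + 1) → ℂ)) (a : H) : Prop :=
  (∀ g ∈ Nn, P (g * a) = P a) ∨ ∀ I : Ideal (MvPolynomial (Fin (N + 1)) ℂ),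
    (∀ g ∈ Nn, InV I (P (g * a))) → ∀ g ∈ Nn, P (g * a) ∈ ZClosure (GmPoints I Q)

/-- All regular functions `x ^ α / Q` on the complement of the hypersurface `Q = 0`, with `α` of
degree `d`, belong along the family `P` to the ring of a tower. -/
def IteratedOff (Q : MvPolynomial (Fin (N + 1)) ℂ) (d : ℕ) (P : H → ℙ ℂ (Fin (N + 1) → ℂ)) :
    Prop :=
  ∃ R : Subalgebra ℂ (H → ℂ), FTow R ∧
    ∀ α : Fin (N + 1) →₀ ℕ, ∑ j, α j = d → regP Q α P ∈ R

/-- **Families of points of complements of hypersurfaces.** -/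
theorem iterated_cosets_off (Hy : Hyp) (Gy : GHyp) (F : FHyp) (hLOGP : S_LOGP) (hPF : S_PF)
    (hRCQ : S_RCQ) {Q : MvPolynomial (Fin (N + 1)) ℂ} {d : ℕ} (hd : 0 < d)
    (hQ : Q.IsHomogeneous d) {P : H → ℙ ℂ (Fin (N + 1) → ℂ)} (hX : ∀ h, eval (P h).rep Q ≠ 0)
    (hP : IteratedOff Q d P) :
    ∃ Nn : Subgroup H, Nn.Normal ∧ Nn.FiniteIndex ∧ ∀ a, CosetAlternativeOff Q Nn P a := by
  obtain ⟨R, hR, hreg⟩ := hP
  obtain ⟨Nn, hn, hfi, hres⟩ := exists_res F hR
  refine ⟨Nn, hn, hfi, fun a => ?_⟩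
  obtain ⟨K, i1, i2, Γ, ρ, hρ⟩ := hres a
  rcases coset_log Hy Gy hLOGP hPF hd hQ hρ hX hreg with h1 | ⟨M, i1, i2, p, h1, h2, h3⟩
  · exact Or.inl h1
  · right
    intro I hI g hg G hG hGm
    refine (h1 G hG).1 (hRCQ N I Q G (fun q e1 e2 e3 => ?_) M p (fun G' hG' hGh' => ?_) h2 h3) g hg
    · have hq0 : ∀ t, t ≠ 0 → eval (fun j => (q j).eval t) Q ≠ 0 := by
        intro u hu
        obtain ⟨c, k, hc, hck⟩ := e2
        rw [← eval_cur, hck, Polynomial.eval_mul, Polynomial.eval_C, Polynomial.eval_pow,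
          Polynomial.eval_X]
        exact mul_ne_zero hc (pow_ne_zero _ hu)
      apply poly_ne
      intro t ht
      rw [eval_cur]
      have hv : (fun j => (q j).eval t) ≠ 0 :=
        Pool.Agent.TH600.LE.form_zero hQ hd (hq0 t ht)
      have hx : Rep (Projectivization.mk ℂ _ hv) fun j => (q j).eval t := ⟨hv, rfl⟩
      have h4 := hGm _ ⟨q, ⟨hq0, fun u _ G' hG' hGh' => by
        rw [← eval_cur, e1 G' hG' hGh', Polynomial.eval_zero], nonconst_of_wr' e3⟩, t, ht, hx⟩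
      rwa [form_at hx hG] at h4
    · rw [h1 G' hGh']
      exact fun g hg => hI g hg G' hG' hGh'

/-- **Varieties of logarithmic general type.** -/
theorem dense_log (Hy : Hyp) (Gy : GHyp) (F : FHyp) (hLOGP : S_LOGP) (hPF : S_PF)
    (hLGT : S_LGT) {p : Ideal (MvPolynomial (Fin (N + 1)) ℂ)}
    {Q : MvPolynomial (Fin (N + 1)) ℂ} {d : ℕ} (hd : 0 < d) (hQ : Q.IsHomogeneous d)
    {K : Type} [Field K] [Algebra ℂ K] {w : ℕ} {y : Fin (N + 1) → K} (hy : FunField p Q K w y)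
    (hw : 0 < w) {P : H → ℙ ℂ (Fin (N + 1) → ℂ)} (hX : ∀ h, eval (P h).rep Q ≠ 0)
    (hP : IteratedOff Q d P) (hV : ∀ h, InV p (P h))
    (hden : ∀ G : MvPolynomial (Fin (N + 1)) ℂ, IsForm G → (∀ h, eval (P h).rep G = 0) → G ∈ p) :
    ¬ LogGeneralType ℂ K w (OffQ Q d y) := by
  obtain ⟨R, hR, hreg⟩ := hP
  obtain ⟨Nn, hn, hfi, hres⟩ := exists_res F hR
  obtain ⟨a, ha⟩ := dense_coset hn hfi hy hden
  obtain ⟨K', i1, i2, Γ, ρ, hρ⟩ := hres a
  rcases coset_log Hy Gy hLOGP hPF hd hQ hρ hX hreg with h1 | ⟨M, i1, i2, q, h1, h2, h3⟩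
  · -- the variety is a point
    exfalso
    obtain ⟨l, hl0⟩ := Function.ne_iff.1 (P a).rep_nonzero
    have hl0' : (P a).rep l ≠ 0 := hl0
    have h2 : ∀ j, y j = algebraMap ℂ K ((P a).rep j / (P a).rep l) * y l := by
      intro j
      let c : ℂ := (P a).rep j / (P a).rep l
      have h3 : (X j - C c * X l : MvPolynomial (Fin (N + 1)) ℂ) ∈ p := by
        refine ha _ ⟨1, (isHomogeneous_X ℂ j).sub ?_⟩ fun g hg => ?_
        · have h4 := (isHomogeneous_C (Fin (N + 1)) c).mul (isHomogeneous_X ℂ l)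
          rwa [zero_add] at h4
        · rw [h1 g hg, map_sub, map_mul, eval_X, eval_X, eval_C]
          change (P a).rep j - (P a).rep j / (P a).rep l * (P a).rep l = 0
          rw [div_mul_cancel₀ _ hl0', sub_self]
      have h4 := hy.sub.mem _ h3
      unfold W602.GT.val at h4
      rw [map_sub, map_mul, aeval_X, aeval_X, algHom_C] at h4
      exact sub_eq_zero.1 h4
    have h3 : y l ≠ 0 := by
      intro h0
      apply hy.sub.ne
      funext j
      rw [h2 j, h0, mul_zero]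
      rfl
    have h4 : coords ℂ y ≤ ⊥ := by
      unfold coords
      rw [IntermediateField.adjoin_le_iff]
      rintro _ ⟨i, j, hj, rfl⟩
      rw [h2 i, h2 j, mul_div_mul_right _ _ h3, ← map_div₀]
      exact (⊥ : IntermediateField ℂ K).algebraMap_mem _
    rw [hy.sub.gen] at h4
    have h5 : Algebra.IsAlgebraic ℂ K := ⟨fun x => by
      have h6 : x ∈ (⊥ : IntermediateField ℂ K) := h4 IntermediateField.mem_top
      rw [IntermediateField.mem_bot] at h6
      obtain ⟨c, rfl⟩ := h6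
      exact isAlgebraic_algebraMap c⟩
    have h6 : Algebra.trdeg ℂ K = 0 := trdeg_eq_zero
    rw [hy.sub.dim] at h6
    have h7 : w = 0 := by exact_mod_cast h6
    omega
  · refine hLGT N p Q d K w y hQ hy M q (fun G hG => ?_) h2 h3
    rw [h1 G hG]
    constructor
    · intro h0 g _
      exact hV (g * a) G (hy.mem G hG h0) hG
    · intro h0
      exact hy.sub.mem G (ha G hG h0)

end points

end Pool.Agent.Y377.IR
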