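import Pool.Agent.Y377.IR.Asm

/-!
Towers of rings of functions on a group, and their restrictions to cosets.
-/

set_option autoImplicit false

namespace Pool.Agent.Y377.IR

open Pool.Agent.Y377.EL Pool.Agent.Y377.IL

section functions

variable {H : Type} [Group H]

/-- Towers of rings of functions on the group `H`: in every step, the entries of an invertible
matrix `X` of functions, and of its inverse `Y`, are added to the ring, where all `X(gh) X(h)⁻¹`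
have, as functions of `h`, entries in the previous ring. -/
inductive FTow : Subalgebra ℂ (H → ℂ) → Prop
  | base : FTow ⊥
  | step {R : Subalgebra ℂ (H → ℂ)} {n : ℕ} {X Y : Matrix (Fin n) (Fin n) (H → ℂ)} :
      FTow R → FundF R X Y → FTow (matF R X Y)

theorem tr_mul (g : H) (f f' : H → ℂ) : tr g (f * f') = tr g f * tr g f' := rfl

theorem tr_add (g : H) (f f' : H → ℂ) : tr g (f + f') = tr g f + tr g f' := rfl

theorem tr_tr (a b : H) (f : H → ℂ) : tr a (tr b f) = tr (b * a) f := by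
  funext h
  change f (b * (a * h)) = f (b * a * h)
  rw [mul_assoc]

theorem tr_one' (f : H → ℂ) : tr 1 f = f := by
  funext h
  change f (1 * h) = f h
  rw [one_mul]

/-- translation as an algebra homomorphism -/
def trA (g : H) : (H → ℂ) →ₐ[ℂ] (H → ℂ) where
  toFun := tr g
  map_one' := rfl
  map_mul' := fun _ _ => rfl
  map_zero' := rfl
  map_add' := fun _ _ => rfl
  commutes' := fun _ => rfl

theorem le_matF (R : Subalgebra ℂ (H → ℂ)) {n : ℕ} (X Y : Matrix (Fin n) (Fin n) (H → ℂ)) :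
    R ≤ matF R X Y := le_sup_left

theorem mem_matF_left (R : Subalgebra ℂ (H → ℂ)) {n : ℕ}
    (X Y : Matrix (Fin n) (Fin n) (H → ℂ)) (i j : Fin n) : X i j ∈ matF R X Y :=
  (le_sup_right : _ ≤ matF R X Y) (Algebra.subset_adjoin ⟨i, j, Or.inl rfl⟩)

theorem mem_matF_right (R : Subalgebra ℂ (H → ℂ)) {n : ℕ}
    (X Y : Matrix (Fin n) (Fin n) (H → ℂ)) (i j : Fin n) : Y i j ∈ matF R X Y :=
  (le_sup_right : _ ≤ matF R X Y) (Algebra.subset_adjoin ⟨i, j, Or.inr rfl⟩)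

theorem FundF.left {R : Subalgebra ℂ (H → ℂ)} {n : ℕ} {X Y : Matrix (Fin n) (Fin n) (H → ℂ)}
    (h : FundF R X Y) : Y * X = 1 := mul_eq_one_comm.1 h.inv

theorem map_mulF {n : ℕ} (g : H) (A B : Matrix (Fin n) (Fin n) (H → ℂ)) :
    (A * B).map (tr g) = A.map (tr g) * B.map (tr g) := by
  ext i j
  have h1 : (A * B) i j = ∑ k, A i k * B k j := Matrix.mul_apply
  have h2 : (A.map (tr g) * B.map (tr g)) i j = ∑ k, tr g (A i k) * tr g (B k j) :=
    Matrix.mul_apply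
  rw [Matrix.map_apply, h1, h2]
  exact congrFun (map_sum (trA g) (fun k => A i k * B k j) Finset.univ) _

theorem map_oneF {n : ℕ} (g : H) :
    (1 : Matrix (Fin n) (Fin n) (H → ℂ)).map (tr g) = 1 := Matrix.map_one _ rfl rfl

theorem FundF.eqX {R : Subalgebra ℂ (H → ℂ)} {n : ℕ} {X Y : Matrix (Fin n) (Fin n) (H → ℂ)}
    (h : FundF R X Y) (g : H) :
    ∃ M : Matrix (Fin n) (Fin n) (H → ℂ), (∀ i j, M i j ∈ R) ∧ X.map (tr g) = M * X := by
  refine ⟨X.map (tr g) * Y, fun i j => ?_, ?_⟩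
  · rw [Matrix.mul_apply]
    exact h.coc g i j
  · rw [Matrix.mul_assoc, h.left, Matrix.mul_one]

theorem FundF.eqY {R : Subalgebra ℂ (H → ℂ)} (hR : TStab R) {n : ℕ}
    {X Y : Matrix (Fin n) (Fin n) (H → ℂ)} (h : FundF R X Y) (g : H) :
    ∃ M : Matrix (Fin n) (Fin n) (H → ℂ), (∀ i j, M i j ∈ R) ∧ Y.map (tr g) = Y * M := by
  obtain ⟨M, hM, hX⟩ := h.eqX g⁻¹
  refine ⟨M.map (tr g), fun i j => hR g _ (hM i j), ?_⟩
  have h1 : X = M.map (tr g) * X.map (tr g) := by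
    rw [← map_mulF, ← hX]
    ext i j : 2
    rw [Matrix.map_apply, Matrix.map_apply, tr_tr, inv_mul_cancel, tr_one']
  have h2 : X.map (tr g) * Y.map (tr g) = 1 := by
    rw [← map_mulF, h.inv, map_oneF]
  calc Y.map (tr g) = (Y * X) * Y.map (tr g) := by rw [h.left, Matrix.one_mul]
    _ = Y * (M.map (tr g) * X.map (tr g)) * Y.map (tr g) := by rw [← h1]
    _ = Y * M.map (tr g) * (X.map (tr g) * Y.map (tr g)) := by simp only [Matrix.mul_assoc]
    _ = Y * M.map (tr g) := by rw [h2, Matrix.mul_one]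

theorem matF_mem_mul {R : Subalgebra ℂ (H → ℂ)} {n : ℕ}
    {X Y A B : Matrix (Fin n) (Fin n) (H → ℂ)}
    (hA : ∀ i j, A i j ∈ matF R X Y) (hB : ∀ i j, B i j ∈ matF R X Y) (i j : Fin n) :
    (A * B) i j ∈ matF R X Y := by
  rw [Matrix.mul_apply]
  exact Subalgebra.sum_mem _ fun k _ => Subalgebra.mul_mem _ (hA i k) (hB k j)

theorem tStab_matF {R : Subalgebra ℂ (H → ℂ)} (hR : TStab R) {n : ℕ}
    {X Y : Matrix (Fin n) (Fin n) (H → ℂ)} (h : FundF R X Y) : TStab (matF R X Y) := by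
  intro g x hx
  have h1 : matF R X Y ≤ (matF R X Y).comap (trA g) := by
    refine sup_le (fun r hr => le_matF R X Y (hR g r hr)) (Algebra.adjoin_le ?_)
    rintro y ⟨i, j, rfl | rfl⟩
    · obtain ⟨M, hM, hX⟩ := h.eqX g
      have h2 : tr g (X i j) = (M * X) i j := by rw [← hX, Matrix.map_apply]
      change tr g (X i j) ∈ matF R X Y
      rw [h2]
      exact matF_mem_mul (fun i j => le_matF R X Y (hM i j)) (mem_matF_left R X Y) i j
    · obtain ⟨M, hM, hY⟩ := h.eqY hR g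
      have h2 : tr g (Y i j) = (Y * M) i j := by rw [← hY, Matrix.map_apply]
      change tr g (Y i j) ∈ matF R X Y
      rw [h2]
      exact matF_mem_mul (mem_matF_right R X Y) (fun i j => le_matF R X Y (hM i j)) i j
  exact h1 hx

theorem ents_finite' {n : ℕ} (X Y : Matrix (Fin n) (Fin n) (H → ℂ)) :
    {x | ∃ i j, x = X i j ∨ x = Y i j}.Finite := by
  have h : {x | ∃ i j, x = X i j ∨ x = Y i j} ⊆
      Set.range (fun p : Fin n × Fin n => X p.1 p.2) ∪
        Set.range (fun p : Fin n × Fin n => Y p.1 p.2) := by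
    rintro x ⟨i, j, rfl | rfl⟩
    · exact Or.inl ⟨(i, j), rfl⟩
    · exact Or.inr ⟨(i, j), rfl⟩
  exact ((Set.finite_range _).union (Set.finite_range _)).subset h

theorem FTow.fg {R : Subalgebra ℂ (H → ℂ)} (h : FTow R) : R.FG := by
  induction h with
  | base => exact Subalgebra.fg_bot
  | @step R n X Y _ _ ih =>
    exact ih.sup ⟨(ents_finite' X Y).toFinset, by rw [Set.Finite.coe_toFinset]⟩

theorem noeth_of_fg {A : Type} [CommRing A] [Algebra ℂ A] {R : Subalgebra ℂ A} (h : R.FG) :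
    IsNoetherianRing R := by
  have h1 : Algebra.FiniteType ℂ R := R.fg_iff_finiteType.1 h
  exact Algebra.FiniteType.isNoetherianRing ℂ R

theorem tStab_bot : TStab (⊥ : Subalgebra ℂ (H → ℂ)) := by
  intro g f hf
  obtain ⟨c, rfl⟩ := Algebra.mem_bot.1 hf
  have h1 : tr g (algebraMap ℂ (H → ℂ) c) = algebraMap ℂ (H → ℂ) c := rfl
  rw [h1]
  exact Subalgebra.algebraMap_mem _ _

theorem tSimple_bot : TSimple (⊥ : Subalgebra ℂ (H → ℂ)) := by
  intro I hI _ ⟨x, hx, hx0⟩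
  obtain ⟨c, hc⟩ := Algebra.mem_bot.1 (hI x hx)
  have hc0 : c ≠ 0 := by
    rintro rfl
    apply hx0
    rw [← hc, map_zero]
  have hinv : algebraMap ℂ (H → ℂ) c⁻¹ ∈ (⊥ : Subalgebra ℂ (H → ℂ)) :=
    Subalgebra.algebraMap_mem _ _
  have h1 := I.smul_mem (⟨_, hinv⟩ : (⊥ : Subalgebra ℂ (H → ℂ))) hx
  rw [Algebra.smul_def] at h1
  have h2 : algebraMap ℂ (H → ℂ) c⁻¹ * x ∈ I := h1
  rwa [← hc, ← map_mul, inv_mul_cancel₀ hc0, map_one] at h2

/-- the statements on functions on groups -/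
structure FHyp : Prop where
  lift : G_LIFT
  sim : G_SIM
  min : G_MIN
  ka : G_KA
  kb : G_KB
  kc : G_KC

theorem FTow.good (F : FHyp) {R : Subalgebra ℂ (H → ℂ)} (h : FTow R) :
    TStab R ∧ TSimple R := by
  induction h with
  | base => exact ⟨tStab_bot, tSimple_bot⟩
  | @step R n X Y hR hF ih =>
    exact ⟨tStab_matF ih.1 hF, F.sim F.lift H R ih.1 ih.2 (noeth_of_fg hR.fg) n X Y hF⟩

/-- the image of a smaller ring -/
noncomputable def img {K : Type} [Field K] [Algebra ℂ K] {R : Subalgebra ℂ (H → ℂ)}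
    (ρ : R →ₐ[ℂ] K) (R' : Subalgebra ℂ (H → ℂ)) : Subalgebra ℂ K :=
  (R'.comap R.val).map ρ

theorem mem_img {K : Type} [Field K] [Algebra ℂ K] {R : Subalgebra ℂ (H → ℂ)}
    {ρ : R →ₐ[ℂ] K} {R' : Subalgebra ℂ (H → ℂ)} {x : K} :
    x ∈ img ρ R' ↔ ∃ f : R, (f : H → ℂ) ∈ R' ∧ ρ f = x := Iff.rfl

theorem img_self {K : Type} [Field K] [Algebra ℂ K] {R : Subalgebra ℂ (H → ℂ)}
    (ρ : R →ₐ[ℂ] K) : img ρ R = ρ.range := by
  ext x
  rw [mem_img]
  exact ⟨fun ⟨f, _, hf⟩ => ⟨f, hf⟩, fun ⟨f, hf⟩ => ⟨f, f.2, hf⟩⟩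

theorem img_matF {K : Type} [Field K] [Algebra ℂ K] {R : Subalgebra ℂ (H → ℂ)}
    (ρ : R →ₐ[ℂ] K) {R' : Subalgebra ℂ (H → ℂ)} {n : ℕ}
    {X Y : Matrix (Fin n) (Fin n) (H → ℂ)} (hle : matF R' X Y ≤ R)
    {X' Y' : Matrix (Fin n) (Fin n) R} (hX : ∀ i j, (X' i j : H → ℂ) = X i j)
    (hY : ∀ i j, (Y' i j : H → ℂ) = Y i j) :
    img ρ (matF R' X Y) = mat (img ρ R') (X'.map ρ) (Y'.map ρ) := by
  apply le_antisymm
  · rintro x ⟨f, hf, rfl⟩
    let T : Subalgebra ℂ (H → ℂ) :=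
      ((mat (img ρ R') (X'.map ρ) (Y'.map ρ)).comap ρ).map R.val
    have h1 : matF R' X Y ≤ T := by
      refine sup_le (fun r hr => ?_) (Algebra.adjoin_le ?_)
      · refine ⟨⟨r, hle (le_matF R' X Y hr)⟩, ?_, rfl⟩
        exact le_mat _ _ _ ⟨⟨r, hle (le_matF R' X Y hr)⟩, hr, rfl⟩
      · rintro y ⟨i, j, rfl | rfl⟩
        · exact ⟨X' i j, mem_mat_left (img ρ R') (X'.map ρ) (Y'.map ρ) i j, hX i j⟩
        · exact ⟨Y' i j, mem_mat_right (img ρ R') (X'.map ρ) (Y'.map ρ) i j, hY i j⟩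
    obtain ⟨f', hf', he⟩ := h1 hf
    have h2 : f' = f := Subtype.ext he
    rw [← h2]
    exact hf'
  · refine sup_le ?_ (Algebra.adjoin_le ?_)
    · rintro x ⟨f, hf, rfl⟩
      exact ⟨f, le_matF R' X Y hf, rfl⟩
    · rintro y ⟨i, j, rfl | rfl⟩
      · exact ⟨X' i j, by
          change (X' i j : H → ℂ) ∈ matF R' X Y
          rw [hX]
          exact mem_matF_left R' X Y i j, rfl⟩
      · exact ⟨Y' i j, by
          change (Y' i j : H → ℂ) ∈ matF R' X Y
          rw [hY]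
          exact mem_matF_right R' X Y i j, rfl⟩

/-- the data of the restriction to a coset -/
structure Res (R : Subalgebra ℂ (H → ℂ)) (N : Subgroup H) (a : H) (K : Type) [Field K]
    [Algebra ℂ K] (Γ : Subgroup (K ≃ₐ[ℂ] K)) (ρ : R →ₐ[ℂ] K) : Prop where
  ker : ∀ f : R, ρ f = 0 ↔ ∀ g ∈ N, (f : H → ℂ) (g * a) = 0
  act : ∀ γ ∈ Γ, ∃ g ∈ N, ∀ f f' : R, (f' : H → ℂ) = tr g f → γ (ρ f) = ρ f'
  cst : CstG Γ
  fg : (⊤ : IntermediateField ℂ K).FG
  tow : GTow Γ ρ.range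

theorem gTow_img (F : FHyp) {R : Subalgebra ℂ (H → ℂ)} {N : Subgroup H} (hst : TStab R)
    (hn : N.Normal) (hfi : N.FiniteIndex) (hd : DomOn N R) {a : H} {K : Type} [Field K]
    [Algebra ℂ K] {Γ : Subgroup (K ≃ₐ[ℂ] K)} {ρ : R →ₐ[ℂ] K}
    (h1 : ∀ f : R, ρ f = 0 ↔ ∀ g ∈ N, (f : H → ℂ) (g * a) = 0)
    (h3 : ∀ γ ∈ Γ, ∃ g ∈ N, ∀ f f' : R, (f' : H → ℂ) = tr g f → γ (ρ f) = ρ f')
    (h4 : ∀ g ∈ N, ∃ γ ∈ Γ, ∀ f f' : R, (f' : H → ℂ) = tr g f → γ (ρ f) = ρ f')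
    {R' : Subalgebra ℂ (H → ℂ)} (hR' : FTow R') (hle : R' ≤ R) : GTow Γ (img ρ R') := by
  induction hR' with
  | base =>
    have h5 : img ρ (⊥ : Subalgebra ℂ (H → ℂ)) = ⊥ := by
      apply le_antisymm
      · rintro x ⟨f, hf, rfl⟩
        obtain ⟨c, hc⟩ := Algebra.mem_bot.1 hf
        have h6 : f = algebraMap ℂ R c := Subtype.ext hc.symm
        rw [h6]
        change ρ (algebraMap ℂ R c) ∈ _
        rw [AlgHom.commutes]
        exact Subalgebra.algebraMap_mem _ _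
      · exact bot_le
    rw [h5]
    exact GTow.base
  | @step R' n X Y hR' hF ih =>
    have hle' : R' ≤ R := (le_matF R' X Y).trans hle
    let X' : Matrix (Fin n) (Fin n) R := fun i j => ⟨X i j, hle (mem_matF_left R' X Y i j)⟩
    let Y' : Matrix (Fin n) (Fin n) R := fun i j => ⟨Y i j, hle (mem_matF_right R' X Y i j)⟩
    have hX' : ∀ i j, (X' i j : H → ℂ) = X i j := fun i j => rfl
    have hY' : ∀ i j, (Y' i j : H → ℂ) = Y i j := fun i j => rfl
    have h5 := img_matF ρ hle hX' hY'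
    rw [h5]
    refine GTow.step (ih hle') ⟨?_, ?_⟩ ?_
    · have h6 : X' * Y' = 1 := by
        ext i j : 2
        rw [Matrix.mul_apply]
        have h7 : ((∑ k, X' i k * Y' k j : R) : H → ℂ) = ∑ k, X i k * Y k j := by
          rw [AddSubmonoidClass.coe_finsetSum]
          rfl
        rw [h7, ← Matrix.mul_apply, hF.inv, Matrix.one_apply, Matrix.one_apply]
        split_ifs <;> rfl
      ext i j
      have h8 : ((X'.map ρ) * (Y'.map ρ)) i j = ρ ((X' * Y') i j) := by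
        rw [Matrix.mul_apply, Matrix.mul_apply, map_sum]
        exact Finset.sum_congr rfl fun k _ => (map_mul ρ _ _).symm
      rw [h8, h6, Matrix.one_apply, Matrix.one_apply]
      split_ifs
      · exact map_one ρ
      · exact map_zero ρ
    · intro γ hγ i j
      obtain ⟨g, hg, hgρ⟩ := h3 γ hγ
      have h6 : ∀ k, γ (ρ (X' i k)) = ρ ⟨tr g (X i k), hst g _ (X' i k).2⟩ := fun k =>
        hgρ _ _ rfl
      have h7 : ∑ k, γ ((X'.map ρ) i k) * (Y'.map ρ) k j =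
          ρ (∑ k, ⟨tr g (X i k), hst g _ (X' i k).2⟩ * Y' k j) := by
        rw [map_sum]
        refine Finset.sum_congr rfl fun k _ => ?_
        rw [map_mul, ← h6]
        rfl
      rw [h7]
      refine ⟨_, ?_, rfl⟩
      have h8 := hF.coc g i j
      change ((∑ k, (⟨tr g (X i k), hst g _ (X' i k).2⟩ : R) * Y' k j : R) : H → ℂ) ∈ R'
      rw [AddSubmonoidClass.coe_finsetSum]
      exact h8
    · rw [← h5]
      obtain ⟨h6, h7⟩ := (FTow.step hR' hF).good F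
      exact F.kb H R N hst hn hfi hd a K Γ ρ h1 h3 h4 _ hle h6 h7 _ fun x => mem_img

theorem exists_res (F : FHyp) {R : Subalgebra ℂ (H → ℂ)} (hR : FTow R) :
    ∃ N : Subgroup H, N.Normal ∧ N.FiniteIndex ∧ ∀ a : H, ∃ (K : Type) (_ : Field K)
      (_ : Algebra ℂ K) (Γ : Subgroup (K ≃ₐ[ℂ] K)) (ρ : R →ₐ[ℂ] K), Res R N a K Γ ρ := by
  obtain ⟨hst, hsim⟩ := hR.good F
  obtain ⟨N, hn, hfi, hd⟩ := F.min H R hst hsim (noeth_of_fg hR.fg)
  refine ⟨N, hn, hfi, fun a => ?_⟩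
  obtain ⟨K, i1, i2, Γ, ρ, h1, h2, h3, h4⟩ := F.ka H R N hst hd a
  have h5 : GTow Γ ρ.range := by
    rw [← img_self]
    exact gTow_img F hst hn hfi hd h1 h3 h4 hR le_rfl
  have h6 : GSimple Γ ρ.range :=
    F.kb H R N hst hn hfi hd a K Γ ρ h1 h3 h4 R le_rfl hst hsim _ fun x => by
      rw [← img_self]
      exact mem_img
  refine ⟨K, i1, i2, Γ, ρ, h1, h3, F.kc H R N hst a K Γ ρ h1 h3 h4 h2 h6, ?_, h5⟩
  -- the field is finitely generated
  have h7 : ρ.range.FG := by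
    have h8 : (⊤ : Subalgebra ℂ R).FG := Algebra.FiniteType.out (self := R.fg_iff_finiteType.1 hR.fg)
    have h9 := h8.map ρ
    rwa [Algebra.map_top] at h9
  obtain ⟨t, ht⟩ := h7
  refine ⟨t, top_le_iff.1 fun x _ => ?_⟩
  obtain ⟨r, hr, hr0, hrx⟩ := h2 x
  have h10 : ∀ y ∈ ρ.range, y ∈ IntermediateField.adjoin ℂ (t : Set K) := by
    intro y hy
    rw [← ht] at hy
    exact IntermediateField.algebra_adjoin_le_adjoin ℂ (t : Set K) hy
  have h11 : x = r⁻¹ * (r * x) := by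
    rw [← mul_assoc, inv_mul_cancel₀ hr0, one_mul]
  rw [h11]
  exact (IntermediateField.adjoin ℂ (t : Set K)).mul_mem
    ((IntermediateField.adjoin ℂ (t : Set K)).inv_mem (h10 r hr)) (h10 _ hrx)

end functions

end Pool.Agent.Y377.IR
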