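import Pool.Agent.Y377.IR.Num

/-!
Points given by iterated recurrences on complex projective algebraic sets: the converse.
-/

set_option autoImplicit false

namespace Pool.Agent.Y377.IR

open Set MvPolynomial Pool.Agent.Y377.EL Pool.Agent.Y377.IL
open scoped LinearAlgebra.Projectivization
open Pool.Agent.TH143.EL (Rep InV inV_iff rep_rep rep_smul rep_eq HolMap rep_iff TorusMapsIn
  ratCurves_of_torus)
open Pool.Agent.TH143.HE (RCur nc_iff RatCurvesIn ratCurvesIn_iff eval₂_eval)

variable {N : ℕ}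

theorem rcur_of_rational {I : Ideal (MvPolynomial (Fin (N + 1)) ℂ)}
    {p : Fin (N + 1) → Polynomial ℂ} (hp : RationalCurve I p) : RCur (RingHom.id ℂ) I ⊤ p := by
  obtain ⟨h1, j0, k0, u, v, hne⟩ := hp
  have hpj : ∃ j, p j ≠ 0 := by
    by_contra h0
    push Not at h0
    rw [h0 j0, h0 k0] at hne
    simp at hne
  obtain ⟨j1, hj1⟩ := hpj
  refine ⟨fun G hG hd => ?_, ⟨1, trivial, ⟨0, isHomogeneous_one _ _⟩, ?_⟩,
    (nc_iff p).2 ⟨j0, k0, u, v, hne⟩⟩
  · have h3 : eval₂ (Polynomial.C.comp (RingHom.id ℂ)) p G * p j1 = 0 := by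
      apply Polynomial.funext
      intro t
      rw [Polynomial.eval_mul, Polynomial.eval_zero, eval₂_eval]
      by_cases ht : (p j1).eval t = 0
      · rw [ht, mul_zero]
      · have hv : (fun j => (p j).eval t) ≠ 0 := fun h0 => ht (congrFun h0 j1)
        have hx : Rep (Projectivization.mk ℂ _ hv) fun j => (p j).eval t := ⟨hv, rfl⟩
        have h4 := (inV_iff hx).1 (h1 t _ hx) G hG hd
        rw [eval₂_id, h4, zero_mul]
    exact (mul_eq_zero.1 h3).resolve_right hj1
  · rw [eval₂_one]
    exact one_ne_zero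

/-- **Rational curves give infinite families.** -/
theorem infinite_of_rational {I : Ideal (MvPolynomial (Fin (N + 1)) ℂ)}
    {p0 : Fin (N + 1) → Polynomial ℂ} (hp0 : RationalCurve I p0) :
    ∃ (P : ℤ → ℙ ℂ (Fin (N + 1) → ℂ)) (f : Fin (N + 1) → ℤ → ℂ), (∀ j, IterRec (f j)) ∧
      (∀ n, Rep (P n) fun j => f j n) ∧ (∀ n, InV I (P n)) ∧ (Set.range P).Infinite := by
  classical
  obtain ⟨p, c, ⟨h1, -, hnc⟩, hone⟩ := exists_coprime (rcur_of_rational hp0)
  have hnz : ∀ t : ℂ, (fun j => (p j).eval t) ≠ 0 := by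
    intro t h0
    have h4 := congrArg (Polynomial.eval t) hone
    rw [Polynomial.eval_finsetSum, Polynomial.eval_one] at h4
    apply zero_ne_one (α := ℂ)
    rw [← h4]
    symm
    refine Finset.sum_eq_zero fun j _ => ?_
    rw [Polynomial.eval_mul]
    have h5 : (p j).eval t = 0 := congrFun h0 j
    rw [h5, mul_zero]
  let P : ℤ → ℙ ℂ (Fin (N + 1) → ℂ) := fun n => Projectivization.mk ℂ _ (hnz (n : ℂ))
  have hrep : ∀ n : ℤ, Rep (P n) fun j => (p j).eval (n : ℂ) := fun n => ⟨hnz (n : ℂ), rfl⟩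
  refine ⟨P, fun j n => (p j).eval (n : ℂ), fun j => iterRec_poly _, hrep, fun n => ?_, ?_⟩
  · rw [inV_iff (hrep n)]
    intro G hG hd
    have h2 := congrArg (Polynomial.eval (n : ℂ)) (h1 G hG hd)
    rw [eval₂_eval, eval₂_id, Polynomial.eval_zero] at h2
    exact h2
  · intro hfin
    have hroot : ∀ q : Polynomial ℂ, q ≠ 0 → {n : ℤ | q.eval (n : ℂ) = 0}.Finite := fun q hq =>
      (Polynomial.finite_setOfPred_isRoot hq).preimage (Int.cast_injective.injOn)
    have hfib : ∀ x : ℙ ℂ (Fin (N + 1) → ℂ), {n : ℤ | P n = x}.Finite := by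
      intro x
      by_cases hP : ∃ n0 : ℤ, P n0 = x
      · obtain ⟨n0, rfl⟩ := hP
        obtain ⟨k, hk⟩ := Function.ne_iff.1 (hnz (n0 : ℂ))
        have hk' : (p k).eval (n0 : ℂ) ≠ 0 := hk
        set x0 : Fin (N + 1) → ℂ := fun i => (p i).eval (n0 : ℂ) with hx0
        obtain ⟨j, hj⟩ : ∃ j, p j * Polynomial.C (x0 k) - Polynomial.C (x0 j) * p k ≠ 0 := by
          by_contra hcon
          push Not at hcon
          obtain ⟨j, j', i, i', h2⟩ := hnc
          apply h2
          have h3 : ∀ j i, (p j).coeff i * x0 k = x0 j * (p k).coeff i := by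
            intro j i
            have h4 := congrArg (fun q => Polynomial.coeff q i) (sub_eq_zero.1 (hcon j))
            simp only [Polynomial.coeff_mul_C, Polynomial.coeff_C_mul] at h4
            exact h4
          apply mul_right_cancel₀ (mul_ne_zero hk' hk')
          calc (p j).coeff i * (p j').coeff i' * (x0 k * x0 k) =
              ((p j).coeff i * x0 k) * ((p j').coeff i' * x0 k) := by ring
            _ = ((p j').coeff i * x0 k) * ((p j).coeff i' * x0 k) := by
                rw [h3 j i, h3 j' i', h3 j' i, h3 j i']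
                ring
            _ = _ := by ring
        refine (hroot _ hj).subset ?_
        intro n hn
        have hn' : Projectivization.mk ℂ _ (hnz (n : ℂ)) = Projectivization.mk ℂ _
          (hnz (n0 : ℂ)) := hn
        rw [Projectivization.mk_eq_mk_iff'] at hn'
        obtain ⟨c, hc⟩ := hn'
        have h2 : ∀ i, (p i).eval (n : ℂ) = c * x0 i := fun i => (congrFun hc i).symm
        change Polynomial.eval _ _ = 0
        rw [Polynomial.eval_sub, Polynomial.eval_mul, Polynomial.eval_mul, Polynomial.eval_C,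
          Polynomial.eval_C, h2 j, h2 k]
        ring
      · exact Set.finite_empty.subset fun m hm => hP ⟨m, hm⟩
    have hall : (Set.univ : Set ℤ).Finite := by
      refine (hfin.biUnion fun x _ => hfib x).subset ?_
      intro n _
      rw [Set.mem_iUnion₂]
      exact ⟨P n, ⟨n, rfl⟩, rfl⟩
    exact Set.infinite_univ hall

/-- finite families on algebraic sets without rational curves -/
theorem finite_of_noRational {I : Ideal (MvPolynomial (Fin (N + 1)) ℂ)}
    (h : ∀ p, ¬ RationalCurve I p) {H : Type} [Group H] {P : H → ℙ ℂ (Fin (N + 1) → ℂ)}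
    (hP : IteratedOn P) (hI : ∀ h, InV I (P h)) : (Set.range P).Finite := by
  have h1 : RationalPoints I = ∅ := by
    ext x
    constructor
    · rintro ⟨p, hp, -⟩
      exact absurd hp (h p)
    · intro hx
      exact absurd hx (notMem_empty x)
  have h2 := finite_out_rat hP hI
  rw [h1, zclosure_empty, sdiff_empty] at h2
  exact h2

/-- every holomorphic map from a one-dimensional complex torus to the algebraic set is constant -/
def NoTorusMaps (I : Ideal (MvPolynomial (Fin (N + 1)) ℂ)) : Prop :=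
  ∀ ω₁ ω₂ : ℂ, LinearIndependent ℝ ![ω₁, ω₂] → ∀ f : ℂ → ℙ ℂ (Fin (N + 1) → ℂ), HolMap f →
    (∀ z, f (z + ω₁) = f z) → (∀ z, f (z + ω₂) = f z) → (∀ z, InV I (f z)) → ∀ z w, f z = f w

theorem noRational_of_torus {I : Ideal (MvPolynomial (Fin (N + 1)) ℂ)} (h : NoTorusMaps I) :
    ∀ p, ¬ RationalCurve I p := by
  intro p hp
  have h1 : TorusMapsIn I ⊤ := by
    intro ω₁ ω₂ h0 f hf h2 h3 h4 ⟨z, w, hzw⟩
    exact absurd (h ω₁ ω₂ h0 f hf h2 h3 h4 z w) hzw
  have h2 := ratCurves_of_torus h1
  rw [ratCurvesIn_iff] at h2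
  exact h2 p (rcur_of_rational hp)

end Pool.Agent.Y377.IR
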