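import Pool.Agent.Y377.IR.Abs
import Pool.Agent.Y377.IL.AllE

/-!
Points of complements of hypersurfaces given by iterated recurrences.
-/

set_option autoImplicit false

namespace Pool.Agent.Y377.IR

open Set MvPolynomial Pool.Agent.Y377.EL Pool.Agent.Y377.IL
open scoped LinearAlgebra.Projectivization
open Pool.Agent.TH143.EL (Rep InV inV_iff rep_rep rep_smul rep_eq)

variable {N : ℕ} {H : Type} [Group H]

/-- the regular function `x ^ α / Q` at the points `P h` -/
noncomputable def regP (Q : MvPolynomial (Fin (N + 1)) ℂ) (α : Fin (N + 1) →₀ ℕ)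
    (P : H → ℙ ℂ (Fin (N + 1) → ℂ)) : H → ℂ :=
  fun h => (∏ j, (P h).rep j ^ α j) / eval (P h).rep Q

/-- the exponent of `X j * X l ^ (d - 1)` -/
noncomputable def ex (d : ℕ) (l j : Fin (N + 1)) : Fin (N + 1) →₀ ℕ :=
  Finsupp.single j 1 + Finsupp.single l (d - 1)

theorem ex_sum {d : ℕ} (hd : 0 < d) (l j : Fin (N + 1)) : ∑ i, ex d l j i = d := by
  unfold ex
  rw [sum_two]
  omega

theorem regP_ex (Q : MvPolynomial (Fin (N + 1)) ℂ) (d : ℕ) (l j : Fin (N + 1))
    (P : H → ℙ ℂ (Fin (N + 1) → ℂ)) (h : H) :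
    regP Q (ex d l j) P h = ((P h).rep l ^ (d - 1) / eval (P h).rep Q) * (P h).rep j := by
  unfold regP ex
  rw [prod_two]
  ring

theorem eval_mon (v : Fin (N + 1) → ℂ) (β : Fin (N + 1) →₀ ℕ) :
    eval v (monomial β (1 : ℂ)) = ∏ j, v j ^ β j := by
  rw [← aeval_eq_eval, aeval_mon]

theorem mon_hom {d : ℕ} {β : Fin (N + 1) →₀ ℕ} (hβ : ∑ j, β j = d) :
    (monomial β (1 : ℂ)).IsHomogeneous d := by
  apply isHomogeneous_monomial
  rw [Finsupp.degree_eq_sum]
  exact hβ

/-- **The alternative for points of complements of hypersurfaces.** -/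
theorem coset_log (Hy : Hyp) (Gy : GHyp) (hLOGP : S_LOGP) (hPF : S_PF)
    {Q : MvPolynomial (Fin (N + 1)) ℂ} {d : ℕ} (hd : 0 < d) (hQ : Q.IsHomogeneous d)
    {R : Subalgebra ℂ (H → ℂ)} {Nn : Subgroup H} {a : H} {K : Type} [Field K] [Algebra ℂ K]
    {Γ : Subgroup (K ≃ₐ[ℂ] K)} {ρ : R →ₐ[ℂ] K} (hρ : Res R Nn a K Γ ρ)
    {P : H → ℙ ℂ (Fin (N + 1) → ℂ)} (hX : ∀ h, eval (P h).rep Q ≠ 0)
    (hreg : ∀ α : Fin (N + 1) →₀ ℕ, ∑ j, α j = d → regP Q α P ∈ R) :
    (∀ g ∈ Nn, P (g * a) = P a) ∨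
      ∃ (M : Type) (_ : Field M) (_ : Algebra ℂ M) (p : Fin (N + 1) → Polynomial M),
        (∀ G : MvPolynomial (Fin (N + 1)) ℂ, (∃ e, G.IsHomogeneous e) →
          (aeval p G = 0 ↔ ∀ g ∈ Nn, eval (P (g * a)).rep G = 0)) ∧
        (∃ (c : M) (k : ℕ), c ≠ 0 ∧ aeval p Q = Polynomial.C c * Polynomial.X ^ k) ∧
        ∃ j k, Polynomial.derivative (p j) * p k ≠ p j * Polynomial.derivative (p k) := by
  classical
  obtain ⟨l, hl0⟩ := Function.ne_iff.1 (P a).rep_nonzero
  have hl0' : (P a).rep l ≠ 0 := hl0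
  -- the coordinates
  let u : Fin (N + 1) → Fin (N + 1) → R := fun m j => ⟨regP Q (ex d m j) P, hreg _ (ex_sum hd m j)⟩
  let x : Fin (N + 1) → Fin (N + 1) → K := fun m j => ρ (u m j)
  have hu : ∀ m j h, (u m j : H → ℂ) h =
      ((P h).rep m ^ (d - 1) / eval (P h).rep Q) * (P h).rep j := fun m j h =>
    regP_ex Q d m j P h
  have hev : ∀ (m : Fin (N + 1)) (h : H), (fun j => (u m j : H → ℂ) h) = fun j =>
      ((P h).rep m ^ (d - 1) / eval (P h).rep Q) * (P h).rep j := fun m h => funext fun j => hu m j h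
  have hval : ∀ (m : Fin (N + 1)) (G : MvPolynomial (Fin (N + 1)) ℂ), aeval (x m) G = 0 ↔
      ∀ g ∈ Nn, eval (fun j => (u m j : H → ℂ) (g * a)) G = 0 := fun m G =>
    val_res hρ (f := fun j => (u m j : H → ℂ)) (fun j => (u m j).2) G
  have hxl : x l l ≠ 0 := by
    intro h0
    have h1 := (hρ.ker _).1 h0 1 Nn.one_mem
    rw [one_mul, hu] at h1
    exact mul_ne_zero (div_ne_zero (pow_ne_zero _ hl0') (hX a)) hl0' h1
  have hQx : aeval (x l) Q ≠ 0 := by
    intro h0
    have h1 := (hval l Q).1 h0 1 Nn.one_mem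
    rw [one_mul, hev, eval_scale hQ] at h1
    exact mul_ne_zero (pow_ne_zero _ (div_ne_zero (pow_ne_zero _ hl0') (hX a))) (hX a) h1
  have hmon : ∀ β : Fin (N + 1) →₀ ℕ, ∑ j, β j = d →
      ∃ hβ : regP Q β P ∈ R, (∏ j, x l j ^ β j) / aeval (x l) Q = ρ ⟨regP Q β P, hβ⟩ := by
    intro β hβ
    refine ⟨hreg β hβ, ?_⟩
    rw [div_eq_iff hQx, ← aeval_mon]
    have h1 : ∀ G : MvPolynomial (Fin (N + 1)) ℂ, aeval (x l) G = ρ (aeval (u l) G) := fun G =>
      (MvPolynomial.comp_aeval_apply (f := u l) ρ G).symm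
    rw [h1, h1, ← map_mul]
    congr 1
    apply Subtype.ext
    have h2 : ∀ G : MvPolynomial (Fin (N + 1)) ℂ, ((aeval (u l) G : R) : H → ℂ) =
        aeval (fun j => (u l j : H → ℂ)) G := fun G =>
      MvPolynomial.comp_aeval_apply (f := u l) R.val G
    change ((aeval (u l) (monomial β (1 : ℂ)) : R) : H → ℂ) =
      regP Q β P * ((aeval (u l) Q : R) : H → ℂ)
    rw [h2, h2]
    funext h
    rw [Pi.mul_apply, eval_fun, eval_fun, hev, eval_scale (mon_hom hβ), eval_scale hQ, eval_mon]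
    unfold regP
    rw [div_mul_eq_mul_div, eq_div_iff (hX h)]
    ring
  by_cases hall : ∀ j, IsAlgebraic (⊥ : Subalgebra ℂ K) (x l j / x l l)
  · -- constant points
    left
    choose c hc using fun j => const_of_alg (hall j)
    have h1 : ∀ j, x l j = algebraMap ℂ K (c j) * x l l := by
      intro j
      rw [← hc, div_mul_cancel₀ _ hxl]
    have h2 : ∀ G : MvPolynomial (Fin (N + 1)) ℂ, G.IsHomogeneous d →
        aeval (x l) G = x l l ^ d * algebraMap ℂ K (eval c G) := by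
      intro G hG
      have h3 : x l = fun j => x l l * algebraMap ℂ K (c j) := funext fun j => by
        rw [h1 j, mul_comm]
      have h4 : aeval (fun j => algebraMap ℂ K (c j)) G = algebraMap ℂ K (eval c G) := by
        have h5 := MvPolynomial.comp_aeval_apply (f := c) (Algebra.ofId ℂ K) G
        rw [aeval_eq_eval] at h5
        exact h5.symm
      conv_lhs => rw [h3]
      rw [form_scale hG, h4]
    have hconst : ∀ β : Fin (N + 1) →₀ ℕ, ∑ j, β j = d → ∀ g ∈ Nn,
        regP Q β P (g * a) = regP Q β P a := by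
      intro β hβ
      obtain ⟨hβR, h3⟩ := hmon β hβ
      have h4 : ρ ⟨regP Q β P, hβR⟩ = algebraMap ℂ K (eval c (monomial β (1 : ℂ)) / eval c Q) := by
        rw [← h3, ← aeval_mon, h2 _ (mon_hom hβ), h2 Q hQ, map_div₀,
          mul_div_mul_left _ _ (pow_ne_zero _ hxl)]
      have h5 : ∀ g ∈ Nn, regP Q β P (g * a) = eval c (monomial β (1 : ℂ)) / eval c Q := by
        have h6 : ρ (⟨regP Q β P, hβR⟩ -
            algebraMap ℂ R (eval c (monomial β (1 : ℂ)) / eval c Q)) = 0 := by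
          rw [map_sub, h4, AlgHom.commutes, sub_self]
        intro g hg
        have h7 := (hρ.ker _).1 h6 g hg
        have h8 : regP Q β P (g * a) - eval c (monomial β (1 : ℂ)) / eval c Q = 0 := h7
        exact sub_eq_zero.1 h8
      intro g hg
      have h9 := h5 1 Nn.one_mem
      rw [one_mul] at h9
      rw [h5 g hg, h9]
    intro g hg
    have h3 : ∀ j, (u l j : H → ℂ) (g * a) = (u l j : H → ℂ) a := fun j =>
      hconst _ (ex_sum hd l j) g hg
    have hrepa : Rep (P a) fun j => (u l j : H → ℂ) a := by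
      rw [hev]
      exact (rep_smul (div_ne_zero (pow_ne_zero _ hl0') (hX a))).2 (rep_rep _)
    have h4 : (P (g * a)).rep l ≠ 0 := by
      intro h0
      have h5 := h3 l
      rw [hu, hu, h0, mul_zero] at h5
      exact mul_ne_zero (div_ne_zero (pow_ne_zero _ hl0') (hX a)) hl0' h5.symm
    have hrepg : Rep (P (g * a)) fun j => (u l j : H → ℂ) (g * a) := by
      rw [hev]
      exact (rep_smul (div_ne_zero (pow_ne_zero _ h4) (hX _))).2 (rep_rep _)
    have h5 : (fun j => (u l j : H → ℂ) (g * a)) = fun j => (u l j : H → ℂ) a := funext h3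
    rw [h5] at hrepg
    exact rep_eq hrepg hrepa
  · right
    push Not at hall
    obtain ⟨j0, hj0⟩ := hall
    let A : Finset (Fin (N + 1) →₀ ℕ) := Finset.univ.finsuppAntidiag d
    have hA : ∀ β : Fin (N + 1) →₀ ℕ, β ∈ A ↔ ∑ j, β j = d := by
      intro β
      rw [Finset.mem_finsuppAntidiag]
      exact ⟨fun h1 => h1.1, fun h1 => ⟨h1, Finset.subset_univ _⟩⟩
    let t : Finset K := (Finset.univ.image fun j => x l j / x l l) ∪
      A.image fun β => (∏ j, x l j ^ β j) / aeval (x l) Q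
    have hRF : RatFam ρ.range t := by
      refine coset_alt Hy Gy hρ t (fun b hb => ?_) ⟨x l j0 / x l l,
        Finset.mem_union_left _ (Finset.mem_image.2 ⟨j0, Finset.mem_univ j0, rfl⟩), hj0⟩
      rcases Finset.mem_union.1 hb with h1 | h1
      · obtain ⟨j, -, rfl⟩ := Finset.mem_image.1 h1
        exact (frac _).div_mem (le_frac _ ⟨_, rfl⟩) (le_frac _ ⟨_, rfl⟩)
      · obtain ⟨β, hβ, rfl⟩ := Finset.mem_image.1 h1
        obtain ⟨h2, h3⟩ := hmon β ((hA β).1 hβ)
        rw [h3]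
        exact le_frac _ ⟨_, rfl⟩
    obtain ⟨M, i1, i2, p, h1, h2, h3⟩ := hPF hLOGP K N d Q hd hQ (x l) l ρ.range t hxl hQx hRF
      (fun b hb => by
        rcases Finset.mem_union.1 hb with h1 | h1
        · obtain ⟨j, -, rfl⟩ := Finset.mem_image.1 h1
          exact Or.inl ⟨j, rfl⟩
        · obtain ⟨β, hβ, rfl⟩ := Finset.mem_image.1 h1
          exact Or.inr ⟨β, (hA β).1 hβ, rfl⟩)
      (fun j => Finset.mem_union_left _ (Finset.mem_image.2 ⟨j, Finset.mem_univ j, rfl⟩))
      (fun β hβ => ⟨Finset.mem_union_right _ (Finset.mem_image.2 ⟨β, (hA β).2 hβ, rfl⟩), by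
        obtain ⟨h2, h3⟩ := hmon β hβ
        rw [h3]
        exact ⟨_, rfl⟩⟩)
    refine ⟨M, i1, i2, p, fun G hG => ?_, h2, h3⟩
    rw [h1 G hG]
    obtain ⟨e, he⟩ := hG
    constructor
    · intro h0 g hg
      -- another chart
      obtain ⟨m, hm0⟩ := Function.ne_iff.1 (P (g * a)).rep_nonzero
      have hm0' : (P (g * a)).rep m ≠ 0 := hm0
      have h4 : ∀ j, x m j * x l l ^ (d - 1) = x l j * x l m ^ (d - 1) := by
        intro j
        change ρ (u m j) * ρ (u l l) ^ (d - 1) = ρ (u l j) * ρ (u l m) ^ (d - 1)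
        rw [← map_pow, ← map_pow, ← map_mul, ← map_mul]
        congr 1
        apply Subtype.ext
        funext h
        change (u m j : H → ℂ) h * (u l l : H → ℂ) h ^ (d - 1) =
          (u l j : H → ℂ) h * (u l m : H → ℂ) h ^ (d - 1)
        rw [hu, hu, hu, hu, mul_pow, mul_pow]
        ring
      have h5 : x m = fun j => (x l m ^ (d - 1) / x l l ^ (d - 1)) * x l j := by
        funext j
        rw [div_mul_eq_mul_div, eq_div_iff (pow_ne_zero _ hxl), h4 j]
        ring
      have h6 : aeval (x m) G = 0 := by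
        rw [h5, form_scale he, h0, mul_zero]
      have h7 := (hval m G).1 h6 g hg
      rw [hev, eval_scale he] at h7
      exact (mul_eq_zero.1 h7).resolve_left
        (pow_ne_zero _ (div_ne_zero (pow_ne_zero _ hm0') (hX _)))
    · intro h0
      rw [hval l G]
      intro g hg
      rw [hev, eval_scale he, h0 g hg, mul_zero]

end Pool.Agent.Y377.IR
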