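import Pool.Agent.Y377.IR.Seq
import Pool.Agent.Y719.SU.Main

/-!
Points over subfields of the complex numbers given by iterated recurrences, and rational curves.
-/

set_option autoImplicit false

namespace Pool.Agent.Y377.IR

open Set MvPolynomial Pool.Agent.Y377.EL Pool.Agent.Y377.IL Pool.Agent.Y719.SU
open scoped LinearAlgebra.Projectivization
open Pool.Agent.TH143.EL (Rep InV inV_iff rep_rep rep_smul rep_eq HolMap rep_iff nc_poly)
open Pool.Agent.TH143.HE (RCur nc_iff RatCurvesIn ratCurvesIn_iff eval₂_eval eval₂_smul_homog)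

variable {K : Type} [Field K] {N : ℕ}

/-- The points `P h` of the projective space over `L`, `h` in the group `H`, have after the
embedding `τ` of `L` in `ℂ` homogeneous coordinates in the ring of a tower. -/
def IteratedPts {L : Type} [Field L] (τ : L →+* ℂ) {H : Type} [Group H]
    (P : H → ℙ L (Fin (N + 1) → L)) : Prop :=
  ∃ (R : Subalgebra ℂ (H → ℂ)) (f : Fin (N + 1) → H → ℂ), FTow R ∧ (∀ j, f j ∈ R) ∧
    ∀ h, ∃ c : ℂ, c ≠ 0 ∧ ∀ j, f j h = c * τ ((P h).rep j)

/-- For all fields `L ⊇ K` in `ℂ`, all groups and all families of points of `X(L)` given by iterated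
recurrences, only finitely many of the points are outside `Z`. -/
def IteratedFinite (I I' : Ideal (MvPolynomial (Fin (N + 1)) K)) : Prop :=
  ∀ (L : Type) [Field L] [Algebra K L] (τ : L →+* ℂ) (H : Type) [Group H]
    (P : H → ℙ L (Fin (N + 1) → L)), IteratedPts τ P → (∀ h, P h ∈ Pts L I) →
      (Set.range P \ Pts L I').Finite

/-- For all number fields `L ⊇ K` and all sequences (indexed by the integers) of points of `X(L)`
with homogeneous coordinates given by iterated recurrences, only finitely many of the points are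
outside `Z`. -/
def SequenceFinite (I I' : Ideal (MvPolynomial (Fin (N + 1)) K)) : Prop :=
  ∀ (L : Type) [Field L] [NumberField L] [Algebra K L] (τ : L →+* ℂ)
    (P : ℤ → ℙ L (Fin (N + 1) → L)) (f : Fin (N + 1) → ℤ → ℂ), (∀ j, IterRec (f j)) →
      (∀ n, ∃ c : ℂ, c ≠ 0 ∧ ∀ j, f j n = c * τ ((P n).rep j)) → (∀ n, P n ∈ Pts L I) →
        (Set.range P \ Pts L I').Finite

/-- All nonconstant entire curves in `X_σ` given by iterated linear differential equations over the
constants lie in `Z_σ`. -/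
def IterCurves (σ : K →+* ℂ) (I I' : Ideal (MvPolynomial (Fin (N + 1)) K)) : Prop :=
  ∀ f : ℂ → ℙ ℂ (Fin (N + 1) → ℂ), HolMap f → IteratedOver ⊥ f → (∀ z, OnI σ I (f z).rep) →
    (∃ z w, f z ≠ f w) → ∀ z, OnI σ I' (f z).rep

/-- the ideal over the complex numbers -/
noncomputable def ext (σ : K →+* ℂ) (I : Ideal (MvPolynomial (Fin (N + 1)) K)) :
    Ideal (MvPolynomial (Fin (N + 1)) ℂ) :=
  Ideal.span {F | ∃ G ∈ I, (∃ d, G.IsHomogeneous d) ∧ F = MvPolynomial.map σ G}

theorem onI_scale {σ : K →+* ℂ} {I : Ideal (MvPolynomial (Fin (N + 1)) K)}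
    {x y : Fin (N + 1) → ℂ} {c : ℂ} (hc : c ≠ 0) (h : ∀ j, x j = c * y j) :
    OnI σ I x ↔ OnI σ I y := by
  have h1 : x = fun j => c * y j := funext h
  constructor
  · intro h2
    have h3 := onI_smul h2 c⁻¹
    have h4 : (fun j => c⁻¹ * x j) = y := by
      funext j
      rw [h j, inv_mul_cancel_left₀ hc]
    rwa [h4] at h3
  · intro h2
    rw [h1]
    exact onI_smul h2 c

theorem inV_ext {σ : K →+* ℂ} {I : Ideal (MvPolynomial (Fin (N + 1)) K)}
    {p : ℙ ℂ (Fin (N + 1) → ℂ)} : InV (ext σ I) p ↔ OnI σ I p.rep := by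
  constructor
  · rintro h G hG ⟨d, hd⟩
    have h1 := h (MvPolynomial.map σ G) (Ideal.subset_span ⟨G, hG, ⟨d, hd⟩, rfl⟩)
      ⟨d, hd.map σ⟩
    rwa [eval_map] at h1
  · intro h F hF _
    have h1 : ext σ I ≤ RingHom.ker (eval p.rep) := by
      unfold ext
      rw [Ideal.span_le]
      rintro _ ⟨G, hG, hd, rfl⟩
      change eval p.rep (MvPolynomial.map σ G) = 0
      rw [eval_map]
      exact h G hG hd
    exact h1 hF

theorem inV_ext_rep {σ : K →+* ℂ} {I : Ideal (MvPolynomial (Fin (N + 1)) K)}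
    {p : ℙ ℂ (Fin (N + 1) → ℂ)} {x : Fin (N + 1) → ℂ} (hx : Rep p x) :
    InV (ext σ I) p ↔ OnI σ I x := by
  rw [inV_ext]
  obtain ⟨hv, h3⟩ := hx
  obtain ⟨a, ha⟩ := Projectivization.exists_smul_eq_mk_rep ℂ _ hv
  refine onI_scale (c := a) a.ne_zero fun j => ?_
  rw [h3, ← ha]
  rfl

/-- the rational curves -/
theorem closure_sub {σ : K →+* ℂ} {I I' : Ideal (MvPolynomial (Fin (N + 1)) K)}
    (h : NoRat σ I I') {x : ℙ ℂ (Fin (N + 1) → ℂ)}
    (hx : x ∈ ZClosure (RationalPoints (ext σ I))) : OnI σ I' x.rep := by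
  have hR : RatCurvesIn σ I I' := ratCurvesIn_iff.2 h
  rintro G hG ⟨d, hd⟩
  have h1 := hx (MvPolynomial.map σ G) ⟨d, hd.map σ⟩ (fun y hy => ?_)
  · rwa [eval_map] at h1
  · obtain ⟨p, ⟨hp1, hp2⟩, t, ht⟩ := hy
    rw [form_at ht ⟨d, hd.map σ⟩, eval_map]
    refine hR p (fun u G1 hG1 hd1 => ?_) hp2 t G hG ⟨d, hd⟩
    by_cases hv : (fun j => (p j).eval u) = 0
    · rw [hv]
      have h4 := (inV_ext_rep ht).1 (hp1 t y ht) G1 hG1 hd1
      obtain ⟨d1, hd1⟩ := hd1
      have h2 := eval₂_smul_homog σ (0 : ℂ) (fun j => (p j).eval t) hd1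
      rw [h4, mul_zero] at h2
      have h3 : (fun j : Fin (N + 1) => (0 : ℂ) * (p j).eval t) = 0 := by
        funext j
        simp
      rwa [h3] at h2
    · have h2 : Rep (Projectivization.mk ℂ _ hv) fun j => (p j).eval u := ⟨hv, rfl⟩
      exact (inV_ext_rep h2).1 (hp1 u _ h2) G1 hG1 hd1

/-- the complex point -/
theorem exists_cpt {L : Type} [Field L] (τ : L →+* ℂ) (p : ℙ L (Fin (N + 1) → L)) :
    (fun j => τ (p.rep j)) ≠ 0 := by
  intro h0
  apply p.rep_nonzero
  funext j
  have h1 : τ (p.rep j) = 0 := congrFun h0 j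
  exact (map_eq_zero τ).1 h1

theorem onI_comp {L : Type} [Field L] [Algebra K L] (τ : L →+* ℂ)
    {I : Ideal (MvPolynomial (Fin (N + 1)) K)} {x : Fin (N + 1) → L} :
    OnI (algebraMap K L) I x ↔ OnI (τ.comp (algebraMap K L)) I fun j => τ (x j) := by
  have key : ∀ G : MvPolynomial (Fin (N + 1)) K, eval₂ (τ.comp (algebraMap K L))
      (fun j => τ (x j)) G = τ (eval₂ (algebraMap K L) x G) := by
    intro G
    exact (eval₂_comp_left τ (algebraMap K L) x G).symm
  constructor
  · intro h G hG hd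
    rw [key, h G hG hd, map_zero]
  · intro h G hG hd
    have h1 := h G hG hd
    rw [key] at h1
    exact (map_eq_zero τ).1 h1

/-- **Finiteness from the absence of rational curves.** -/
theorem iteratedFinite_of_noRat [NumberField K] {σ : K →+* ℂ}
    {I I' : Ideal (MvPolynomial (Fin (N + 1)) K)} (h : NoRat σ I I') : IteratedFinite I I' := by
  intro L _ _ τ H _ P hP hX
  have h' : NoRat (τ.comp (algebraMap K L)) I I' := noRat_of_NF _ (noRatNF_of σ h)
  let Pc : H → ℙ ℂ (Fin (N + 1) → ℂ) := fun h => Projectivization.mk ℂ _ (exists_cpt τ (P h))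
  have hPc : ∀ h, Rep (Pc h) fun j => τ ((P h).rep j) := fun h => ⟨exists_cpt τ (P h), rfl⟩
  have hIt : IteratedOn Pc := by
    obtain ⟨R, f, hR, hf, hc⟩ := hP
    refine ⟨R, f, hR, hf, fun h => ?_⟩
    obtain ⟨c, hc0, hcf⟩ := hc h
    have h1 : (fun j => f j h) = fun j => c * τ ((P h).rep j) := funext hcf
    rw [h1]
    exact (rep_smul hc0).2 (hPc h)
  have hXc : ∀ h, InV (ext (τ.comp (algebraMap K L)) I) (Pc h) := fun h => by
    rw [inV_ext_rep (hPc h), ← onI_comp]
    exact hX h
  have hfin := finite_out_rat hIt hXc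
  -- descend
  have h1 : Set.InjOn (fun p : ℙ L (Fin (N + 1) → L) => Projectivization.mk ℂ _
      (exists_cpt τ p)) (Set.range P \ Pts L I') := by
    intro p _ q _ hpq
    have h2 : Projectivization.mk ℂ _ (exists_cpt τ p) = Projectivization.mk ℂ _
      (exists_cpt τ q) := hpq
    rw [Projectivization.mk_eq_mk_iff'] at h2
    obtain ⟨c, hc⟩ := h2
    have h3 : ∀ j, τ (p.rep j) = c * τ (q.rep j) := fun j => (congrFun hc j).symm
    obtain ⟨l, hl⟩ := Function.ne_iff.1 q.rep_nonzero
    have hl' : q.rep l ≠ 0 := hl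
    have h4 : ∀ j, p.rep j * q.rep l = p.rep l * q.rep j := by
      intro j
      apply τ.injective
      rw [map_mul, map_mul, h3 j, h3 l]
      ring
    have h5 : p.rep = (p.rep l / q.rep l) • q.rep := by
      funext j
      rw [Pi.smul_apply, smul_eq_mul, div_mul_eq_mul_div, eq_div_iff hl', h4 j]
    rw [← p.mk_rep, ← q.mk_rep, Projectivization.mk_eq_mk_iff']
    exact ⟨_, h5.symm⟩
  refine Set.Finite.of_injOn (f := fun p : ℙ L (Fin (N + 1) → L) => Projectivization.mk ℂ _
      (exists_cpt τ p)) ?_ h1 hfin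
  rintro _ ⟨⟨g, rfl⟩, hg⟩
  refine ⟨⟨g, rfl⟩, fun hcl => hg ?_⟩
  have h2 := closure_sub h' hcl
  rw [← inV_ext, inV_ext_rep (hPc g), ← onI_comp] at h2
  exact h2

theorem sequenceFinite_of_iterated {I I' : Ideal (MvPolynomial (Fin (N + 1)) K)}
    (h : IteratedFinite I I') : SequenceFinite I I' := by
  intro L _ _ _ τ P f hf hc hX
  obtain ⟨R, -, h2, h3⟩ := common (F := fun (j : Fin (N + 1)) (m : Multiplicative ℤ) =>
    f j m.toAdd) (fun j => (hf j).tow) ⊥ FTow.base
  have h4 := h L τ (Multiplicative ℤ) (fun m => P m.toAdd)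
    ⟨R, fun j m => f j m.toAdd, h2, h3, fun m => hc m.toAdd⟩ fun m => hX m.toAdd
  have h5 : Set.range P = Set.range fun m : Multiplicative ℤ => P m.toAdd := by
    ext x
    constructor
    · rintro ⟨n, rfl⟩
      exact ⟨Multiplicative.ofAdd n, rfl⟩
    · rintro ⟨m, rfl⟩
      exact ⟨m.toAdd, rfl⟩
  rw [h5]
  exact h4

/-- rational curves without common zeros -/
theorem exists_coprime {L : Type} [Field L] {φ : K →+* L}
    {I I' : Ideal (MvPolynomial (Fin (N + 1)) K)} {p : Fin (N + 1) → Polynomial L}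
    (hp : RCur φ I I' p) : ∃ q c : Fin (N + 1) → Polynomial L, RCur φ I I' q ∧
      ∑ j, c j * q j = 1 := by
  classical
  obtain ⟨h1, ⟨G', hG', ⟨d', hd'⟩, hne⟩, hnc⟩ := hp
  obtain ⟨j0, hj0⟩ : ∃ j, p j ≠ 0 := by
    by_contra hcon
    push Not at hcon
    obtain ⟨j, k, i, i', h2⟩ := hnc
    apply h2
    rw [hcon j, hcon k]
  obtain ⟨g, hg⟩ := (IsPrincipalIdealRing.principal (Ideal.span (Set.range p))).principal
  have hg' : Ideal.span (Set.range p) = Ideal.span {g} := hg
  have hdvd : ∀ j, g ∣ p j := by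
    intro j
    rw [← Ideal.mem_span_singleton, ← hg']
    exact Ideal.subset_span ⟨j, rfl⟩
  choose q hq using hdvd
  have hg0 : g ≠ 0 := by
    intro h0
    apply hj0
    rw [hq j0, h0, zero_mul]
  obtain ⟨c, hc⟩ : ∃ c : Fin (N + 1) → Polynomial L, ∑ j, c j * p j = g := by
    have h2 : g ∈ Ideal.span (Set.range p) := by
      rw [hg']
      exact Ideal.mem_span_singleton_self g
    obtain ⟨c, hc⟩ := (Ideal.mem_span_range_iff_exists_fun).1 h2
    exact ⟨c, hc⟩
  have hone : ∑ j, c j * q j = 1 := by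
    apply mul_left_cancel₀ hg0
    rw [Finset.mul_sum, mul_one]
    conv_rhs => rw [← hc]
    refine Finset.sum_congr rfl fun j _ => ?_
    conv_rhs => rw [hq j]
    ring
  have hp : p = fun j => g * q j := funext hq
  refine ⟨q, c, ⟨fun G hG hd => ?_, ⟨G', hG', ⟨d', hd'⟩, fun h0 => hne ?_⟩, ?_⟩, hone⟩
  · obtain ⟨d, hd⟩ := hd
    have h3 := h1 G hG ⟨d, hd⟩
    rw [hp, eval₂_smul' _ _ _ hd] at h3
    exact (mul_eq_zero.1 h3).resolve_left (pow_ne_zero _ hg0)
  · rw [hp, eval₂_smul' _ _ _ hd', h0, mul_zero]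
  · by_contra hcon
    push Not at hcon
    obtain ⟨j, k, i, i', h2⟩ := hnc
    apply h2
    have h3 : q j * Polynomial.C ((q k).coeff 0) = q k * Polynomial.C ((q j).coeff 0) := by
      ext m
      rw [Polynomial.coeff_mul_C, Polynomial.coeff_mul_C]
      exact hcon j k m 0
    -- all coefficient vectors are proportional
    have h4 : ∀ m, (∀ a b : Fin (N + 1), (q a).coeff m * (q b).coeff i' =
        (q b).coeff m * (q a).coeff i') := fun m a b => hcon a b m i'
    rw [hq j, hq k, Polynomial.coeff_mul, Polynomial.coeff_mul, Polynomial.coeff_mul,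
      Polynomial.coeff_mul, Finset.sum_mul_sum, Finset.sum_mul_sum]
    refine Finset.sum_congr rfl fun a _ => Finset.sum_congr rfl fun b _ => ?_
    have h5 := hcon j k a.2 b.2
    linear_combination (g.coeff a.1 * g.coeff b.1) * h5

/-- **Rational curves give infinite families.** -/
theorem noRatNF_of_sequence {I I' : Ideal (MvPolynomial (Fin (N + 1)) K)}
    (h : SequenceFinite I I') : NoRatNF I I' := by
  classical
  intro L _ _ _ p0 hp0
  obtain ⟨p, c, ⟨h1, ⟨G', hG', hGh, hne⟩, hnc⟩, hone⟩ := exists_coprime hp0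
  let τ : L →+* ℂ := (IsAlgClosed.lift : L →ₐ[ℚ] ℂ)
  have hnz : ∀ t : L, (fun j => (p j).eval t) ≠ 0 := by
    intro t h0
    have h4 := congrArg (Polynomial.eval t) hone
    rw [Polynomial.eval_finsetSum, Polynomial.eval_one] at h4
    apply zero_ne_one (α := L)
    rw [← h4]
    symm
    refine Finset.sum_eq_zero fun j _ => ?_
    rw [Polynomial.eval_mul]
    have h5 : (p j).eval t = 0 := congrFun h0 j
    rw [h5, mul_zero]
  let P : ℤ → ℙ L (Fin (N + 1) → L) := fun n => Projectivization.mk L _ (hnz (n : L))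
  have heval : ∀ (G : MvPolynomial (Fin (N + 1)) K) (t : L),
      (eval₂ (Polynomial.C.comp (algebraMap K L)) p G).eval t =
        eval₂ (algebraMap K L) (fun i => (p i).eval t) G := fun G t =>
    eval₂_eval (algebraMap K L) p G t
  have hfin := h L τ P (fun j n => ((p j).map τ).eval (n : ℂ)) (fun j => iterRec_poly _)
    (fun n => by
      obtain ⟨a, ha⟩ := Projectivization.exists_smul_eq_mk_rep L _ (hnz (n : L))
      refine ⟨τ (a : L)⁻¹, (map_ne_zero τ).2 (inv_ne_zero a.ne_zero), fun j => ?_⟩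
      have h2 : (P n).rep j = (a : L) * (p j).eval (n : L) := by
        change (Projectivization.mk L _ (hnz (n : L))).rep j = _
        rw [← ha]
        rfl
      rw [h2, ← map_mul, inv_mul_cancel_left₀ a.ne_zero, Polynomial.eval_map,
        Polynomial.eval₂_at_intCast])
    (fun n => (mem_pts (hnz (n : L))).2 fun G hG hd => by
      rw [← heval, h1 G hG hd, Polynomial.eval_zero])
  have hroot : ∀ q : Polynomial L, q ≠ 0 → {n : ℤ | q.eval (n : L) = 0}.Finite := fun q hq =>
    (Polynomial.finite_setOfPred_isRoot hq).preimage (Int.cast_injective.injOn)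
  set q0 := eval₂ (Polynomial.C.comp (algebraMap K L)) p G' with hq0
  -- the fibres
  have hfib : ∀ x : ℙ L (Fin (N + 1) → L), {n : ℤ | P n = x}.Finite := by
    intro x
    by_cases hP : ∃ n0 : ℤ, P n0 = x
    · obtain ⟨n0, rfl⟩ := hP
      obtain ⟨k, hk⟩ := Function.ne_iff.1 (hnz (n0 : L))
      have hk' : (p k).eval (n0 : L) ≠ 0 := hk
      set x0 : Fin (N + 1) → L := fun i => (p i).eval (n0 : L) with hx0
      obtain ⟨j, hj⟩ : ∃ j, p j * Polynomial.C (x0 k) - Polynomial.C (x0 j) * p k ≠ 0 := by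
        by_contra hcon
        push Not at hcon
        obtain ⟨j, j', i, i', h2⟩ := hnc
        apply h2
        have h3 : ∀ j i, (p j).coeff i * x0 k = x0 j * (p k).coeff i := by
          intro j i
          have h4 := congrArg (fun q => Polynomial.coeff q i) (sub_eq_zero.1 (hcon j))
          simp only [Polynomial.coeff_mul_C, Polynomial.coeff_C_mul] at h4
          exact h4
        apply mul_right_cancel₀ (mul_ne_zero hk' hk')
        calc (p j).coeff i * (p j').coeff i' * (x0 k * x0 k) =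
            ((p j).coeff i * x0 k) * ((p j').coeff i' * x0 k) := by ring
          _ = ((p j').coeff i * x0 k) * ((p j).coeff i' * x0 k) := by
              rw [h3 j i, h3 j' i', h3 j' i, h3 j i']
              ring
          _ = _ := by ring
      refine (hroot _ hj).subset ?_
      intro n hn
      have hn' : Projectivization.mk L _ (hnz (n : L)) = Projectivization.mk L _
        (hnz (n0 : L)) := hn
      rw [Projectivization.mk_eq_mk_iff'] at hn'
      obtain ⟨c, hc⟩ := hn'
      have h2 : ∀ i, (p i).eval (n : L) = c * x0 i := fun i => (congrFun hc i).symm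
      change Polynomial.eval _ _ = 0
      rw [Polynomial.eval_sub, Polynomial.eval_mul, Polynomial.eval_mul, Polynomial.eval_C,
        Polynomial.eval_C, h2 j, h2 k]
      ring
    · exact Set.finite_empty.subset fun m hm => hP ⟨m, hm⟩
  have hall : (Set.univ : Set ℤ).Finite := by
    refine ((hroot q0 hne).union (hfin.biUnion fun x _ => hfib x)).subset ?_
    intro n _
    by_cases hn : q0.eval (n : L) = 0
    · exact Or.inl hn
    · right
      rw [Set.mem_iUnion₂]
      refine ⟨P n, ⟨⟨n, rfl⟩, fun hc => hn ?_⟩, rfl⟩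
      have h2 := (mem_pts (hnz (n : L))).1 hc G' hG' hGh
      rw [hq0, heval]
      exact h2
  exact Set.infinite_univ hall

/-- entire curves given by iterated linear differential equations -/
theorem iterCurves_of_noRat {σ : K →+* ℂ} {I I' : Ideal (MvPolynomial (Fin (N + 1)) K)}
    (h : NoRat σ I I') : IterCurves σ I I' := by
  rintro f hf ⟨g, hg, hr⟩ hI hnc z
  have hR : RatCurvesIn σ I I' := ratCurvesIn_iff.2 h
  have hR' : RatCurvesIn (RingHom.id ℂ) (ext σ I) (ext σ I') := by
    intro p hp hncp u F hF hd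
    have hp' : ∀ u, OnI σ I fun j => (p j).eval u := by
      rintro u G hG ⟨d, hd⟩
      have h1 := hp u (MvPolynomial.map σ G) (Ideal.subset_span ⟨G, hG, ⟨d, hd⟩, rfl⟩)
        ⟨d, hd.map σ⟩
      rw [eval₂_id, eval_map] at h1
      exact h1
    have h2 := hR p hp' hncp u
    have h3 : ext σ I' ≤ RingHom.ker (eval fun j => (p j).eval u) := by
      unfold ext
      rw [Ideal.span_le]
      rintro _ ⟨G, hG, hd, rfl⟩
      change eval (fun j => (p j).eval u) (MvPolynomial.map σ G) = 0
      rw [eval_map]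
      exact h2 G hG hd
    rw [eval₂_id]
    exact h3 hF
  exact inV_ext.1 (rat hR' hf hg hr (fun z => inV_ext.2 (hI z)) hnc z)

/-- rational curves are entire curves given by iterated linear differential equations -/
theorem noRat_of_iterCurves {σ : K →+* ℂ} {I I' : Ideal (MvPolynomial (Fin (N + 1)) K)}
    (h : IterCurves σ I I') : NoRat σ I I' := by
  classical
  intro p0 hp0
  obtain ⟨p, c, ⟨h1, ⟨G', hG', hGh, hne⟩, hnc⟩, hone⟩ := exists_coprime hp0
  have hnz : ∀ t : ℂ, (fun j => (p j).eval t) ≠ 0 := by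
    intro t h0
    have h4 := congrArg (Polynomial.eval t) hone
    rw [Polynomial.eval_finsetSum, Polynomial.eval_one] at h4
    apply zero_ne_one (α := ℂ)
    rw [← h4]
    symm
    refine Finset.sum_eq_zero fun j _ => ?_
    rw [Polynomial.eval_mul]
    have h5 : (p j).eval t = 0 := congrFun h0 j
    rw [h5, mul_zero]
  have hpj : ∃ j, p j ≠ 0 := by
    by_contra hcon
    push Not at hcon
    apply hnz 0
    funext j
    rw [hcon j, Polynomial.eval_zero]
    rfl
  obtain ⟨f, hf, hfr⟩ := exists_holMap p hpj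
  have hrep : ∀ z, Rep (f z) fun j => (p j).eval z := fun z => hfr z (hnz z)
  have hon : ∀ z, OnI σ I (f z).rep := fun z => by
    rw [← inV_ext, inV_ext_rep (hrep z)]
    intro G hG hd
    rw [← eval₂_eval, h1 G hG hd, Polynomial.eval_zero]
  have hncf : ∃ z w, f z ≠ f w := by
    obtain ⟨j, k, u, v, h4⟩ := (nc_iff p).1 hnc
    refine ⟨u, v, fun h0 => h4 ?_⟩
    have h5 := hrep u
    have h6 := hrep v
    rw [← h0] at h6
    exact ((rep_iff h5).1 h6).2 j k
  have hall := h f hf ⟨fun j z => (p j).eval z, fun j => IterLin.poly ⊥ (p j),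
    Filter.Eventually.of_forall hrep⟩ hon hncf
  apply hne
  apply Polynomial.funext
  intro z
  rw [eval₂_eval, Polynomial.eval_zero]
  have h2 := hall z
  rw [← inV_ext, inV_ext_rep (hrep z)] at h2
  exact h2 G' hG' hGh

end Pool.Agent.Y377.IR
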