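import Pool.Agent.Y377.IR.All

/-!
Iterated recurrences on the integers, representations of groups, and rational curves.
-/

set_option autoImplicit false

namespace Pool.Agent.Y377.IR

open Set MvPolynomial Pool.Agent.Y377.EL Pool.Agent.Y377.IL
open scoped LinearAlgebra.Projectivization
open Pool.Agent.TH143.EL (Rep InV inV_iff rep_rep rep_smul rep_eq)

section general

variable {H : Type} [Group H]

theorem FundF.mono {R R' : Subalgebra ℂ (H → ℂ)} (hle : R ≤ R') {n : ℕ}
    {X Y : Matrix (Fin n) (Fin n) (H → ℂ)} (h : FundF R X Y) : FundF R' X Y :=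
  ⟨h.inv, fun g i j => hle (h.coc g i j)⟩

/-- a common ring for a finite family of functions -/
theorem common {ι : Type} [Finite ι] {F : ι → H → ℂ}
    (h : ∀ i, ∀ R : Subalgebra ℂ (H → ℂ), FTow R → ∃ R', R ≤ R' ∧ FTow R' ∧ F i ∈ R')
    (R : Subalgebra ℂ (H → ℂ)) (hR : FTow R) : ∃ R', R ≤ R' ∧ FTow R' ∧ ∀ i, F i ∈ R' := by
  classical
  have : Fintype ι := Fintype.ofFinite ι
  have key : ∀ s : Finset ι, ∃ R', R ≤ R' ∧ FTow R' ∧ ∀ i ∈ s, F i ∈ R' := by
    intro s
    induction s using Finset.induction_on with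
    | empty => exact ⟨R, le_rfl, hR, fun i hi => absurd hi (Finset.notMem_empty i)⟩
    | insert a s ha ih =>
      obtain ⟨R1, h1, h2, h3⟩ := ih
      obtain ⟨R2, h4, h5, h6⟩ := h a R1 h2
      refine ⟨R2, h1.trans h4, h5, fun i hi => ?_⟩
      rcases Finset.mem_insert.1 hi with rfl | hi
      · exact h6
      · exact h4 (h3 i hi)
  obtain ⟨R', h1, h2, h3⟩ := key Finset.univ
  exact ⟨R', h1, h2, fun i => h3 i (Finset.mem_univ i)⟩

/-- matrix coefficients of representations -/
theorem rep_tow {r : ℕ} (ρ : H →* Matrix.GeneralLinearGroup (Fin r) ℂ)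
    (R : Subalgebra ℂ (H → ℂ)) (hR : FTow R) : ∃ R', R ≤ R' ∧ FTow R' ∧
      ∀ i j, (fun h => (ρ h : Matrix (Fin r) (Fin r) ℂ) i j) ∈ R' := by
  let X : Matrix (Fin r) (Fin r) (H → ℂ) := fun i j h => (ρ h : Matrix (Fin r) (Fin r) ℂ) i j
  let Y : Matrix (Fin r) (Fin r) (H → ℂ) := fun i j h =>
    ((ρ h)⁻¹ : Matrix.GeneralLinearGroup (Fin r) ℂ).1 i j
  have hF : FundF R X Y := by
    constructor
    · ext i j h
      have h1 : (X * Y) i j h = ((ρ h : Matrix (Fin r) (Fin r) ℂ) *
          ((ρ h)⁻¹ : Matrix.GeneralLinearGroup (Fin r) ℂ).1) i j := by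
        rw [Matrix.mul_apply, Matrix.mul_apply, Finset.sum_apply]
        rfl
      rw [h1, ← Units.val_mul, mul_inv_cancel, Units.val_one, Matrix.one_apply, Matrix.one_apply]
      split_ifs <;> rfl
    · intro g i j
      have h1 : (∑ k, tr g (X i k) * Y k j) = algebraMap ℂ (H → ℂ)
          ((ρ g : Matrix (Fin r) (Fin r) ℂ) i j) := by
        funext h
        have h2 : (∑ k, tr g (X i k) * Y k j) h = ((ρ (g * h) : Matrix (Fin r) (Fin r) ℂ) *
          ((ρ h)⁻¹ : Matrix.GeneralLinearGroup (Fin r) ℂ).1) i j := by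
          rw [Matrix.mul_apply, Finset.sum_apply]
          rfl
        rw [h2, map_mul, ← Units.val_mul, mul_assoc, mul_inv_cancel, mul_one]
        rfl
      rw [h1]
      exact Subalgebra.algebraMap_mem _ _
  exact ⟨matF R X Y, le_matF R X Y, FTow.step hR hF, fun i j => mem_matF_left R X Y i j⟩

end general

/-- **Iterated recurrences.** The smallest set of functions on the integers which contains the
constants, is closed under sums and products, and contains the solutions of the systems
`y(n + 1) = A(n) y(n)` if the entries of `A` and of `B = A⁻¹` are in the set. -/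
inductive IterRec : (ℤ → ℂ) → Prop
  | const (c : ℂ) : IterRec fun _ => c
  | add {f g : ℤ → ℂ} : IterRec f → IterRec g → IterRec fun n => f n + g n
  | mul {f g : ℤ → ℂ} : IterRec f → IterRec g → IterRec fun n => f n * g n
  | solution {r : ℕ} (A B : Fin r → Fin r → ℤ → ℂ) (y : Fin r → ℤ → ℂ) :
      (∀ i j, IterRec (A i j)) → (∀ i j, IterRec (B i j)) →
      (∀ n i j, ∑ k, A i k n * B k j n = if i = j then 1 else 0) →
      (∀ n i, y i (n + 1) = ∑ k, A i k n * y k n) → ∀ i, IterRec (y i)

section fund

variable {r : ℕ} (U : ℤ → (Matrix (Fin r) (Fin r) ℂ)ˣ)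

/-- one step of the recurrence -/
def stepE : Equiv.Perm (ℤ × (Matrix (Fin r) (Fin r) ℂ)ˣ) where
  toFun := fun q => (q.1 + 1, U q.1 * q.2)
  invFun := fun q => (q.1 - 1, (U (q.1 - 1))⁻¹ * q.2)
  left_inv := fun q => by
    ext1
    · exact add_sub_cancel_right q.1 1
    · simp only [add_sub_cancel_right, inv_mul_cancel_left]
  right_inv := fun q => by
    ext1
    · exact sub_add_cancel q.1 1
    · simp only [mul_inv_cancel_left]

/-- the fundamental matrix -/
def fundM (n : ℤ) : (Matrix (Fin r) (Fin r) ℂ)ˣ := ((stepE U ^ n) (0, 1)).2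

theorem stepE_fst (n : ℤ) : ((stepE U ^ n) (0, 1)).1 = n := by
  induction n using Int.induction_on with
  | zero => rfl
  | succ i ih =>
    rw [add_comm, zpow_add, zpow_one, Equiv.Perm.mul_apply]
    change ((stepE U ^ (i : ℤ)) (0, 1)).1 + 1 = _
    rw [ih, add_comm]
  | pred i ih =>
    rw [sub_eq_add_neg, add_comm, zpow_add, zpow_neg_one, Equiv.Perm.mul_apply]
    change ((stepE U ^ (-(i : ℤ))) (0, 1)).1 - 1 = _
    rw [ih]
    ring

theorem fundM_zero : fundM U 0 = 1 := rfl

theorem fundM_succ (n : ℤ) : fundM U (n + 1) = U n * fundM U n := by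
  unfold fundM
  rw [add_comm, zpow_add, zpow_one, Equiv.Perm.mul_apply]
  change U ((stepE U ^ n) (0, 1)).1 * _ = _
  rw [stepE_fst]

theorem fundM_pred (n : ℤ) : fundM U (n - 1) = (U (n - 1))⁻¹ * fundM U n := by
  have h := fundM_succ U (n - 1)
  rw [sub_add_cancel] at h
  rw [h, inv_mul_cancel_left]

end fund

theorem units_entries {r : ℕ} (A B : Fin r → Fin r → ℤ → ℂ)
    (h : ∀ n i j, ∑ k, A i k n * B k j n = if i = j then 1 else 0) :
    ∃ U : ℤ → (Matrix (Fin r) (Fin r) ℂ)ˣ, (∀ n i j, (U n).1 i j = A i j n) ∧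
      ∀ n i j, ((U n)⁻¹).1 i j = B i j n := by
  have h1 : ∀ n, (Matrix.of fun i j => A i j n) * (Matrix.of fun i j => B i j n) = 1 := by
    intro n
    ext i j
    rw [Matrix.mul_apply, Matrix.one_apply]
    exact h n i j
  exact ⟨fun n => ⟨Matrix.of fun i j => A i j n, Matrix.of fun i j => B i j n, h1 n,
    mul_eq_one_comm.1 (h1 n)⟩, fun n i j => rfl, fun n i j => rfl⟩

/-- **Iterated recurrences on the integers belong to the rings of towers.** -/
theorem IterRec.tow {f : ℤ → ℂ} (hf : IterRec f) :
    ∀ R : Subalgebra ℂ (Multiplicative ℤ → ℂ), FTow R → ∃ R', R ≤ R' ∧ FTow R' ∧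
      (fun m : Multiplicative ℤ => f m.toAdd) ∈ R' := by
  induction hf with
  | const c => exact fun R hR => ⟨R, le_rfl, hR, Subalgebra.algebraMap_mem R c⟩
  | @add f g _ _ h1 h2 =>
    intro R hR
    obtain ⟨R1, e1, e2, e3⟩ := h1 R hR
    obtain ⟨R2, e4, e5, e6⟩ := h2 R1 e2
    exact ⟨R2, e1.trans e4, e5, R2.add_mem (e4 e3) e6⟩
  | @mul f g _ _ h1 h2 =>
    intro R hR
    obtain ⟨R1, e1, e2, e3⟩ := h1 R hR
    obtain ⟨R2, e4, e5, e6⟩ := h2 R1 e2
    exact ⟨R2, e1.trans e4, e5, R2.mul_mem (e4 e3) e6⟩
  | @solution r A B y _ _ hAB hy i h1 h2 =>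
    intro R hR
    obtain ⟨R1, e1, e2, e3⟩ := common (F := fun (q : Fin r × Fin r) (m : Multiplicative ℤ) =>
      A q.1 q.2 m.toAdd) (fun q => h1 q.1 q.2) R hR
    obtain ⟨R2, e4, e5, e6⟩ := common (F := fun (q : Fin r × Fin r) (m : Multiplicative ℤ) =>
      B q.1 q.2 m.toAdd) (fun q => h2 q.1 q.2) R1 e2
    obtain ⟨U, hU, hU'⟩ := units_entries A B hAB
    have hst : TStab R2 := (e5.good fhyp).1
    let X : Matrix (Fin r) (Fin r) (Multiplicative ℤ → ℂ) := fun i j m =>
      (fundM U m.toAdd).1 i j
    let Y : Matrix (Fin r) (Fin r) (Multiplicative ℤ → ℂ) := fun i j m =>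
      ((fundM U m.toAdd)⁻¹).1 i j
    have hAR : ∀ (g : ℤ) (i j : Fin r), (fun m : Multiplicative ℤ => (U (g + m.toAdd)).1 i j) ∈
        R2 := by
      intro g i j
      have h3 := hst (Multiplicative.ofAdd g) _ (e4 (e3 (i, j)))
      have h4 : (fun m : Multiplicative ℤ => (U (g + m.toAdd)).1 i j) =
          tr (Multiplicative.ofAdd g) fun m : Multiplicative ℤ => A i j m.toAdd := by
        funext m
        exact hU _ i j
      rw [h4]
      exact h3
    have hBR : ∀ (g : ℤ) (i j : Fin r), (fun m : Multiplicative ℤ =>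
        ((U (g + m.toAdd))⁻¹).1 i j) ∈ R2 := by
      intro g i j
      have h3 := hst (Multiplicative.ofAdd g) _ (e6 (i, j))
      have h4 : (fun m : Multiplicative ℤ => ((U (g + m.toAdd))⁻¹).1 i j) =
          tr (Multiplicative.ofAdd g) fun m : Multiplicative ℤ => B i j m.toAdd := by
        funext m
        exact hU' _ i j
      rw [h4]
      exact h3
    -- the cocycle
    have hco : ∀ (g : ℤ) (i j : Fin r), (fun m : Multiplicative ℤ =>
        (fundM U (g + m.toAdd) * (fundM U m.toAdd)⁻¹).1 i j) ∈ R2 := by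
      intro g
      induction g using Int.induction_on with
      | zero =>
        intro i j
        have h3 : (fun m : Multiplicative ℤ => (fundM U (0 + m.toAdd) *
            (fundM U m.toAdd)⁻¹).1 i j) = algebraMap ℂ (Multiplicative ℤ → ℂ)
            ((1 : Matrix (Fin r) (Fin r) ℂ) i j) := by
          funext m
          rw [zero_add, mul_inv_cancel, Units.val_one]
          rfl
        rw [h3]
        exact Subalgebra.algebraMap_mem _ _
      | succ g ih =>
        intro i j
        have h3 : (fun m : Multiplicative ℤ => (fundM U ((g : ℤ) + 1 + m.toAdd) *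
            (fundM U m.toAdd)⁻¹).1 i j) = ∑ k, (fun m : Multiplicative ℤ =>
              (U ((g : ℤ) + m.toAdd)).1 i k) * fun m : Multiplicative ℤ =>
                (fundM U ((g : ℤ) + m.toAdd) * (fundM U m.toAdd)⁻¹).1 k j := by
          funext m
          have h4 : (g : ℤ) + 1 + m.toAdd = ((g : ℤ) + m.toAdd) + 1 := by ring
          rw [h4, fundM_succ, mul_assoc, Units.val_mul, Matrix.mul_apply, Finset.sum_apply]
          rfl
        rw [h3]
        exact Subalgebra.sum_mem _ fun k _ => R2.mul_mem (hAR g i k) (ih k j)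
      | pred g ih =>
        intro i j
        have h3 : (fun m : Multiplicative ℤ => (fundM U (-(g : ℤ) - 1 + m.toAdd) *
            (fundM U m.toAdd)⁻¹).1 i j) = ∑ k, (fun m : Multiplicative ℤ =>
              ((U ((-(g : ℤ) - 1) + m.toAdd))⁻¹).1 i k) * fun m : Multiplicative ℤ =>
                (fundM U (-(g : ℤ) + m.toAdd) * (fundM U m.toAdd)⁻¹).1 k j := by
          funext m
          have h4 : (-(g : ℤ) + m.toAdd) - 1 = -(g : ℤ) - 1 + m.toAdd := by ring
          have h5 := fundM_pred U (-(g : ℤ) + m.toAdd)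
          rw [h4] at h5
          rw [h5, mul_assoc, Units.val_mul, Matrix.mul_apply, Finset.sum_apply]
          rfl
        rw [h3]
        exact Subalgebra.sum_mem _ fun k _ => R2.mul_mem (hBR _ i k) (ih k j)
    have hF : FundF R2 X Y := by
      constructor
      · ext i j m
        have h3 : (X * Y) i j m = ((fundM U m.toAdd).1 * ((fundM U m.toAdd)⁻¹).1) i j := by
          rw [Matrix.mul_apply, Matrix.mul_apply, Finset.sum_apply]
          rfl
        rw [h3, ← Units.val_mul, mul_inv_cancel, Units.val_one, Matrix.one_apply,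
          Matrix.one_apply]
        split_ifs <;> rfl
      · intro g i j
        have h3 : (∑ k, tr g (X i k) * Y k j) = fun m : Multiplicative ℤ =>
            (fundM U (g.toAdd + m.toAdd) * (fundM U m.toAdd)⁻¹).1 i j := by
          funext m
          rw [Units.val_mul, Matrix.mul_apply, Finset.sum_apply]
          rfl
        rw [h3]
        exact hco g.toAdd i j
    refine ⟨matF R2 X Y, e1.trans (e4.trans (le_matF R2 X Y)), FTow.step e5 hF, ?_⟩
    -- the solutions
    have hsol : ∀ (n : ℤ) (i : Fin r), y i n = ∑ k, (fundM U n).1 i k * y k 0 := by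
      have hv : ∀ n : ℤ, (fun i => y i n) = (fundM U n).1.mulVec fun i => y i 0 := by
        intro n
        induction n using Int.induction_on with
        | zero => rw [fundM_zero, Units.val_one, Matrix.one_mulVec]
        | succ n ih =>
          have h3 : (fun i => y i ((n : ℤ) + 1)) = (U n).1.mulVec fun i => y i n := by
            funext i
            rw [hy]
            change _ = ∑ k, (U n).1 i k * y k n
            exact Finset.sum_congr rfl fun k _ => by rw [hU]
          rw [h3, ih, fundM_succ, Units.val_mul, Matrix.mulVec_mulVec]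
        | pred n ih =>
          have h3 : (fun i => y i (-(n : ℤ))) = (U (-(n : ℤ) - 1)).1.mulVec
              fun i => y i (-(n : ℤ) - 1) := by
            funext i
            have h4 := hy (-(n : ℤ) - 1) i
            rw [sub_add_cancel] at h4
            rw [h4]
            change _ = ∑ k, (U (-(n : ℤ) - 1)).1 i k * y k (-(n : ℤ) - 1)
            exact Finset.sum_congr rfl fun k _ => by rw [hU]
          have h5 : ((U (-(n : ℤ) - 1))⁻¹).1.mulVec (fun i => y i (-(n : ℤ))) =
              fun i => y i (-(n : ℤ) - 1) := by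
            rw [h3, Matrix.mulVec_mulVec, ← Units.val_mul, inv_mul_cancel, Units.val_one,
              Matrix.one_mulVec]
          rw [← h5, ih, fundM_pred, Units.val_mul, Matrix.mulVec_mulVec]
      intro n i
      exact congrFun (hv n) i
    have h3 : (fun m : Multiplicative ℤ => y i m.toAdd) =
        ∑ k, X i k * algebraMap ℂ (Multiplicative ℤ → ℂ) (y k 0) := by
      funext m
      rw [hsol, Finset.sum_apply]
      rfl
    rw [h3]
    exact Subalgebra.sum_mem _ fun k _ => Subalgebra.mul_mem _ (mem_matF_left R2 X Y i k)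
      (Subalgebra.algebraMap_mem _ _)

theorem iterRec_id : IterRec fun n => (n : ℂ) := by
  have h := IterRec.solution (r := 2) (fun i j _ => if i = 0 ∧ j = 1 then 1 else if i = j then 1
      else 0) (fun i j _ => if i = 0 ∧ j = 1 then -1 else if i = j then 1 else 0)
      (fun i n => if i = 0 then (n : ℂ) else 1) (fun i j => IterRec.const _)
      (fun i j => IterRec.const _) (fun n i j => by
        fin_cases i <;> fin_cases j <;> simp [Fin.sum_univ_two])
      (fun n i => by fin_cases i <;> simp [Fin.sum_univ_two]) 0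
  simpa using h

theorem iterRec_poly (q : Polynomial ℂ) : IterRec fun n => q.eval (n : ℂ) := by
  induction q using Polynomial.induction_on' with
  | add p q hp hq =>
    simp only [Polynomial.eval_add]
    exact hp.add hq
  | monomial n a =>
    simp only [Polynomial.eval_monomial]
    refine (IterRec.const a).mul ?_
    induction n with
    | zero =>
      simp only [pow_zero]
      exact IterRec.const 1
    | succ n ih =>
      simp only [pow_succ]
      exact ih.mul iterRec_id

/-- families on the integers with coordinates given by iterated recurrences -/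
theorem iteratedOn_int {N : ℕ} {P : ℤ → ℙ ℂ (Fin (N + 1) → ℂ)} {f : Fin (N + 1) → ℤ → ℂ}
    (hf : ∀ j, IterRec (f j)) (hP : ∀ n, Rep (P n) fun j => f j n) :
    IteratedOn fun m : Multiplicative ℤ => P m.toAdd := by
  obtain ⟨R, -, h2, h3⟩ := common (F := fun (j : Fin (N + 1)) (m : Multiplicative ℤ) =>
    f j m.toAdd) (fun j => (hf j).tow) ⊥ FTow.base
  exact ⟨R, fun j m => f j m.toAdd, h2, h3, fun m => hP m.toAdd⟩

end Pool.Agent.Y377.IR
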