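import Pool.Agent.Y377.IL.Asm

/-!
Statements of the project IR (iterated recurrences): groups of automorphisms instead of derivations.
-/

set_option autoImplicit false

namespace Pool.Agent.Y377.IR

open Pool.Agent.Y377.EL Pool.Agent.Y377.IL MvPolynomial

/-! ### Groups of automorphisms of fields -/

/-- stable under the group -/
def StabG {K : Type} [Field K] [Algebra ℂ K] (Γ : Subgroup (K ≃ₐ[ℂ] K)) (R : Subalgebra ℂ K) :
    Prop := ∀ γ ∈ Γ, ∀ x ∈ R, γ x ∈ R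

/-- the invariants are the complex numbers -/
def CstG {K : Type} [Field K] [Algebra ℂ K] (Γ : Subgroup (K ≃ₐ[ℂ] K)) : Prop :=
  ∀ x : K, (∀ γ ∈ Γ, γ x = x) → ∃ c : ℂ, x = algebraMap ℂ K c

/-- no proper nonzero invariant ideals -/
def GSimple {K : Type} [Field K] [Algebra ℂ K] (Γ : Subgroup (K ≃ₐ[ℂ] K)) (R : Subalgebra ℂ K) :
    Prop :=
  ∀ I : Submodule R K, (∀ x ∈ I, x ∈ R) → (∀ γ ∈ Γ, ∀ x ∈ I, γ x ∈ I) → (∃ x ∈ I, x ≠ 0) →
    (1 : K) ∈ I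

/-- `X` is an invertible matrix, with inverse `Y`, and all `γ(X) X⁻¹` have entries in `R` -/
structure FundG {K : Type} [Field K] [Algebra ℂ K] (Γ : Subgroup (K ≃ₐ[ℂ] K))
    (R : Subalgebra ℂ K) {n : ℕ} (X Y : Matrix (Fin n) (Fin n) K) : Prop where
  inv : X * Y = 1
  coc : ∀ γ ∈ Γ, ∀ i j, ∑ k, γ (X i k) * Y k j ∈ R

/-- algebraic elements of the extension by a fundamental matrix -/
def G_FA : Prop := ∀ (K : Type) [Field K] [Algebra ℂ K] (Γ : Subgroup (K ≃ₐ[ℂ] K))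
  (R : Subalgebra ℂ K), StabG Γ R → GSimple Γ R → IsNoetherianRing R →
    ∀ (n : ℕ) (X Y : Matrix (Fin n) (Fin n) K), FundG Γ R X Y →
      FGmod R (mat R X Y ⊓ algC R)

/-- algebraic elements of finite extensions -/
def G_FB : Prop := ∀ (K : Type) [Field K] [Algebra ℂ K] (Γ : Subgroup (K ≃ₐ[ℂ] K))
  (R R' S : Subalgebra ℂ K), R ≤ R' → R' ≤ S → StabG Γ R → StabG Γ R' → StabG Γ S →
    GSimple Γ R' → IsNoetherianRing R → FGmod R (R' ⊓ algC R) → FGmod R' S →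
      FGmod R (S ⊓ algC R)

/-- algebraic elements of the fraction field; `K` is finitely generated over `ℂ` -/
def G_FR : Prop := ∀ (K : Type) [Field K] [Algebra ℂ K], (⊤ : IntermediateField ℂ K).FG →
  ∀ (Γ : Subgroup (K ≃ₐ[ℂ] K)) (R S : Subalgebra ℂ K), R ≤ S → StabG Γ R → StabG Γ S →
    GSimple Γ S → ∀ x ∈ frac S, IsAlgebraic R x → ∃ r ∈ R, r ≠ 0 ∧ r * x ∈ S

/-- existence of infinitesimal symmetries -/
def G_DER : Prop := ∀ (K : Type) [Field K] [Algebra ℂ K] (Γ : Subgroup (K ≃ₐ[ℂ] K)), CstG Γ →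
  ∀ (R : Subalgebra ℂ K), StabG Γ R →
    ∀ (n : ℕ) (X Y : Matrix (Fin n) (Fin n) K), FundG Γ R X Y →
      ∀ x : K, IsAlgebraic (mat R X Y) x → ¬ IsAlgebraic R x →
        ∃ (δ : Derivation ℂ K K) (ξ : Matrix (Fin n) (Fin n) ℂ), (∀ r ∈ R, δ r = 0) ∧
          δ x ≠ 0 ∧ ∀ i j, δ (X i j) = ∑ k, X i k * algebraMap ℂ K (ξ k j)

/-- replicas -/
def G_SP : Prop := ∀ (K : Type) [Field K] [Algebra ℂ K] (Γ : Subgroup (K ≃ₐ[ℂ] K))
  (δ : Derivation ℂ K K) (B : Subalgebra ℂ K), StabG Γ B → Stab δ B →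
    (∀ γ ∈ Γ, ∀ b ∈ B, γ (δ b) = δ (γ b)) →
    (∀ b ∈ B, b ∈ ⨆ μ : ℂ, Subalgebra.toSubmodule B ⊓ (en δ).maxGenEigenspace μ) →
      ∀ x : K, IsAlgebraic B x → δ x ≠ 0 →
        ∃ δ' : Derivation ℂ K K, Stab δ' B ∧ (∀ γ ∈ Γ, ∀ b ∈ B, γ (δ' b) = δ' (γ b)) ∧
          δ' x ≠ 0 ∧ ((∀ b ∈ B, ∃ k : ℕ, (en δ' ^ k) b = 0) ∨
            ∀ b ∈ B, b ∈ ⨆ q : ℚ, Subalgebra.toSubmodule B ⊓ (en δ').eigenspace (q : ℂ))

/-- symmetries preserve finite extensions -/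
def G_COM : Prop := ∀ (K : Type) [Field K] [Algebra ℂ K] (Γ : Subgroup (K ≃ₐ[ℂ] K))
  (δ : Derivation ℂ K K) (B S : Subalgebra ℂ K), B ≤ S → StabG Γ B → StabG Γ S → GSimple Γ S →
    FGmod B S → Stab δ B → (∀ γ ∈ Γ, ∀ b ∈ B, γ (δ b) = δ (γ b)) →
      Stab δ S ∧ ∀ γ ∈ Γ, ∀ s ∈ S, γ (δ s) = δ (γ s)

/-! ### Functions on a group -/

section functions

variable {H : Type} [Group H]

/-- left translation of functions on the group `H` -/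
def tr (g : H) (f : H → ℂ) : H → ℂ := fun h => f (g * h)

/-- stable under translation -/
def TStab (R : Subalgebra ℂ (H → ℂ)) : Prop := ∀ g : H, ∀ f ∈ R, tr g f ∈ R

/-- no proper nonzero translation invariant ideals -/
def TSimple (R : Subalgebra ℂ (H → ℂ)) : Prop :=
  ∀ I : Submodule R (H → ℂ), (∀ f ∈ I, f ∈ R) → (∀ g : H, ∀ f ∈ I, tr g f ∈ I) →
    (∃ f ∈ I, f ≠ 0) → (1 : H → ℂ) ∈ I

/-- the ring generated over `R` by the entries of two matrices -/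
noncomputable def matF (R : Subalgebra ℂ (H → ℂ)) {n : ℕ}
    (X Y : Matrix (Fin n) (Fin n) (H → ℂ)) : Subalgebra ℂ (H → ℂ) :=
  R ⊔ Algebra.adjoin ℂ {x | ∃ i j, x = X i j ∨ x = Y i j}

/-- `X` is an invertible matrix of functions, with inverse `Y`, and all `X(gh) X(h)⁻¹` have, as
functions of `h`, entries in `R` -/
structure FundF (R : Subalgebra ℂ (H → ℂ)) {n : ℕ} (X Y : Matrix (Fin n) (Fin n) (H → ℂ)) :
    Prop where
  inv : X * Y = 1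
  coc : ∀ (g : H) (i j : Fin n), ∑ k, tr g (X i k) * Y k j ∈ R

/-- the functions in `R` form a domain after restriction to any coset of `N` -/
def DomOn (N : Subgroup H) (R : Subalgebra ℂ (H → ℂ)) : Prop :=
  ∀ (a : H), ∀ f ∈ R, ∀ f' ∈ R, (∀ g ∈ N, f (g * a) * f' (g * a) = 0) →
    (∀ g ∈ N, f (g * a) = 0) ∨ ∀ g ∈ N, f' (g * a) = 0

end functions

/-- extension of general points -/
def G_LIFT : Prop := ∀ (R T : Type) [CommRing R] [CommRing T] [Algebra ℂ R] [Algebra ℂ T]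
  [Algebra R T] [IsScalarTower ℂ R T], IsReduced R → IsNoetherianRing R →
    Algebra.FiniteType R T → Function.Injective (algebraMap R T) → Nontrivial R →
      ∃ s : R, s ≠ 0 ∧ ∀ φ : R →ₐ[ℂ] ℂ, φ s ≠ 0 →
        ∃ ψ : T →ₐ[ℂ] ℂ, ∀ r : R, ψ (algebraMap R T r) = φ r

/-- the simplicity of the extension by a fundamental matrix, for functions on a group -/
def G_SIM : Prop := G_LIFT → ∀ (H : Type) [Group H] (R : Subalgebra ℂ (H → ℂ)), TStab R →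
  TSimple R → IsNoetherianRing R → ∀ (n : ℕ) (X Y : Matrix (Fin n) (Fin n) (H → ℂ)),
    FundF R X Y → TSimple (matF R X Y)

/-- restriction to the cosets of a subgroup of finite index -/
def G_MIN : Prop := ∀ (H : Type) [Group H] (R : Subalgebra ℂ (H → ℂ)), TStab R → TSimple R →
  IsNoetherianRing R → ∃ N : Subgroup H, N.Normal ∧ N.FiniteIndex ∧ DomOn N R

/-- the field of a coset -/
def G_KA : Prop := ∀ (H : Type) [Group H] (R : Subalgebra ℂ (H → ℂ)) (N : Subgroup H), TStab R →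
  DomOn N R → ∀ a : H, ∃ (K : Type) (_ : Field K) (_ : Algebra ℂ K)
    (Γ : Subgroup (K ≃ₐ[ℂ] K)) (ρ : R →ₐ[ℂ] K),
      (∀ f : R, ρ f = 0 ↔ ∀ g ∈ N, (f : H → ℂ) (g * a) = 0) ∧ (∀ x : K, x ∈ frac ρ.range) ∧
      (∀ γ ∈ Γ, ∃ g ∈ N, ∀ f f' : R, (f' : H → ℂ) = tr g f → γ (ρ f) = ρ f') ∧
      ∀ g ∈ N, ∃ γ ∈ Γ, ∀ f f' : R, (f' : H → ℂ) = tr g f → γ (ρ f) = ρ f'

/-- simplicity after the restriction to a coset -/
def G_KB : Prop := ∀ (H : Type) [Group H] (R : Subalgebra ℂ (H → ℂ)) (N : Subgroup H), TStab R →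
  N.Normal → N.FiniteIndex → DomOn N R → ∀ (a : H) (K : Type) [Field K] [Algebra ℂ K]
    (Γ : Subgroup (K ≃ₐ[ℂ] K)) (ρ : R →ₐ[ℂ] K),
      (∀ f : R, ρ f = 0 ↔ ∀ g ∈ N, (f : H → ℂ) (g * a) = 0) →
      (∀ γ ∈ Γ, ∃ g ∈ N, ∀ f f' : R, (f' : H → ℂ) = tr g f → γ (ρ f) = ρ f') →
      (∀ g ∈ N, ∃ γ ∈ Γ, ∀ f f' : R, (f' : H → ℂ) = tr g f → γ (ρ f) = ρ f') →
      ∀ (R' : Subalgebra ℂ (H → ℂ)), R' ≤ R → TStab R' → TSimple R' →
        ∀ S : Subalgebra ℂ K, (∀ x, x ∈ S ↔ ∃ f : R, (f : H → ℂ) ∈ R' ∧ ρ f = x) →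
          GSimple Γ S

/-- the invariants after the restriction to a coset -/
def G_KC : Prop := ∀ (H : Type) [Group H] (R : Subalgebra ℂ (H → ℂ)) (N : Subgroup H), TStab R →
  ∀ (a : H) (K : Type) [Field K] [Algebra ℂ K]
    (Γ : Subgroup (K ≃ₐ[ℂ] K)) (ρ : R →ₐ[ℂ] K),
      (∀ f : R, ρ f = 0 ↔ ∀ g ∈ N, (f : H → ℂ) (g * a) = 0) →
      (∀ γ ∈ Γ, ∃ g ∈ N, ∀ f f' : R, (f' : H → ℂ) = tr g f → γ (ρ f) = ρ f') →
      (∀ g ∈ N, ∃ γ ∈ Γ, ∀ f f' : R, (f' : H → ℂ) = tr g f → γ (ρ f) = ρ f') →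
      (∀ x : K, x ∈ frac ρ.range) → GSimple Γ ρ.range → CstG Γ

end Pool.Agent.Y377.IR
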